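import Pool.Agent.LRed.Tor

/-!
Centralisers of powers of generators and roots in dihedral Artin groups.
-/

set_option autoImplicit false

namespace Pool.Agent.LRed

open Pool.Agent.ArtSph Pool.Agent.FBuild Pool.Agent.EvA

-- BEGIN fce
private theorem fce_nil {α : Type} [DecidableEq α] (w : FreeGroup α) (x : α) (n : ℕ) (hn : 0 < n)
    (h : w * FreeGroup.of x ^ n = FreeGroup.of x ^ n * w)
    (hx : ∀ a ∈ w.toWord.head?, a.1 ≠ x) : w = 1 := by
  have e : w⁻¹ * FreeGroup.of x ^ n * w = FreeGroup.of x ^ n := by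
    rw [mul_assoc, ← h, ← mul_assoc, inv_mul_cancel, one_mul]
  have h1 : FreeGroup.IsReduced (w⁻¹.toWord ++ List.replicate n (x, true)) := by
    unfold FreeGroup.IsReduced
    rw [List.isChain_append]
    refine ⟨FreeGroup.isReduced_toWord, ?_, ?_⟩
    · have := FreeGroup.isReduced_toWord (x := FreeGroup.of x ^ n)
      rw [FreeGroup.toWord_of_pow] at this
      exact this
    · intro a ha b hb hab
      exfalso
      have hb' : b = (x, true) := by
        have : b ∈ List.replicate n (x, true) := List.mem_of_mem_head? hb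
        exact List.eq_of_mem_replicate this
      rw [FreeGroup.toWord_inv] at ha
      unfold FreeGroup.invRev at ha
      rw [List.getLast?_reverse, List.head?_map] at ha
      obtain ⟨c, hc, hca⟩ := Option.mem_map.1 ha
      apply hx c hc
      rw [← hca, hb'] at hab
      exact hab
  have h2 : FreeGroup.IsReduced (List.replicate n (x, true) ++ w.toWord) := by
    unfold FreeGroup.IsReduced
    rw [List.isChain_append]
    refine ⟨?_, FreeGroup.isReduced_toWord, ?_⟩
    · have := FreeGroup.isReduced_toWord (x := FreeGroup.of x ^ n)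
      rw [FreeGroup.toWord_of_pow] at this
      exact this
    · intro a ha b hb hab
      exfalso
      have ha' : a = (x, true) := by
        have : a ∈ List.replicate n (x, true) := List.mem_of_mem_getLast? ha
        exact List.eq_of_mem_replicate this
      apply hx b hb
      rw [← hab, ha']
  have h3 := FreeGroup.IsReduced.append_overlap h1 h2 (by
    intro h0
    rw [List.replicate_eq_nil_iff] at h0
    omega)
  have h4 : (FreeGroup.of x ^ n).toWord = w⁻¹.toWord ++ List.replicate n (x, true) ++ w.toWord := by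
    conv_lhs => rw [← e]
    rw [← h3.reduce_eq, ← FreeGroup.toWord_mk, ← FreeGroup.mul_mk, ← FreeGroup.mul_mk,
      FreeGroup.mk_toWord, FreeGroup.mk_toWord]
    congr 3
    rw [← FreeGroup.toWord_of_pow, FreeGroup.mk_toWord]
  have h5 := congrArg List.length h4
  rw [FreeGroup.toWord_of_pow] at h5
  simp only [List.length_append, List.length_replicate] at h5
  have h6 : w.toWord.length = 0 := by omega
  have h7 : w.toWord = [] := List.length_eq_zero_iff.1 h6
  exact FreeGroup.toWord_eq_nil_iff.1 h7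

private theorem fce_nat {α : Type} [DecidableEq α] (x : α) (n : ℕ) (hn : 0 < n) (N : ℕ) :
    ∀ w : FreeGroup α, w.toWord.length ≤ N →
      w * FreeGroup.of x ^ n = FreeGroup.of x ^ n * w → ∃ m : ℤ, w = FreeGroup.of x ^ m := by
  induction N with
  | zero =>
    intro w hw _
    refine ⟨0, ?_⟩
    have h7 : w.toWord = [] := List.length_eq_zero_iff.1 (Nat.le_zero.1 hw)
    rw [zpow_zero]
    exact FreeGroup.toWord_eq_nil_iff.1 h7
  | succ N ih =>
    intro w hw h
    by_cases hx : ∀ a ∈ w.toWord.head?, a.1 ≠ x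
    · exact ⟨0, by rw [zpow_zero]; exact fce_nil w x n hn h hx⟩
    · push Not at hx
      obtain ⟨a, ha, hax⟩ := hx
      obtain ⟨L, hL⟩ : ∃ L, w.toWord = a :: L := by
        cases hw : w.toWord with
        | nil => rw [hw] at ha; simp at ha
        | cons b L =>
          rw [hw] at ha
          simp at ha
          exact ⟨L, by rw [ha]⟩
      have hwe : w = FreeGroup.mk [a] * FreeGroup.mk L := by
        rw [FreeGroup.mul_mk]
        rw [← FreeGroup.mk_toWord (x := w), hL]
        rfl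
      have hae : ∃ s : ℤ, FreeGroup.mk [a] = FreeGroup.of x ^ s := by
        obtain ⟨a1, a2⟩ := a
        simp only at hax
        subst hax
        cases a2 with
        | true => exact ⟨1, by rw [zpow_one]; rfl⟩
        | false => exact ⟨-1, by rw [zpow_neg, zpow_one]; rfl⟩
      obtain ⟨s, hs⟩ := hae
      have hlen : (FreeGroup.mk L).toWord.length ≤ N := by
        have h1 := FreeGroup.norm_mk_le (L₁ := L)
        unfold FreeGroup.norm at h1
        have h2 : w.toWord.length = L.length + 1 := by rw [hL]; rfl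
        have h3 : w.toWord.length ≤ N + 1 := hw
        omega
      have hcom : FreeGroup.mk L * FreeGroup.of x ^ n = FreeGroup.of x ^ n * FreeGroup.mk L := by
        rw [hwe, hs] at h
        have hc : FreeGroup.of x ^ n * (FreeGroup.of x ^ s * FreeGroup.mk L)
            = FreeGroup.of x ^ s * (FreeGroup.of x ^ n * FreeGroup.mk L) := by
          rw [← mul_assoc, ← mul_assoc, ← zpow_natCast, ← zpow_add, ← zpow_add, add_comm]
        rw [hc, mul_assoc] at h
        exact mul_left_cancel h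
      obtain ⟨m, hm⟩ := ih (FreeGroup.mk L) hlen hcom
      exact ⟨s + m, by rw [hwe, hs, hm, zpow_add]⟩

/-- ROW fce. Take `n` such that the reduced word of `v = of x ^ (-n) * w` does not begin with a letter `x` or `x⁻¹`; `v` commutes
with `of x ^ k`. If `v ≠ 1` then the reduced word of `of x ^ k * v` begins with `x` (or `x⁻¹`), and that of `v * of x ^ k` with
the first letter of `v`. -/
theorem free_cent {α : Type} (w : FreeGroup α) (x : α) (k : ℤ) (hk : k ≠ 0)
    (h : w * FreeGroup.of x ^ k = FreeGroup.of x ^ k * w) : ∃ n : ℤ, w = FreeGroup.of x ^ n := by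
  classical
  rcases Int.eq_nat_or_neg k with ⟨n, hn | hn⟩
  · subst hn
    rw [zpow_natCast] at h
    exact fce_nat x n (by omega) _ w le_rfl h
  · subst hn
    have h' : w * FreeGroup.of x ^ n = FreeGroup.of x ^ n * w := by
      have h1 := congrArg (fun z => FreeGroup.of x ^ n * z * FreeGroup.of x ^ n) h
      simp only [zpow_neg, zpow_natCast] at h1
      group at h1 ⊢
      exact h1.symm
    exact fce_nat x n (by omega) _ w le_rfl h'
-- END fce

section

variable {N : CoxeterMatrix Bool} [NeZero (lab N)]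

-- BEGIN cjw
omit [NeZero (lab N)] in
private theorem cjw_ag (g : Bool) (p : Ch (lab N)) :
    posf (ag N g) p = if p.1 = g then up p else dn p := by
  unfold posf
  rw [act_ag, stp_apply]
  split <;> rfl

omit [NeZero (lab N)] in
private theorem cjw_low (g : Bool) (q : Ch (lab N)) :
    ∃ (r : Ch (lab N)) (e : ℤ), r.1 = g ∧ wl r = jw g q ∧ posf (ag N g ^ e) q = r := by
  by_cases hq : q.1 = g
  · refine ⟨q, 0, hq, ?_, ?_⟩
    · unfold jw
      rw [if_pos hq]
    · rw [zpow_zero, posf_one]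
  · refine ⟨dn q, 1, ?_, ?_, ?_⟩
    · rw [dn_fst]
      revert hq
      cases q.1 <;> cases g <;> simp
    · unfold jw
      rw [if_neg hq]
    · rw [zpow_one, cjw_ag, if_neg hq]

private theorem cjw_two {m : ℕ} (p : Ch m) : up (up p) = (p.1, p.2 + 1) := by
  rcases p with ⟨b, i⟩; cases b <;> simp [up]

private theorem cjw_iter {m : ℕ} (n : ℕ) (p : Ch m) : up^[2 * n] p = (p.1, p.2 + (n : ZMod m)) := by
  induction n generalizing p with
  | zero => simp
  | succ n ih =>
    rw [show 2 * (n + 1) = 2 * n + 1 + 1 by ring, Function.iterate_succ_apply,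
      Function.iterate_succ_apply, ih, cjw_two]
    push_cast
    ext
    · rfl
    · change p.2 + 1 + (n : ZMod m) = p.2 + ((n : ZMod m) + 1)
      ring

omit [NeZero (lab N)] in
private theorem cjw_dl (p : Ch (lab N)) : posf (dl N) p = up^[lab N] p := by
  unfold posf dl
  rw [altM_hom, act_ag, act_ag]
  by_cases hp : p.1 = (if Even (lab N) then !false else false)
  · have h1 := alt_up (fun _ : ZMod (lab N) => ()) (fun _ => ()) (lab N) false () p hp
    rw [show (!false) = true from rfl] at h1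
    rw [h1]
  · have hp' : p.1 = (if Even (lab N) then false else !false) := by
      revert hp
      by_cases he : Even (lab N)
      · rw [if_pos he, if_pos he]
        cases p.1 <;> simp
      · rw [if_neg he, if_neg he]
        cases p.1 <;> simp
    have h1 := alt_dn (fun _ : ZMod (lab N) => ()) (fun _ => ()) (lab N) false () p hp'
    rw [show (!false) = true from rfl] at h1
    rw [h1, (up_two_m p).2.2]

private theorem cjw_comm (he : Even (lab N)) (g : Bool) : dl N * ag N g = ag N g * dl N := by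
  have hb : (lab N).bodd = false := by
    obtain ⟨c, hc⟩ := he
    rw [hc, Nat.bodd_add, Bool.xor_self]
  have h0 : lab N ≠ 0 := NeZero.ne (lab N)
  cases g
  · have h1 := dl_comm N h0 0
    rw [Nat.bodd_add, hb, Bool.xor_false] at h1
    exact h1.symm
  · have h1 := dl_comm N h0 1
    rw [Nat.bodd_add, hb, Bool.xor_false] at h1
    exact h1.symm

private theorem cjw_opp (g : Bool) (r r' : Ch (lab N)) (h1 : r.1 = g) (h2 : r'.1 = g)
    (h3 : wl r = wl r') :
    ∃ l : ℤ, posf (dl N ^ l) r = r' ∧ dl N ^ l * ag N g = ag N g * dl N ^ l := by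
  obtain ⟨b, i⟩ := r
  obtain ⟨b', i'⟩ := r'
  have h1' : b = g := h1
  have h2' : b' = g := h2
  rw [h1', h2'] at h3 ⊢
  have h4 : 2 * (i' - i) = 0 := by
    unfold wl at h3
    cases g
    · have h5 : 2 * i = 2 * i' := h3
      linear_combination -h5
    · have h5 : 2 * i + 1 = 2 * i' + 1 := h3
      linear_combination -h5
  have h5 : ((2 * (i' - i).val : ℕ) : ZMod (lab N)) = 0 := by
    push_cast
    rw [ZMod.natCast_zmod_val, h4]
  rw [ZMod.natCast_eq_zero_iff] at h5
  obtain ⟨c, hc⟩ := h5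
  have h6 : (i' - i).val < lab N := ZMod.val_lt _
  have h7 : c < 2 := by
    by_contra hcon
    have h8 : lab N * 2 ≤ lab N * c := Nat.mul_le_mul_left _ (not_lt.1 hcon)
    omega
  rcases Nat.lt_or_ge c 1 with h8 | h8
  · have h9 : c = 0 := by omega
    rw [h9, mul_zero] at hc
    have h10 : (i' - i).val = 0 := by omega
    have h11 : i' = i := sub_eq_zero.1 ((ZMod.val_eq_zero _).1 h10)
    refine ⟨0, ?_, by rw [zpow_zero, one_mul, mul_one]⟩
    rw [zpow_zero, posf_one, h11]
  · have h9 : c = 1 := by omega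
    rw [h9, mul_one] at hc
    refine ⟨1, ?_, ?_⟩
    · rw [zpow_one, cjw_dl]
      have h10 := cjw_iter (i' - i).val ((g, i) : Ch (lab N))
      rw [hc] at h10
      rw [h10, ZMod.natCast_zmod_val, add_sub_cancel]
    · rw [zpow_one]
      exact cjw_comm ⟨(i' - i).val, by omega⟩ g

/-- ROW cjw. Chambers `q`, `q'` at which `g` crosses the same wall modulo `lab N`: with `r`, `r'` the lower ones (type `g`) of
`{q, g q}` and `{q', g q'}` one has `wl r = wl r'`, so `2 * (r.2 - r'.2) = 0` in `ZMod (lab N)`: `r = r'`, or `lab N` is even and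
`r' = up^[lab N] r = posf (dl N) r` (`alt_up` / `alt_dn` for `Γ = Unit`), and then `dl N` commutes with `ag N g` (`dl_comm`). So
`q' = posf (ag g ^ ε * dl ^ δ) q` with `ε, δ ∈ {0, 1}`. -/
theorem same_wall (g : Bool) (q q' : Ch (lab N)) (h : jw g q = jw g q') :
    ∃ (i l : ℤ), posf (ag N g ^ i * dl N ^ l) q = q' ∧ dl N ^ l * ag N g = ag N g * dl N ^ l := by
  obtain ⟨r, e, h1, h2, h3⟩ := cjw_low (N := N) g q
  obtain ⟨r', e', h1', h2', h3'⟩ := cjw_low (N := N) g q'
  obtain ⟨l, h4, h5⟩ := cjw_opp g r r' h1 h1' (by rw [h2, h2', h])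
  refine ⟨-e' + e, l, ?_, h5⟩
  have h6 : ag N g ^ (-e' + e) * dl N ^ l = ag N g ^ (-e') * (dl N ^ l * ag N g ^ e) := by
    have h7 : dl N ^ l * ag N g ^ e = ag N g ^ e * dl N ^ l :=
      (show Commute (dl N ^ l) (ag N g) from h5).zpow_right e
    rw [h7, zpow_add, mul_assoc]
  rw [h6, posf_mul, posf_mul, h3, h4, ← h3', ← posf_mul, zpow_neg, inv_mul_cancel, posf_one]
-- END cjw

-- BEGIN cwj
/-- ROW cwj. `KK (ind a)` of both sides at `(false, 0)` (`KK_mul`, `KK_sq`): `(ind a (jw g (false, 0)) ^ 2) ^ k =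
(ind a (jw g (posf z (false, 0))) ^ 2) ^ k` for all `a`, in the commutative group `Multiplicative ℤ`; `k ≠ 0`. -/
theorem cent_wall (g : Bool) (k : ℤ) (hk : k ≠ 0) (z : Art N)
    (hz : z * ag N g ^ (2 * k) = ag N g ^ (2 * k) * z) :
    jw g ((false, 0) : Ch (lab N)) = jw g (posf z (false, 0)) := by
  by_contra hne
  set p : Ch (lab N) := (false, 0) with hp
  set a := jw g p with ha
  have hc : ∀ j, ind (lab N) a j * ind (lab N) a j = ind (lab N) a j * ind (lab N) a j := fun _ => rfl
  have h1 := KK_mul (ind (lab N) a) (ind (lab N) a) (ind_rel a) z (ag N g ^ (2 * k)) p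
  have h2 := KK_mul (ind (lab N) a) (ind (lab N) a) (ind_rel a) (ag N g ^ (2 * k)) z p
  rw [hz, h2, (KK_sq _ _ (ind_rel a) hc g p k).1, (KK_sq _ _ (ind_rel a) hc g p k).2,
    (KK_sq _ _ (ind_rel a) hc g (posf z p) k).2, mul_comm] at h1
  have h3 := mul_left_cancel h1
  have h4 : ind (lab N) a (jw g (posf z p)) = 1 := by
    unfold ind
    rw [if_neg]
    exact fun h => hne h.symm
  have h5 : ind (lab N) a (jw g p) = Multiplicative.ofAdd 1 := by
    unfold ind
    rw [if_pos rfl]
  rw [h4, h5] at h3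
  have h6 : (Multiplicative.ofAdd (1 : ℤ) * Multiplicative.ofAdd 1) ^ k = Multiplicative.ofAdd (k * 2) := by
    rw [← ofAdd_add, ← ofAdd_zsmul]; simp
  rw [h6] at h3
  simp at h3
  have h7 : (k * 2 : ℤ) = 0 := by
    have := congrArg Multiplicative.toAdd h3.symm
    simpa using this
  omega
-- END cwj

-- BEGIN cpu
omit [NeZero (lab N)] in
private theorem cpu_comm (h0 : lab N ≠ 0) (l : ℤ) (a : Art N) : Commute (z2 N ^ l) a :=
  Commute.zpow_left (show Commute (z2 N) a from z2_comm N h0 a) l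

/-- ROW cpu. With `j = jw g (false, 0)`, `a = -j`: `bet a j = of 0`. `KK (bet a)` of both sides at `(false, 0)` (`posf z` fixes it,
`KK_sq`): `K = KK (bet a) z (false, 0)` commutes with `of 0 ^ k`, so `K = of 0 ^ n` (`free_cent`). `sect` at `(false, 0)` (`num = 0`,
`ell 0 = 1`) for `z` and for `ag g ^ 2`: `z = hat (of 0) ^ n * z2 ^ l`, `ag g ^ 2 = hat (of 0) * z2 ^ l'`. -/
theorem cent_pure (h2 : 2 ≤ lab N) (g : Bool) (k : ℤ) (hk : k ≠ 0) (z : Art N)
    (hp : posf z ((false, 0) : Ch (lab N)) = (false, 0))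
    (hz : z * ag N g ^ (2 * k) = ag N g ^ (2 * k) * z) :
    ∃ i l : ℤ, z = ag N g ^ (2 * i) * z2 N ^ l := by
  have h0 : lab N ≠ 0 := by omega
  set j : ZMod (lab N) := jw g (false, 0) with hj
  have hbet : bet (lab N) (-j) j = FreeGroup.of 0 := by
    have hv : (j + -j).val = 0 := by rw [add_neg_cancel, ZMod.val_zero]
    unfold bet
    rw [hv, if_pos (by omega), Nat.cast_zero]
  have hsq : ∀ k : ℤ, posf (ag N g ^ (2 * k)) ((false, 0) : Ch (lab N)) = (false, 0) ∧
      KK (bet (lab N) (-j)) (fun _ => 1) (bet_rel (lab N) (-j)) (ag N g ^ (2 * k)) (false, 0) =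
        FreeGroup.of 0 ^ k := by
    intro k
    have h3 := KK_sq (bet (lab N) (-j)) (fun _ => 1) (bet_rel (lab N) (-j))
      (fun i => by rw [mul_one, one_mul]) g ((false, 0) : Ch (lab N)) k
    rw [mul_one, ← hj, hbet] at h3
    exact h3
  have hcom : KK (bet (lab N) (-j)) (fun _ => 1) (bet_rel (lab N) (-j)) z (false, 0) *
      FreeGroup.of 0 ^ k = FreeGroup.of 0 ^ k *
        KK (bet (lab N) (-j)) (fun _ => 1) (bet_rel (lab N) (-j)) z (false, 0) := by
    have h3 := congrArg (fun y => KK (bet (lab N) (-j)) (fun _ => 1) (bet_rel (lab N) (-j)) y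
      ((false, 0) : Ch (lab N))) hz
    have h4 : KK (bet (lab N) (-j)) (fun _ => 1) (bet_rel (lab N) (-j)) (z * ag N g ^ (2 * k))
        ((false, 0) : Ch (lab N)) =
      KK (bet (lab N) (-j)) (fun _ => 1) (bet_rel (lab N) (-j)) (ag N g ^ (2 * k) * z)
        ((false, 0) : Ch (lab N)) := h3
    rw [KK_mul, KK_mul, (hsq k).1, hp, (hsq k).2] at h4
    exact h4
  obtain ⟨n, hn⟩ := free_cent _ _ k hk hcom
  have hnum : num ((false, 0) : Ch (lab N)) = 0 := by
    unfold num
    simp
  have hell : ell N 0 = 1 := rfl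
  obtain ⟨l, hl⟩ := sect N h2 (-j) z (false, 0)
  obtain ⟨l', hl'⟩ := sect N h2 (-j) (ag N g ^ (2 * (1 : ℤ))) (false, 0)
  rw [hp, hnum, hell, mul_one, one_mul, hn, map_zpow] at hl
  rw [(hsq 1).1, (hsq 1).2, hnum, hell, mul_one, one_mul, zpow_one] at hl'
  have h5 : hat N (-j) (FreeGroup.of 0) = ag N g ^ (2 * (1 : ℤ)) * z2 N ^ (-l') := by
    rw [hl', zpow_neg, mul_inv_cancel_right]
  refine ⟨n, -l' * n + l, ?_⟩
  rw [hl, h5, ((cpu_comm h0 (-l') (ag N g ^ (2 * (1 : ℤ)))).symm).mul_zpow, ← zpow_mul, ← zpow_mul,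
    mul_one, zpow_add, mul_assoc]
-- END cpu

/-- The centraliser of a power of a generator. -/
theorem cent (h2 : 2 ≤ lab N) (g : Bool) (k : ℤ) (hk : k ≠ 0) (z : Art N)
    (hz : z * ag N g ^ (2 * k) = ag N g ^ (2 * k) * z) :
    ∃ i l : ℤ, z = ag N g ^ i * dl N ^ l ∧ dl N ^ l * ag N g = ag N g * dl N ^ l := by
  obtain ⟨i, l, h1, h3⟩ := same_wall g _ _ (cent_wall g k hk z hz)
  have hcg : ∀ e : ℤ, (ag N g ^ i * dl N ^ l) * ag N g ^ e = ag N g ^ e * (ag N g ^ i * dl N ^ l) := by
    intro e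
    have h4 : Commute (dl N ^ l) (ag N g) := h3
    have h5 : Commute (ag N g ^ i * dl N ^ l) (ag N g ^ e) :=
      ((Commute.refl (ag N g)).zpow_zpow i e).mul_left (h4.zpow_right e)
    exact h5
  set y := ag N g ^ i * dl N ^ l with hy
  have hp : posf (y⁻¹ * z) ((false, 0) : Ch (lab N)) = (false, 0) := by
    rw [posf_mul, ← h1, ← posf_mul, inv_mul_cancel, posf_one]
  obtain ⟨i', l', h4⟩ := cent_pure h2 g k hk (y⁻¹ * z) hp (by
    have h5 := hcg (2 * k)
    have h6 : y⁻¹ * ag N g ^ (2 * k) = ag N g ^ (2 * k) * y⁻¹ := by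
      rw [inv_mul_eq_iff_eq_mul, ← mul_assoc, h5, mul_assoc, mul_inv_cancel, mul_one]
    rw [mul_assoc, hz, ← mul_assoc, h6, mul_assoc])
  have hz2 : ∀ e : ℤ, z2 N ^ e = dl N ^ (2 * e) := by
    intro e
    rw [zpow_mul, z2]
    norm_cast
    rw [pow_two]
  have h0 : lab N ≠ 0 := by omega
  refine ⟨i + 2 * i', l + 2 * l', ?_, ?_⟩
  · have h5 : z = y * (y⁻¹ * z) := by group
    rw [h5, h4, hy, hz2, zpow_add, zpow_add]
    have h7 : dl N ^ l * ag N g ^ (2 * i') = ag N g ^ (2 * i') * dl N ^ l :=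
      (show Commute (dl N ^ l) (ag N g) from h3).zpow_right _
    calc ag N g ^ i * dl N ^ l * (ag N g ^ (2 * i') * dl N ^ (2 * l'))
        = ag N g ^ i * (dl N ^ l * ag N g ^ (2 * i')) * dl N ^ (2 * l') := by group
      _ = ag N g ^ i * (ag N g ^ (2 * i') * dl N ^ l) * dl N ^ (2 * l') := by rw [h7]
      _ = ag N g ^ i * ag N g ^ (2 * i') * (dl N ^ l * dl N ^ (2 * l')) := by group
  · have h7 : Commute (z2 N) (ag N g) := z2_comm N h0 (ag N g)
    have h8 : Commute (dl N ^ (2 * l')) (ag N g) := by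
      rw [← hz2]; exact h7.zpow_left l'
    rw [zpow_add]
    exact (show Commute (dl N ^ l) (ag N g) from h3).mul_left h8

-- BEGIN dlz
private theorem dlz_z2 (a : ZMod (lab N)) (l : ℤ) (p : Ch (lab N)) :
    KK (ind (lab N) a) (ind (lab N) a) (ind_rel a) (z2 N ^ l) p = Multiplicative.ofAdd 2 ^ l := by
  have hz : ∀ q, KK (ind (lab N) a) (ind (lab N) a) (ind_rel a) (z2 N) q =
      Multiplicative.ofAdd 2 := fun q => KK_z2 N ind_rel a q
  induction l using Int.induction_on generalizing p with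
  | zero => rw [zpow_zero, zpow_zero, KK_one]
  | succ n ih => rw [zpow_add_one, zpow_add_one, KK_mul, ih, hz]
  | pred n ih => rw [zpow_sub_one, zpow_sub_one, KK_mul, ih, KK_inv, hz]

/-- ROW dlz. Square: `z2 ^ l = ag g ^ (2 * i)`; `KK (ind a)` at `(false, 0)` is `(ofAdd 2) ^ l` for every `a` (`KK_z2`, `posf (z2)` is
the identity; compare the row `mlt`, `th N (z2 N) = 1`), and `1` on the right for `a ≠ jw g (false, 0)` (`KK_sq`; `3 ≤ lab N`). -/
theorem dl_pow_eq (h3 : 3 ≤ lab N) (g : Bool) (i l : ℤ) (h : dl N ^ l = ag N g ^ i) : l = 0 := by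
  have hsq : z2 N ^ l = ag N g ^ (2 * i) := by
    have h1 : z2 N ^ l = dl N ^ l * dl N ^ l := by
      unfold z2
      exact (Commute.refl (dl N)).mul_zpow l
    rw [h1, h, ← zpow_add, two_mul]
  obtain ⟨a, ha⟩ : ∃ a : ZMod (lab N), jw g ((false, 0) : Ch (lab N)) ≠ a := by
    have : Fact (1 < lab N) := ⟨by omega⟩
    exact ⟨jw g ((false, 0) : Ch (lab N)) + 1, fun h4 => one_ne_zero (left_eq_add.1 h4)⟩
  have h5 := dlz_z2 (N := N) a l (false, 0)
  rw [hsq, (KK_sq (ind (lab N) a) (ind (lab N) a) (ind_rel a) (fun j => rfl) g _ i).2] at h5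
  have h6 : ind (lab N) a (jw g ((false, 0) : Ch (lab N))) = 1 := if_neg ha
  rw [h6, one_mul, one_zpow, ← ofAdd_zsmul] at h5
  have h7 := congrArg Multiplicative.toAdd h5
  simp only [toAdd_one, toAdd_ofAdd, smul_eq_mul] at h7
  omega
-- END dlz

/-- Roots of bad elements are bad. -/
theorem root_bad (h3 : 3 ≤ lab N) (z : Art N) (n : ℕ) (hn : 0 < n) (hθ : th N (z ^ n) = 1)
    (hb : Bad (z ^ n)) : Bad z := by
  obtain ⟨c, g, j, hc⟩ := hb
  have hθ' := hθ
  rw [hc] at hθ'
  obtain ⟨-, k, hk, -, -⟩ := bad_form c g j hθ'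
  subst hk
  set y := c⁻¹ * z * c with hy
  have hyn : y ^ n = ag N g ^ (2 * k) := by
    have h1 : ∀ n : ℕ, y ^ n = c⁻¹ * z ^ n * c := by
      intro n
      induction n with
      | zero => simp
      | succ n ih => rw [pow_succ, pow_succ, ih, hy]; group
    rw [h1, hc]; group
  have hz : z = c * y * c⁻¹ := by rw [hy]; group
  by_cases hk0 : k = 0
  · have h1 : y = 1 := by
      apply dih_tf h3 y n hn
      rw [hyn, hk0]; simp
    refine ⟨c, g, 0, ?_⟩
    rw [hz, h1]; simp
  · obtain ⟨i, l, h1, h2⟩ := cent (by omega) g k hk0 y (by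
      rw [← hyn, ← pow_succ, ← pow_succ'])
    have h4 : Commute (dl N ^ l) (ag N g) := h2
    have h5 : y ^ n = ag N g ^ (i * n) * dl N ^ (l * n) := by
      rw [h1, ((h4.symm.zpow_left i)).mul_pow, zpow_mul, zpow_mul]
      norm_cast
    have h6 : dl N ^ (l * n) = ag N g ^ (2 * k - i * n) := by
      rw [hyn] at h5
      rw [zpow_sub, h5]
      have h7 : Commute (ag N g ^ (i * (n : ℤ))) (dl N ^ (l * (n : ℤ))) := by
        rw [zpow_mul (dl N)]
        exact (h4.symm.zpow_left _).zpow_right _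
      rw [h7.eq]; group
    have h7 := dl_pow_eq h3 g _ _ h6
    have h8 : l = 0 := by
      rcases mul_eq_zero.1 h7 with h | h
      · exact h
      · omega
    refine ⟨c, g, i, ?_⟩
    rw [hz, h1, h8]; simp

end

end Pool.Agent.LRed
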