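import Pool.Agent.LRed.Pos

/-!
Generic elements of the pure dihedral Artin group.
-/

set_option autoImplicit false

namespace Pool.Agent.LRed

open Pool.Agent.ArtSph Pool.Agent.FBuild Pool.Agent.EvA Polynomial

/-- Conjugates of powers of generators. -/
def Bad {C : Type} {N : CoxeterMatrix C} (z : Art N) : Prop :=
  ∃ (c : Art N) (g : C) (n : ℤ), z = c * ag N g ^ n * c⁻¹

section

variable {N : CoxeterMatrix Bool} [NeZero (lab N)]

theorem ind_rel (a j : ZMod (lab N)) :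
    pr (ind (lab N) a) j (lab N) = prd (ind (lab N) a) j (lab N) := by
  rw [(pr_ind (lab N) a j).1, (pr_ind (lab N) a j).2]

/-- The winding number of the wall `a`. -/
def EE (a : ZMod (lab N)) (z : Art N) : Multiplicative ℤ :=
  KK (ind (lab N) a) (ind (lab N) a) (ind_rel a) z (false, 0)

/-- The free cocycle at the base chamber. -/
noncomputable def fr (a : ZMod (lab N)) (z : Art N) : FreeGroup (ZMod (lab N - 1)) :=
  KK (bet (lab N) a) (fun _ => 1) (bet_rel (lab N) a) z (false, 0)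

-- BEGIN mlt
private theorem mlt_mul {Γ : Type} [Group Γ] (β δ : ZMod (lab N) → Γ)
    (h : ∀ j, pr β j (lab N) = prd δ j (lab N)) {z z' : Art N} (hz' : th N z' = 1)
    (p : Ch (lab N)) : KK β δ h (z * z') p = KK β δ h z p * KK β δ h z' p := by
  rw [KK_mul, posf_pure z' hz' p]

private theorem mlt_inv {Γ : Type} [Group Γ] (β δ : ZMod (lab N) → Γ)
    (h : ∀ j, pr β j (lab N) = prd δ j (lab N)) {z : Art N} (hz : th N z = 1)
    (p : Ch (lab N)) : KK β δ h z⁻¹ p = (KK β δ h z p)⁻¹ := by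
  have h1 : th N z⁻¹ = 1 := by rw [map_inv, hz, inv_one]
  rw [KK_inv, posf_pure z⁻¹ h1 p]

private theorem mlt_pow {Γ : Type} [Group Γ] (β δ : ZMod (lab N) → Γ)
    (h : ∀ j, pr β j (lab N) = prd δ j (lab N)) {z : Art N} (hz : th N z = 1)
    (p : Ch (lab N)) (n : ℕ) : KK β δ h (z ^ n) p = KK β δ h z p ^ n := by
  induction n with
  | zero => rw [pow_zero, pow_zero, KK_one]
  | succ n ih => rw [pow_succ, pow_succ, mlt_mul β δ h hz p, ih]

private theorem mlt_zpow {Γ : Type} [Group Γ] (β δ : ZMod (lab N) → Γ)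
    (h : ∀ j, pr β j (lab N) = prd δ j (lab N)) {z : Art N} (hz : th N z = 1)
    (p : Ch (lab N)) (l : ℤ) : KK β δ h (z ^ l) p = KK β δ h z p ^ l := by
  cases l with
  | ofNat n =>
    rw [Int.ofNat_eq_natCast, zpow_natCast, zpow_natCast]
    exact mlt_pow β δ h hz p n
  | negSucc n =>
    have h1 : th N (z ^ (n + 1)) = 1 := by rw [map_pow, hz, one_pow]
    rw [zpow_negSucc, zpow_negSucc, mlt_inv β δ h h1 p, mlt_pow β δ h hz p]

/-- ROW mlt. `KK_mul` and `posf_pure`; the powers by induction. -/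
theorem fr_mul (a : ZMod (lab N)) {z z' : Art N} (hz : th N z = 1) (hz' : th N z' = 1) :
    EE a (z * z') = EE a z * EE a z' ∧ fr a (z * z') = fr a z * fr a z' ∧
      (∀ n : ℕ, EE a (z ^ n) = EE a z ^ n ∧ fr a (z ^ n) = fr a z ^ n) ∧
      (∀ l : ℤ, EE a (z ^ l) = EE a z ^ l ∧ fr a (z ^ l) = fr a z ^ l) := by
  refine ⟨mlt_mul _ _ _ hz' _, mlt_mul _ _ _ hz' _, fun n => ⟨?_, ?_⟩, fun l => ⟨?_, ?_⟩⟩
  · exact mlt_pow _ _ _ hz _ n
  · exact mlt_pow _ _ _ hz _ n
  · exact mlt_zpow _ _ _ hz _ l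
  · exact mlt_zpow _ _ _ hz _ l
-- END mlt

-- BEGIN frm
private theorem frm_fix (c x : Art N) (hz : th N (c * x * c⁻¹) = 1) (p : Ch (lab N)) :
    posf x (posf c⁻¹ p) = posf c⁻¹ p := by
  have h1 := posf_pure _ hz p
  rw [posf_mul, posf_mul] at h1
  have h2 : posf c⁻¹ (posf c (posf x (posf c⁻¹ p))) = posf x (posf c⁻¹ p) := by
    rw [← posf_mul, inv_mul_cancel, posf_one]
  rw [h1] at h2
  exact h2.symm

private theorem frm_conj {Γ : Type} [Group Γ] (β δ : ZMod (lab N) → Γ)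
    (h : ∀ j, pr β j (lab N) = prd δ j (lab N)) (c x : Art N) (p : Ch (lab N))
    (hx : posf x (posf c⁻¹ p) = posf c⁻¹ p) :
    KK β δ h (c * x * c⁻¹) p =
      KK β δ h c (posf c⁻¹ p) * KK β δ h x (posf c⁻¹ p) * (KK β δ h c (posf c⁻¹ p))⁻¹ := by
  rw [KK_mul, KK_mul, hx, KK_inv]

/-- ROW frm. With `q = posf c⁻¹ (false, 0)`: `posf (ag g ^ n) q = q` (`posf_pure`, `posf_mul`), `even_of_fix`, `KK_sq`
(the conditions of commutation hold: the group is commutative, resp. `δ = 1`), `KK_mul`, `KK_inv`; `j = jw g q`. -/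
theorem bad_form (c : Art N) (g : Bool) (n : ℤ) (hz : th N (c * ag N g ^ n * c⁻¹) = 1) :
    ∃ (j : ZMod (lab N)) (k : ℤ), n = 2 * k ∧
      (∀ a, EE a (c * ag N g ^ n * c⁻¹) = (ind (lab N) a j * ind (lab N) a j) ^ k) ∧
      ∀ a, ∃ w, fr a (c * ag N g ^ n * c⁻¹) = w * bet (lab N) a j ^ k * w⁻¹ := by
  have hfix := frm_fix c (ag N g ^ n) hz (false, 0)
  obtain ⟨k, rfl⟩ := even_of_fix g n (posf c⁻¹ (false, 0)) hfix
  refine ⟨jw g (posf c⁻¹ (false, 0)), k, rfl, fun a => ?_, fun a => ?_⟩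
  · unfold EE
    rw [frm_conj _ _ _ c _ _ hfix,
      (KK_sq (ind (lab N) a) (ind (lab N) a) (ind_rel a) (fun j => rfl) g _ k).2,
      mul_comm (KK (ind (lab N) a) (ind (lab N) a) (ind_rel a) c (posf c⁻¹ (false, 0))),
      mul_inv_cancel_right]
  · refine ⟨KK (bet (lab N) a) (fun _ => 1) (bet_rel (lab N) a) c (posf c⁻¹ (false, 0)), ?_⟩
    unfold fr
    rw [frm_conj _ _ _ c _ _ hfix,
      (KK_sq (bet (lab N) a) (fun _ => 1) (bet_rel (lab N) a)
        (fun j => by rw [mul_one, one_mul]) g _ k).2, mul_one]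
-- END frm

-- BEGIN tww
/-- ROW tww. `bad_form`: `ind a j = 1` unless `j = a`. -/
theorem two_walls {z : Art N} (hz : th N z = 1) {j j' : ZMod (lab N)} (hjj : j ≠ j')
    (h1 : EE j z ≠ 1) (h2 : EE j' z ≠ 1) : ¬ Bad z := by
  rintro ⟨c, g, n, rfl⟩
  obtain ⟨a, k, -, hE, -⟩ := bad_form c g n hz
  by_cases ha : a = j
  · apply h2
    rw [hE j', ind, if_neg (fun h => hjj (ha.symm.trans h)), one_mul, one_zpow]
  · apply h1
    rw [hE j, ind, if_neg ha, one_mul, one_zpow]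
-- END tww

-- BEGIN bdt
/-- ROW bdt. `bad_form` with the wall `j`; if `j ≠ j₀` then `EE j z = 1` gives `k = 0`, so `fr = 1`; if `j = j₀` then
`bet (-j₀) j₀ = of 0` (`(j₀ + -j₀).val = 0 < lab N - 1`); `tau_conj` both times. -/
theorem bad_tau (h3 : 3 ≤ lab N) {z : Art N} (hz : th N z = 1) (j₀ : ZMod (lab N))
    (h0 : ∀ j, j ≠ j₀ → EE j z = 1) (hb : Bad z) : tau (lab N - 1) (fr (-j₀) z) = 2 := by
  obtain ⟨c, g, n, rfl⟩ := hb
  obtain ⟨j, k, hn, hE, hF⟩ := bad_form c g n hz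
  obtain ⟨w, hw⟩ := hF (-j₀)
  by_cases hj : j = j₀
  · have hbet : bet (lab N) (-j₀) j = FreeGroup.of 0 := by
      have hv : (j + -j₀).val = 0 := by rw [hj, add_neg_cancel, ZMod.val_zero]
      unfold bet
      rw [hv, if_pos (by omega), Nat.cast_zero]
    rw [hw, hbet]
    exact tau_conj _ _ _ _
  · have h1 := hE j
    rw [h0 j hj] at h1
    have h2 : ind (lab N) j j = Multiplicative.ofAdd 1 := if_pos rfl
    rw [h2, ← ofAdd_add, ← ofAdd_zsmul] at h1
    have h4 : k = 0 := by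
      have h5 := congrArg Multiplicative.toAdd h1
      simp only [toAdd_one, toAdd_ofAdd, smul_eq_mul] at h5
      omega
    rw [hw, h4, zpow_zero]
    have h6 := tau_conj (lab N - 1) w 0 0
    rw [zpow_zero] at h6
    exact h6
-- END bdt

-- BEGIN tbd
private theorem tbd_z2 (a : ZMod (lab N)) (l : ℤ) (p : Ch (lab N)) :
    KK (ind (lab N) a) (ind (lab N) a) (ind_rel a) (z2 N ^ l) p = Multiplicative.ofAdd 2 ^ l := by
  have hz : ∀ q, KK (ind (lab N) a) (ind (lab N) a) (ind_rel a) (z2 N) q =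
      Multiplicative.ofAdd 2 := fun q => KK_z2 N ind_rel a q
  induction l using Int.induction_on generalizing p with
  | zero => rw [zpow_zero, zpow_zero, KK_one]
  | succ n ih => rw [zpow_add_one, zpow_add_one, KK_mul, ih, hz]
  | pred n ih => rw [zpow_sub_one, zpow_sub_one, KK_mul, ih, KK_inv, hz]

/-- ROW tbd. `free_dich` (`NeZero (lab N - 1)`; the trace `2` excludes the second case): `fr (-j₀) z = w * of i ^ n * w⁻¹`;
`sect` at `(false, 0)` (`num = 0`, `ell 0 = 1`, `posf_pure`): `z = hat (fr z) * z2 ^ l`, and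
`hat (of i) = Bz _ = (ell _)⁻¹ * ag _ ^ 2 * ell _`, so `z = z' * z2 ^ l` with `z' = c * ag g ^ (2 * n) * c⁻¹`. `z'` is pure
(`th` of a square of a generator is `1`; and so `z2 ^ l` is pure), `EE a z = EE a z' * EE a (z2 ^ l)`, `KK_z2`; as
`3 ≤ lab N` there is a wall `a ≠ j₀`, `a ≠ j` (`j` the wall of `z'` by `bad_form`): `1 = 1 * (ofAdd 2) ^ l`, `l = 0`. -/
theorem tau_bad (h3 : 3 ≤ lab N) {z : Art N} (hz : th N z = 1) (j₀ : ZMod (lab N))
    (h0 : ∀ j, j ≠ j₀ → EE j z = 1) (h2 : tau (lab N - 1) (fr (-j₀) z) = 2) : Bad z := by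
  classical
  have hnz : NeZero (lab N - 1) := ⟨by omega⟩
  rcases free_dich (lab N - 1) (fr (-j₀) z) with ⟨w, i, n, hw⟩ | h
  swap
  · exfalso
    rw [h2] at h
    have h4 : (2 : ℤ[X]).natDegree = 0 := natDegree_ofNat 2
    omega
  obtain ⟨l, hl⟩ := sect N (by omega) (-j₀) z (false, 0)
  have hnum : num ((false, 0) : Ch (lab N)) = 0 := by
    unfold num
    simp
  have hfr : KK (bet (lab N) (-j₀)) (fun _ => 1) (bet_rel (lab N) (-j₀)) z (false, 0) =
      fr (-j₀) z := rfl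
  rw [posf_pure z hz, hnum, hfr, hw] at hl
  have hell : ell N 0 = 1 := rfl
  rw [hell, mul_one, one_mul] at hl
  set k : ℕ := ((((i.val : ℕ) : ZMod (lab N)) - (-j₀)).val) with hk
  have hof : hat N (-j₀) (FreeGroup.of i) = (ell N k)⁻¹ * ag N k.bodd ^ 2 * ell N k := by
    unfold hat
    rw [FreeGroup.lift_apply_of]
    rfl
  set c : Art N := hat N (-j₀) w * (ell N k)⁻¹ with hc
  have hz' : z = c * ag N k.bodd ^ (2 * n) * c⁻¹ * z2 N ^ l := by
    rw [hl, map_mul, map_mul, map_inv, map_zpow, hof]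
    have h5 : ((ell N k)⁻¹ * ag N k.bodd ^ 2 * ell N k) ^ n =
        (ell N k)⁻¹ * (ag N k.bodd ^ 2) ^ n * ell N k := by
      have h6 := conj_zpow (i := n) (a := (ell N k)⁻¹) (b := ag N k.bodd ^ 2)
      rw [inv_inv] at h6
      exact h6
    have h7 : ag N k.bodd ^ (2 * n) = (ag N k.bodd ^ 2) ^ n := by
      rw [zpow_mul]; norm_cast
    rw [h5, h7, hc]
    group
  have hag : th N (ag N k.bodd) ^ (2 : ℤ) = 1 := by
    have h5 : th N (ag N k.bodd) = N.simple k.bodd := theta_ag _ _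
    rw [h5, zpow_two]
    exact N.toCoxeterSystem.simple_mul_simple_self _
  have hpz' : th N (c * ag N k.bodd ^ (2 * n) * c⁻¹) = 1 := by
    rw [map_mul, map_mul, map_inv, map_zpow, zpow_mul, hag, one_zpow, mul_one, mul_inv_cancel]
  have hpl : th N (z2 N ^ l) = 1 := by
    have h5 := hz
    rw [hz', map_mul, hpz', one_mul] at h5
    exact h5
  obtain ⟨j, k', -, hE, -⟩ := bad_form c k.bodd (2 * n) hpz'
  obtain ⟨a, ha⟩ : ∃ a : ZMod (lab N), a ∉ ({j₀, j} : Finset (ZMod (lab N))) := by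
    by_contra hcon
    push Not at hcon
    have h5 : (Finset.univ : Finset (ZMod (lab N))).card ≤ ({j₀, j} : Finset (ZMod (lab N))).card :=
      Finset.card_le_card (fun a _ => hcon a)
    rw [Finset.card_univ, ZMod.card] at h5
    have h6 := Finset.card_le_two (a := j₀) (b := j)
    omega
  rw [Finset.mem_insert, Finset.mem_singleton, not_or] at ha
  have h8 : EE a (c * ag N k.bodd ^ (2 * n) * c⁻¹ * z2 N ^ l) = 1 := by
    rw [← hz']; exact h0 a ha.1
  rw [(fr_mul a hpz' hpl).1, hE a] at h8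
  have h9 : ind (lab N) a j = 1 := if_neg (fun h => ha.2 h.symm)
  have h10 : EE a (z2 N ^ l) = Multiplicative.ofAdd 2 ^ l := tbd_z2 a l _
  rw [h9, one_mul, one_zpow, one_mul, h10, ← ofAdd_zsmul] at h8
  have h11 : l • (2 : ℤ) = 0 := by
    have := congrArg Multiplicative.toAdd h8
    simpa using this
  have h12 : l = 0 := by
    rw [smul_eq_mul] at h11
    omega
  refine ⟨c, k.bodd, 2 * n, ?_⟩
  conv_lhs => rw [hz', h12, zpow_zero, mul_one]
-- END tbd

-- BEGIN trf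
/-- ROW trf. As the proof of `EvA.tau_fin` (`tr_fin1`, `tr_fin2`, `free_dich`, `tau_conj`). -/
theorem trace_fin (k : ℕ) [NeZero k] (u v : FreeGroup (ZMod k)) (h : tau k u ≠ 2 ∨ tau k v ≠ 2) :
    {n : ℕ | tau k (u ^ n * v) = 2}.Finite := by
  have hE : {n : ℕ | tau k (u ^ n * v) = 2} =
      {n : ℕ | Matrix.trace (sig k u ^ n * sig k v).1 = 2} := by
    ext n
    simp only [Set.mem_ofPred_eq, tau, map_mul, map_pow]
  rw [hE]
  rcases free_dich k u with ⟨w, i, m, hu⟩ | hd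
  · have h1 : tau k u = 2 := by rw [hu]; exact tau_conj k w i m
    have h2 : tau k v ≠ 2 := by
      rcases h with h | h
      · exact absurd h1 h
      · exact h
    exact tr_fin2 (sig k u) (sig k v) h1 h2
  · exact tr_fin1 (sig k u) (sig k v) hd
-- END trf

-- BEGIN znf
/-- ROW znf. -/
theorem pow_fin (a b : Multiplicative ℤ) (h : a ≠ 1 ∨ b ≠ 1) : {n : ℕ | a ^ n * b = 1}.Finite := by
  have key : ∀ n : ℕ, a ^ n * b = 1 → (n : ℤ) * Multiplicative.toAdd a + Multiplicative.toAdd b = 0 := by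
    intro n hn
    have h1 := congrArg Multiplicative.toAdd hn
    rw [toAdd_mul, toAdd_pow, toAdd_one, nsmul_eq_mul] at h1
    exact h1
  by_cases ha : a = 1
  · have hb : b ≠ 1 := h.resolve_left (not_not.2 ha)
    refine Set.finite_empty.subset fun n hn => ?_
    have hn' : a ^ n * b = 1 := hn
    rw [ha, one_pow, one_mul] at hn'
    exact absurd hn' hb
  · refine Set.Subsingleton.finite fun n hn m hm => ?_
    have h1 := key n hn
    have h2 := key m hm
    have h3 : Multiplicative.toAdd a ≠ 0 := fun h0 => ha (by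
      rw [← toAdd_one] at h0
      exact Multiplicative.toAdd.injective h0)
    have h4 : (n : ℤ) * Multiplicative.toAdd a = (m : ℤ) * Multiplicative.toAdd a := by linarith
    exact_mod_cast mul_right_cancel₀ h3 h4
-- END znf

/-- The lemma (D). -/
theorem dih_fin (h3 : 3 ≤ lab N) {x y : Art N} (hx : th N x = 1) (hy : th N y = 1)
    (h : ¬ Bad x ∨ ¬ Bad y) : {n : ℕ | Bad (x ^ n * y)}.Finite := by
  have hxy : ∀ n : ℕ, th N (x ^ n * y) = 1 := fun n => by rw [map_mul, map_pow, hx, hy]; simp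
  have hxn : ∀ n : ℕ, th N (x ^ n) = 1 := fun n => by rw [map_pow, hx]; simp
  have hE : ∀ (a : ZMod (lab N)) (n : ℕ), EE a (x ^ n * y) = EE a x ^ n * EE a y := fun a n => by
    rw [(fr_mul a (hxn n) hy).1, ((fr_mul a hx hx).2.2.1 n).1]
  have hF : ∀ (a : ZMod (lab N)) (n : ℕ), fr a (x ^ n * y) = fr a x ^ n * fr a y := fun a n => by
    rw [(fr_mul a (hxn n) hy).2.1, ((fr_mul a hx hx).2.2.1 n).2]
  by_cases htw : ∃ j j' : ZMod (lab N), j ≠ j' ∧ (EE j x ≠ 1 ∨ EE j y ≠ 1) ∧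
      (EE j' x ≠ 1 ∨ EE j' y ≠ 1)
  · obtain ⟨j, j', hjj, h1, h2⟩ := htw
    apply ((pow_fin _ _ h1).union (pow_fin _ _ h2)).subset
    intro n hn
    by_contra hcon
    rw [Set.mem_union, not_or] at hcon
    apply two_walls (hxy n) hjj _ _ hn
    · rw [hE]; exact hcon.1
    · rw [hE]; exact hcon.2
  · obtain ⟨j₀, hj₀⟩ : ∃ j₀ : ZMod (lab N), ∀ j, j ≠ j₀ → EE j x = 1 ∧ EE j y = 1 := by
      by_cases hex : ∃ j₀ : ZMod (lab N), EE j₀ x ≠ 1 ∨ EE j₀ y ≠ 1
      · obtain ⟨j₀, h0⟩ := hex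
        refine ⟨j₀, fun j hj => ?_⟩
        by_contra hcon
        exact htw ⟨j, j₀, hj, by tauto, h0⟩
      · push Not at hex
        exact ⟨0, fun j _ => hex j⟩
    have : NeZero (lab N - 1) := ⟨by omega⟩
    have h0x : ∀ j, j ≠ j₀ → EE j x = 1 := fun j hj => (hj₀ j hj).1
    have h0y : ∀ j, j ≠ j₀ → EE j y = 1 := fun j hj => (hj₀ j hj).2
    have h' : tau (lab N - 1) (fr (-j₀) x) ≠ 2 ∨ tau (lab N - 1) (fr (-j₀) y) ≠ 2 := by
      rcases h with h | h
      · exact Or.inl (fun h2 => h (tau_bad h3 hx j₀ h0x h2))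
      · exact Or.inr (fun h2 => h (tau_bad h3 hy j₀ h0y h2))
    apply (trace_fin (lab N - 1) _ _ h').subset
    intro n hn
    have h4 := bad_tau h3 (hxy n) j₀ (fun j hj => by
      rw [hE, h0x j hj, h0y j hj]; simp) hn
    rw [hF] at h4
    exact h4

end

end Pool.Agent.LRed
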