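import Pool.Agent.LRed.Wlv
import Pool.Agent.EvA.Main

/-!
Conditions and supports for spherical types with components of rank at most two.
-/

set_option autoImplicit false

namespace Pool.Agent.LRed

open CoxeterSystem Pool.Agent.ArtSph Pool.Agent.FBuild Pool.Agent.EvA

variable {B : Type}

/-- The map of one generator. -/
def p1 (s : B) : Unit → B := fun _ => s

/-- The map of two generators. -/
def p2 (s t : B) : Bool → B := fun c => if c then t else s

theorem p1_inj (s : B) : Function.Injective (p1 s) := fun _ _ _ => rfl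

theorem p2_inj {s t : B} (h : s ≠ t) : Function.Injective (p2 s t) := by
  intro c c' hc
  cases c <;> cases c' <;> simp [p2] at hc ⊢
  · exact h hc
  · exact h hc.symm

theorem range_p1 (s : B) : Set.range (p1 s) = {s} := by
  ext x; simp [p1, eq_comm]

theorem range_p2 (s t : B) : Set.range (p2 s t) = {s, t} := by
  ext x
  constructor
  · rintro ⟨c, rfl⟩
    cases c <;> simp [p2]
  · rintro (rfl | h)
    · exact ⟨false, by simp [p2]⟩
    · exact ⟨true, by simp [p2]; exact h.symm⟩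

variable [Fintype B] {M : CoxeterMatrix B}

open Classical in
/-- The condition of the component `{s, t}` (`{s}` for `s = t`) in the coset of `w`. -/
def Cnd (M : CoxeterMatrix B) (s t : B) (w : M.Group) (h : Art M) : Prop :=
  if hst : s = t then pc M (p1 s) (p1_inj s) w h ≠ 1
  else ¬ Bad (pc M (p2 s t) (p2_inj hst) w h)

theorem cnd_fin {s t : B} (hst : s = t ∨ 3 ≤ M s t) (w : M.Group) {x y : Art M}
    (hx : th M x = 1) (hy : th M y = 1) (h : Cnd M s t w x ∨ Cnd M s t w y) :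
    {n : ℕ | ¬ Cnd M s t w (x ^ n * y)}.Finite := by
  unfold Cnd at *
  by_cases h0 : s = t
  · simp only [dif_pos h0] at *
    apply (unit_fin _ _ h).subset
    intro n hn
    have h1 : pc M (p1 s) (p1_inj s) w (x ^ n * y) = 1 := not_not.1 hn
    rw [pc_pow_mul _ _ _ hx] at h1
    exact h1
  · simp only [dif_neg h0] at *
    have h3 : 3 ≤ lab (pullM M (p2 s t) (p2_inj h0)) := by
      rcases hst with hst | hst
      · exact absurd hst h0
      · exact hst
    have : NeZero (lab (pullM M (p2 s t) (p2_inj h0))) := ⟨by omega⟩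
    apply (dih_fin h3 (pc_pure _ _ w hx) (pc_pure _ _ w hy) h).subset
    intro n hn
    have h1 : Bad (pc M (p2 s t) (p2_inj h0) w (x ^ n * y)) := not_not.1 hn
    rw [pc_pow_mul _ _ _ hx] at h1
    exact h1

theorem cnd_supp {s t : B} {w : M.Group} {V : Set B} {a k : Art M}
    (hk : k ∈ Subgroup.closure (ag M '' V)) (hθ : th M k = 1) (h : Cnd M s t w (a * k * a⁻¹)) :
    ∀ x ∈ Subgroup.closure (M.simple '' {s, t}),
      (w * th M a)⁻¹ * x * (w * th M a) ∈ Subgroup.closure (M.simple '' V) := by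
  unfold Cnd at h
  by_cases h0 : s = t
  · simp only [dif_pos h0] at h
    subst h0
    rcases supp (p1 s) (p1_inj s) w hk hθ (a := a) with h1 | ⟨D, hD, e, b, hb, h2⟩
    · rw [range_p1] at h1
      simpa using h1
    · exfalso
      apply h
      have hD0 : D = ∅ := by
        by_contra hne
        apply hD
        obtain ⟨c, hc⟩ := Set.nonempty_iff_ne_empty.2 hne
        ext c'
        simpa using hc
      rw [hD0, Set.image_empty, Subgroup.closure_empty, Subgroup.mem_bot] at hb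
      rw [h2, hb, mul_one, mul_inv_cancel]
  · simp only [dif_neg h0] at h
    rcases supp (p2 s t) (p2_inj h0) w hk hθ (a := a) with h1 | ⟨D, hD, e, b, hb, h2⟩
    · rw [range_p2] at h1
      exact h1
    · exfalso
      apply h
      obtain ⟨c, hc⟩ : ∃ c, D ⊆ {c} := by
        obtain ⟨c, hc⟩ := (Set.ne_univ_iff_exists_notMem D).1 hD
        refine ⟨!c, fun x hx => ?_⟩
        have : x ≠ c := fun h => hc (h ▸ hx)
        rw [Set.mem_singleton_iff]
        cases x <;> cases c <;> simp_all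
      have h3 := Subgroup.closure_mono (Set.image_mono (f := ag (pullM M (p2 s t) (p2_inj h0))) hc) hb
      rw [Set.image_singleton, ← Subgroup.zpowers_eq_closure, Subgroup.mem_zpowers_iff] at h3
      obtain ⟨n, hn⟩ := h3
      exact ⟨e, c, n, by rw [h2, ← hn]⟩

/-- `{s, t}` is a component of `Y`. -/
def Cmp (M : CoxeterMatrix B) (Y : Set B) (s t : B) : Prop :=
  s ∈ Y ∧ t ∈ Y ∧ (s = t ∨ 3 ≤ M s t) ∧ ∀ y ∈ Y, y ≠ s → y ≠ t → M s y = 2 ∧ M t y = 2

/-- `X` is spherical and the components of its Coxeter graph have at most two vertices. -/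
def Sp2 (M : CoxeterMatrix B) (X : Set B) : Prop :=
  Sph M X ∧ ∀ s ∈ X, ∀ t ∈ X, ∀ u ∈ X, s ≠ t → s ≠ u → t ≠ u → M s t = 2 ∨ M s u = 2

theorem Sp2_mono {X Y : Set B} (h : Y ⊆ X) (hX : Sp2 M X) : Sp2 M Y :=
  ⟨Sph_mono h hX.1, fun s hs t ht u hu => hX.2 s (h hs) t (h ht) u (h hu)⟩

/-- Every element of `H` lies in a parabolic subgroup of such a type. -/
def ES2 (M : CoxeterMatrix B) (H : Subgroup (Art M)) : Prop :=
  ∀ h ∈ H, ∃ T : Set B, Sp2 M T ∧ ∃ g, g⁻¹ * h * g ∈ Subgroup.closure (ag M '' T)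

theorem exists_cmp {Y : Set B} (hY : Sp2 M Y) {s : B} (hs : s ∈ Y) : ∃ t, Cmp M Y s t := by
  by_cases h : ∀ y ∈ Y, y ≠ s → M s y = 2
  · exact ⟨s, hs, hs, Or.inl rfl, fun y hy h1 _ => ⟨h y hy h1, h y hy h1⟩⟩
  · push Not at h
    obtain ⟨t, ht, hts, h2⟩ := h
    have h0 := lab_fin hY.1 hs ht
    have h1 : M s t ≠ 1 := M.off_diagonal _ _ (Ne.symm hts)
    refine ⟨t, hs, ht, Or.inr (by omega), fun y hy hys hyt => ?_⟩
    constructor
    · rcases hY.2 s hs t ht y hy (Ne.symm hts) (Ne.symm hys) (Ne.symm hyt) with h3 | h3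
      · exact absurd h3 h2
      · exact h3
    · rcases hY.2 t ht s hs y hy hts (Ne.symm hyt) (Ne.symm hys) with h3 | h3
      · rw [M.symmetric] at h3
        exact absurd h3 h2
      · exact h3

theorem cnd_min {Y : Set B} (hY : Sp2 M Y) {s t : B} (hc : Cmp M Y s t) {b l : Art M}
    (hl : l ∈ Subgroup.closure (ag M '' Y)) (hθ : th M l = 1)
    (hmin : ∀ X, Sp2 M X → X.ncard < Y.ncard →
      ∀ g, g⁻¹ * (b * l * b⁻¹) * g ∉ Subgroup.closure (ag M '' X)) :
    Cnd M s t (th M b)⁻¹ (b * l * b⁻¹) := by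
  obtain ⟨hs, ht, hst, hcm⟩ := hc
  unfold Cnd
  by_cases h0 : s = t
  · rw [dif_pos h0]
    subst h0
    intro h1
    rw [pc_conj_eq_one _ _ _ _ _ _ hθ, inv_mul_cancel] at h1
    obtain ⟨l₂, hl₂, h2, -⟩ := comp_split (p1 s) (p1_inj s) (Y := Y) (fun _ => hs) (by
      intro c y hy hyr
      rw [range_p1] at hyr
      exact (hcm y hy hyr hyr).1) hl
    rw [h1, map_one, one_mul] at h2
    rw [range_p1] at hl₂
    apply hmin (Y \ {s}) (Sp2_mono Set.sdiff_subset hY)
      (Set.ncard_sdiff_singleton_lt_of_mem hs (Set.toFinite Y)) b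
    have h3 : b⁻¹ * (b * l * b⁻¹) * b = l := by group
    rw [h3, h2]
    exact hl₂
  · rw [dif_neg h0]
    rintro ⟨c, g, n, hb⟩
    rw [pc_conj _ _ _ _ _ _ hθ, inv_mul_cancel] at hb
    obtain ⟨l₂, hl₂, h2, h4⟩ := comp_split (p2 s t) (p2_inj h0) (Y := Y) (by
      intro c; cases c
      · exact hs
      · exact ht) (by
      intro c y hy hyr
      rw [range_p2] at hyr
      have h5 := hcm y hy (fun h => hyr (Or.inl h)) (fun h => hyr (Or.inr h))
      cases c
      · exact h5.1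
      · exact h5.2) hl
    set e := pc M (p2 s t) (p2_inj h0) (th M b)⁻¹ b with he
    have h5 : pc M (p2 s t) (p2_inj h0) 1 l = (e⁻¹ * c) * ag _ g ^ n * (e⁻¹ * c)⁻¹ := by
      have h6 : pc M (p2 s t) (p2_inj h0) 1 l =
          e⁻¹ * (e * pc M (p2 s t) (p2_inj h0) 1 l * e⁻¹) * e := by group
      rw [h6, hb]; group
    set U := artMap (p2 s t) (pull_lab M _ (p2_inj h0)) (e⁻¹ * c) with hU
    have h7 : l = U * ag M (p2 s t g) ^ n * U⁻¹ * l₂ := by
      rw [h2, h5, map_mul, map_mul, map_inv, map_zpow, artMap_ag]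
    have h8 : U * l₂ = l₂ * U := h4 _
    set o := p2 s t (!g) with ho
    have hoY : o ∈ Y := by
      rw [ho]; cases g
      · exact ht
      · exact hs
    have hgo : p2 s t g ≠ o := by
      intro h
      have := p2_inj h0 h
      simp at this
    apply hmin (Y \ {o}) (Sp2_mono Set.sdiff_subset hY)
      (Set.ncard_sdiff_singleton_lt_of_mem hoY (Set.toFinite Y)) (b * U)
    have h9 : (b * U)⁻¹ * (b * l * b⁻¹) * (b * U) = ag M (p2 s t g) ^ n * l₂ := by
      have h10 : (b * U)⁻¹ * (b * l * b⁻¹) * (b * U) = U⁻¹ * l * U := by group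
      rw [h10, h7]
      have h11 : U⁻¹ * (U * ag M (p2 s t g) ^ n * U⁻¹ * l₂) * U =
          ag M (p2 s t g) ^ n * (U⁻¹ * (l₂ * U)) := by group
      rw [h11, ← h8]; group
    rw [h9]
    apply Subgroup.mul_mem
    · apply Subgroup.zpow_mem
      refine Subgroup.subset_closure ⟨p2 s t g, ⟨?_, by simpa using hgo⟩, rfl⟩
      cases g
      · exact hs
      · exact ht
    · apply Subgroup.closure_mono _ hl₂
      apply Set.image_mono
      rintro x ⟨h1, h3⟩
      refine ⟨h1, fun h6 => h3 ?_⟩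
      rw [Set.mem_singleton_iff] at h6
      rw [h6]
      exact ⟨_, rfl⟩

/-- `h` has a conjugate in a standard parabolic subgroup of such a type, of rank `n`. -/
def Rk (M : CoxeterMatrix B) (h : Art M) (n : ℕ) : Prop :=
  ∃ V : Set B, Sp2 M V ∧ V.ncard = n ∧ ∃ g, g⁻¹ * h * g ∈ Subgroup.closure (ag M '' V)

/-- The least rank. -/
def Lst (M : CoxeterMatrix B) (h : Art M) (n : ℕ) : Prop := Rk M h n ∧ ∀ m < n, ¬ Rk M h m

theorem Lst_cmp {h : Art M} {n : ℕ} (hθ : th M h = 1) (hn : Lst M h n) :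
    ∃ Y : Set B, Sp2 M Y ∧ Y.ncard = n ∧ ∃ b l, h = b * l * b⁻¹ ∧
      l ∈ Subgroup.closure (ag M '' Y) ∧ th M l = 1 ∧
      ∀ s t, Cmp M Y s t → Cnd M s t (th M b)⁻¹ h := by
  obtain ⟨⟨Y, hY, hYn, b, hb⟩, hmin⟩ := hn
  have hsp : h = b * (b⁻¹ * h * b) * b⁻¹ := conj_split b h
  have hl : th M (b⁻¹ * h * b) = 1 := by
    rw [map_mul, map_mul, hθ, map_inv, mul_one, inv_mul_cancel]
  refine ⟨Y, hY, hYn, b, b⁻¹ * h * b, hsp, hb, hl, ?_⟩
  intro s t hc
  have h1 := cnd_min hY hc (b := b) hb hl (by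
    intro X hX hXY g hg
    rw [← hsp] at hg
    exact hmin X.ncard (by omega) ⟨X, hX, rfl, g, hg⟩)
  rw [← hsp] at h1
  exact h1

omit [Fintype B] in
/-- Conjugation of a parabolic subgroup is checked on the generators. -/
theorem conj_closure {X : Set B} {Q : Subgroup M.Group} (g : M.Group)
    (h : ∀ s ∈ X, g * M.simple s * g⁻¹ ∈ Q) :
    ∀ x ∈ Subgroup.closure (M.simple '' X), g * x * g⁻¹ ∈ Q := by
  intro x hx
  induction hx using Subgroup.closure_induction with
  | mem x hx =>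
    obtain ⟨s, hs, rfl⟩ := hx
    exact h s hs
  | one => rw [mul_one, mul_inv_cancel]; exact Q.one_mem
  | mul x z _ _ hx hz =>
    have : g * (x * z) * g⁻¹ = (g * x * g⁻¹) * (g * z * g⁻¹) := by group
    rw [this]; exact Q.mul_mem hx hz
  | inv x _ hx =>
    have : g * x⁻¹ * g⁻¹ = (g * x * g⁻¹)⁻¹ := by group
    rw [this]; exact Q.inv_mem hx

end Pool.Agent.LRed
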