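import Pool.Agent.LRed.Wl2

/-!
Subgroups of Artin groups each of whose elements lies in a parabolic subgroup of a spherical type
with components of rank at most two.
-/

set_option autoImplicit false

namespace Pool.Agent.LRed

open CoxeterSystem Pool.Agent.ArtSph Pool.Agent.FBuild Pool.Agent.EvA

variable {B : Type} [Fintype B] {M : CoxeterMatrix B}

theorem cnd_min2 {Y : Set B} (hY : Sp2 M Y) {s t : B} (hc : Cmp M Y s t) {b l : Art M}
    (hl : l ∈ Subgroup.closure (ag M '' Y)) (n : ℕ) (hn : 0 < n) (hθ : th M (l ^ n) = 1)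
    (hmin : ∀ X, Sp2 M X → X.ncard < Y.ncard →
      ∀ g, g⁻¹ * (b * l * b⁻¹) * g ∉ Subgroup.closure (ag M '' X)) :
    Cnd M s t (th M b)⁻¹ (b * l ^ n * b⁻¹) := by
  obtain ⟨hs, ht, hst, hcm⟩ := hc
  unfold Cnd
  by_cases h0 : s = t
  · rw [dif_pos h0]
    subst h0
    intro h1
    rw [pc_conj_eq_one _ _ _ _ _ _ hθ, inv_mul_cancel] at h1
    have hY1 : ∀ c, p1 s c ∈ Y := fun _ => hs
    have hcm1 : ∀ c, ∀ y ∈ Y, y ∉ Set.range (p1 s) → M (p1 s c) y = 2 := by
      intro c y hy hyr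
      rw [range_p1] at hyr
      exact (hcm y hy hyr hyr).1
    rw [pc_pow (p1 s) (p1_inj s) hY1 hcm1 hl] at h1
    have h1' := unit_tf _ n hn h1
    obtain ⟨l₂, hl₂, h2, -⟩ := comp_split (p1 s) (p1_inj s) (Y := Y) hY1 hcm1 hl
    rw [h1', map_one, one_mul] at h2
    rw [range_p1] at hl₂
    apply hmin (Y \ {s}) (Sp2_mono Set.sdiff_subset hY)
      (Set.ncard_sdiff_singleton_lt_of_mem hs (Set.toFinite Y)) b
    have h3 : b⁻¹ * (b * l * b⁻¹) * b = l := by group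
    rw [h3, h2]
    exact hl₂
  · rw [dif_neg h0]
    intro hbad
    have hY2 : ∀ c, p2 s t c ∈ Y := by
      intro c; cases c
      · exact hs
      · exact ht
    have hcm2 : ∀ c, ∀ y ∈ Y, y ∉ Set.range (p2 s t) → M (p2 s t c) y = 2 := by
      intro c y hy hyr
      rw [range_p2] at hyr
      have h5 := hcm y hy (fun h => hyr (Or.inl h)) (fun h => hyr (Or.inr h))
      cases c
      · exact h5.1
      · exact h5.2
    have hbad' : Bad (pc M (p2 s t) (p2_inj h0) 1 l ^ n) := by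
      obtain ⟨c, g, j, hb⟩ := hbad
      rw [pc_conj _ _ _ _ _ _ hθ, inv_mul_cancel, pc_pow _ _ hY2 hcm2 hl] at hb
      refine ⟨(pc M (p2 s t) (p2_inj h0) (th M b)⁻¹ b)⁻¹ * c, g, j, ?_⟩
      have h6 : pc M (p2 s t) (p2_inj h0) 1 l ^ n =
          (pc M (p2 s t) (p2_inj h0) (th M b)⁻¹ b)⁻¹ *
            (pc M (p2 s t) (p2_inj h0) (th M b)⁻¹ b * pc M (p2 s t) (p2_inj h0) 1 l ^ n *
              (pc M (p2 s t) (p2_inj h0) (th M b)⁻¹ b)⁻¹) *
            pc M (p2 s t) (p2_inj h0) (th M b)⁻¹ b := by group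
      rw [h6, hb]; group
    have h3 : 3 ≤ lab (pullM M (p2 s t) (p2_inj h0)) := by
      rcases hst with hst | hst
      · exact absurd hst h0
      · exact hst
    have : NeZero (lab (pullM M (p2 s t) (p2_inj h0))) := ⟨by omega⟩
    have hpure : th _ (pc M (p2 s t) (p2_inj h0) 1 l ^ n) = 1 := by
      rw [← pc_pow _ _ hY2 hcm2 hl]
      exact pc_pure _ _ _ hθ
    obtain ⟨u, g, i, h5⟩ := root_bad h3 _ n hn hpure hbad'
    obtain ⟨l₂, hl₂, h2, h4⟩ := comp_split (p2 s t) (p2_inj h0) (Y := Y) hY2 hcm2 hl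
    set U := artMap (p2 s t) (pull_lab M _ (p2_inj h0)) u with hU
    have h7 : l = U * ag M (p2 s t g) ^ i * U⁻¹ * l₂ := by
      rw [h2, h5, map_mul, map_mul, map_inv, map_zpow, artMap_ag]
    have h8 : U * l₂ = l₂ * U := h4 _
    set o := p2 s t (!g) with ho
    have hoY : o ∈ Y := hY2 _
    have hgo : p2 s t g ≠ o := by
      intro h
      have := p2_inj h0 h
      simp at this
    apply hmin (Y \ {o}) (Sp2_mono Set.sdiff_subset hY)
      (Set.ncard_sdiff_singleton_lt_of_mem hoY (Set.toFinite Y)) (b * U)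
    have h9 : (b * U)⁻¹ * (b * l * b⁻¹) * (b * U) = ag M (p2 s t g) ^ i * l₂ := by
      have h10 : (b * U)⁻¹ * (b * l * b⁻¹) * (b * U) = U⁻¹ * l * U := by group
      rw [h10, h7]
      have h11 : U⁻¹ * (U * ag M (p2 s t g) ^ i * U⁻¹ * l₂) * U =
          ag M (p2 s t g) ^ i * (U⁻¹ * (l₂ * U)) := by group
      rw [h11, ← h8]; group
    rw [h9]
    apply Subgroup.mul_mem
    · apply Subgroup.zpow_mem
      exact Subgroup.subset_closure ⟨p2 s t g, ⟨hY2 g, by simpa using hgo⟩, rfl⟩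
    · apply Subgroup.closure_mono _ hl₂
      apply Set.image_mono
      rintro x ⟨h1, h3⟩
      refine ⟨h1, fun h6 => h3 ?_⟩
      rw [Set.mem_singleton_iff] at h6
      rw [h6]
      exact ⟨_, rfl⟩

theorem Lst_cmp2 {h : Art M} {m : ℕ} (hm : Lst M h m) :
    ∃ Y : Set B, Sp2 M Y ∧ ∃ b l, h = b * l * b⁻¹ ∧
      l ∈ Subgroup.closure (ag M '' Y) ∧ ∃ n : ℕ, 0 < n ∧ th M (l ^ n) = 1 ∧
      ∀ s t, Cmp M Y s t → Cnd M s t (th M b)⁻¹ (h ^ n) := by
  obtain ⟨⟨Y, hY, hYn, b, hb⟩, hmin⟩ := hm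
  have hsp : h = b * (b⁻¹ * h * b) * b⁻¹ := conj_split b h
  set l := b⁻¹ * h * b with hl
  have hfin : Finite ↥(Subgroup.closure (M.simple '' Y)) := hY.1
  have hpow : th M (l ^ Nat.card ↥(Subgroup.closure (M.simple '' Y))) = 1 := by
    have h1 := pow_card_eq_one' (x := (⟨th M l, th_mem hb⟩ : ↥(Subgroup.closure (M.simple '' Y))))
    have h2 := congrArg Subtype.val h1
    rw [map_pow]
    exact h2
  refine ⟨Y, hY, b, l, hsp, hb, _, Nat.card_pos, hpow, ?_⟩
  intro s t hc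
  have h1 := cnd_min2 hY hc (b := b) hb _ Nat.card_pos hpow (by
    intro X hX hXY g hg
    rw [← hsp] at hg
    exact hmin X.ncard (by omega) ⟨X, hX, rfl, g, hg⟩)
  have h2 : ∀ n : ℕ, b * l ^ n * b⁻¹ = h ^ n := by
    intro n
    induction n with
    | zero => simp
    | succ n ih => rw [pow_succ, pow_succ, ← ih, hl]; group
  rw [h2] at h1
  exact h1

/-- The support of the conditions satisfied by pure elements of `H`. -/
theorem lr_core {H : Subgroup (Art M)} (hH : ES2 M H) :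
    ∃ (V : Set B) (w₀ : M.Group), Sp2 M V ∧ ∀ h ∈ H, th M h = 1 →
      ∀ (s t : B) (w : M.Group), (s = t ∨ 3 ≤ M s t) → Cnd M s t w h →
        w₀ * w⁻¹ * M.simple s * (w₀ * w⁻¹)⁻¹ ∈ Subgroup.closure (M.simple '' V) := by
  classical
  have hex : ∀ h ∈ H, ∃ n, Lst M h n := by
    intro h hh
    have h1 : ∃ n, Rk M h n := by
      obtain ⟨V, hV, g, hg⟩ := hH h hh
      exact ⟨V.ncard, V, hV, rfl, g, hg⟩
    exact ⟨Nat.find h1, Nat.find_spec h1, fun m hm => Nat.find_min h1 hm⟩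
  set K : Subgroup (Art M) := H ⊓ (th M).ker with hK
  -- an element of greatest rank
  set S : Set ℕ := {n | ∃ x ∈ K, Lst M x n} with hS
  have hSfin : S.Finite := by
    apply (Set.finite_Iic (Fintype.card B)).subset
    rintro n ⟨x, hx, ⟨V, hV, hVn, -⟩, -⟩
    rw [Set.mem_Iic, ← hVn, ← Nat.card_eq_fintype_card]
    exact (Set.ncard_le_card V)
  have hSne : S.Nonempty := by
    obtain ⟨n, hn⟩ := hex 1 H.one_mem
    exact ⟨n, 1, K.one_mem, hn⟩
  obtain ⟨n, ⟨x, hx, hxn⟩, hmax⟩ := Set.exists_max_image S id hSfin hSne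
  have hxθ : th M x = 1 := hx.2
  obtain ⟨V, hV, hVn, a, k, hxk, hk, hkθ, hxc⟩ := Lst_cmp hxθ hxn
  refine ⟨V, (th M a)⁻¹, hV, ?_⟩
  intro h hh hθ s t w hst hcnd
  -- an element with all conditions
  let I : Finset (B × B × M.Group) := insert (s, t, w)
    ((Finset.univ.filter (fun p : B × B => Cmp M V p.1 p.2)).image
      (fun p => (p.1, p.2, (th M a)⁻¹)))
  have hI : ∀ i ∈ I, (i.1 = i.2.1 ∨ 3 ≤ M i.1 i.2.1) := by
    intro i hi
    rcases Finset.mem_insert.1 hi with rfl | hi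
    · exact hst
    · obtain ⟨p, hp, rfl⟩ := Finset.mem_image.1 hi
      exact (Finset.mem_filter.1 hp).2.2.2.1
  obtain ⟨x', hx', hxi⟩ := sim K I (fun i z => Cnd M i.1 i.2.1 i.2.2 z) (by
    intro i hi z hz z' hz' hzz
    exact cnd_fin (hI i hi) _ hz.2 hz'.2 hzz) (by
    intro i hi
    rcases Finset.mem_insert.1 hi with rfl | hi
    · exact ⟨h, ⟨hh, hθ⟩, hcnd⟩
    · obtain ⟨p, hp, rfl⟩ := Finset.mem_image.1 hi
      exact ⟨x, hx, hxc _ _ (Finset.mem_filter.1 hp).2⟩)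
  obtain ⟨m', hm'⟩ := hex x' hx'.1
  have hxθ' : th M x' = 1 := hx'.2
  obtain ⟨V', hV', hVm', a', k', hxk', hk', hkθ', -⟩ := Lst_cmp hxθ' hm'
  have hle : m' ≤ n := hmax m' ⟨x', hx', hm'⟩
  rw [hxk'] at hxi
  set g : M.Group := (th M a')⁻¹ * th M a with hg
  have hgV : ∀ X ∈ Subgroup.closure (M.simple '' V), g * X * g⁻¹ ∈
      Subgroup.closure (M.simple '' V') := by
    apply conj_closure
    intro p hp
    obtain ⟨q, hpq⟩ := exists_cmp hV hp
    have h1 := cnd_supp hk' hkθ' (hxi (p, q, (th M a)⁻¹) (Finset.mem_insert_of_mem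
      (Finset.mem_image.2 ⟨(p, q), Finset.mem_filter.2 ⟨Finset.mem_univ _, hpq⟩, rfl⟩)))
      (M.simple p) (Subgroup.subset_closure ⟨p, Or.inl rfl, rfl⟩)
    have h2 : g * M.simple p * g⁻¹ =
        ((th M a)⁻¹ * th M a')⁻¹ * M.simple p * ((th M a)⁻¹ * th M a') := by
      rw [hg]; group
    rw [h2]
    exact h1
  obtain ⟨u, hu, d, y, hy, hgd, -, -, j, hj, hjd⟩ := dbl g hgV
  have hjs : Function.Surjective j := by
    have h1 : Nat.card V' ≤ Nat.card V := by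
      rw [Nat.card_coe_set_eq, Nat.card_coe_set_eq]
      omega
    exact (Function.Injective.bijective_of_nat_card_le hj h1).2
  have hgV' : ∀ X ∈ Subgroup.closure (M.simple '' V'), g⁻¹ * X * g ∈
      Subgroup.closure (M.simple '' V) := by
    intro X hX
    have h1 : ∀ X ∈ Subgroup.closure (M.simple '' V'), d⁻¹ * X * d⁻¹⁻¹ ∈
        Subgroup.closure (M.simple '' V) := by
      apply conj_closure
      intro v' hv'
      obtain ⟨v, hv⟩ := hjs ⟨v', hv'⟩
      have h2 := hjd v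
      rw [hv] at h2
      have h3 : M.simple v' * d = d * M.simple v := h2
      have h4 : d⁻¹ * M.simple v' * d⁻¹⁻¹ = M.simple v := by
        rw [inv_inv, mul_assoc, h3, inv_mul_cancel_left]
      rw [h4]
      exact Subgroup.subset_closure ⟨v, v.2, rfl⟩
    have h2 := h1 (u⁻¹ * X * u) (Subgroup.mul_mem _ (Subgroup.mul_mem _ (Subgroup.inv_mem _ hu) hX) hu)
    rw [inv_inv] at h2
    have h3 : g⁻¹ * X * g = y⁻¹ * (d⁻¹ * (u⁻¹ * X * u) * d) * y := by rw [hgd]; group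
    rw [h3]
    exact Subgroup.mul_mem _ (Subgroup.mul_mem _ (Subgroup.inv_mem _ hy) h2) hy
  have h5 := hgV' _ (cnd_supp hk' hkθ' (hxi (s, t, w) (Finset.mem_insert_self _ _))
    (M.simple s) (Subgroup.subset_closure ⟨s, Or.inl rfl, rfl⟩))
  have h6 : (th M a)⁻¹ * w⁻¹ * M.simple s * ((th M a)⁻¹ * w⁻¹)⁻¹ =
      g⁻¹ * ((w * th M a')⁻¹ * M.simple s * (w * th M a')) * g := by
    rw [hg]; group
  rw [h6]
  exact h5

end Pool.Agent.LRed
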