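import Pool.Agent.LRed.Main2

/-!
The retraction and the map to the Coxeter group; the even case.
-/

set_option autoImplicit false

namespace Pool.Agent.LRed

open CoxeterSystem Pool.Agent.ArtSph Pool.Agent.FBuild Pool.Agent.EvA

variable {B : Type} [Fintype B] {M : CoxeterMatrix B}

/-- The theorem, with a reduced `w₀`. -/
theorem lr_main3 {H : Subgroup (Art M)} (hH : ES2 M H) :
    ∃ (V : Set B) (w₀ : M.Group), Sp2 M V ∧ (∀ v ∈ V, Asc M.toCoxeterSystem w₀ v) ∧ ∀ h ∈ H,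
      w₀ * th M h * w₀⁻¹ ∈ Subgroup.closure (M.simple '' V) ∧
      (∃ e : Art M, th M e = w₀ ∧
        artMap (Subtype.val : V → B) (pull_lab M _ Subtype.val_injective)
        (pc M (Subtype.val : V → B) Subtype.val_injective w₀ h) = e * h * e⁻¹) ∧
      ∃ (Y : Set B) (b l : Art M), h = b * l * b⁻¹ ∧ l ∈ Subgroup.closure (ag M '' Y) ∧
        ∀ x ∈ Subgroup.closure (M.simple '' Y),
          (w₀ * th M b) * x * (w₀ * th M b)⁻¹ ∈ Subgroup.closure (M.simple '' V) := by
  classical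
  obtain ⟨V, w₁, hV, hcore₁⟩ := lr_core hH
  obtain ⟨u, hu, hw⟩ := red_dec (cs := M.toCoxeterSystem) (t := (Subtype.val : V → B)) w₁
  set w₀ := red M.toCoxeterSystem (Subtype.val : V → B) w₁ with hw₀
  have hred : IsRed M.toCoxeterSystem (Subtype.val : V → B) w₀ := red_isRed _ _ _
  have hu' := mem_Wt_val.1 hu
  have hcore : ∀ h ∈ H, th M h = 1 → ∀ (s t : B) (w : M.Group), (s = t ∨ 3 ≤ M s t) →
      Cnd M s t w h → w₀ * w⁻¹ * M.simple s * (w₀ * w⁻¹)⁻¹ ∈
        Subgroup.closure (M.simple '' V) := by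
    intro h hh hθ s t w hst hc
    have h1 := hcore₁ h hh hθ s t w hst hc
    have h2 : w₀ * w⁻¹ * M.simple s * (w₀ * w⁻¹)⁻¹ =
        u⁻¹ * (w₁ * w⁻¹ * M.simple s * (w₁ * w⁻¹)⁻¹) * u := by
      rw [hw]; group
    rw [h2]
    exact Subgroup.mul_mem _ (Subgroup.mul_mem _ (Subgroup.inv_mem _ hu') h1) hu'
  refine ⟨V, w₀, hV, fun v hv => hred ⟨v, hv⟩, ?_⟩
  intro h hh
  obtain ⟨m, hm⟩ : ∃ n, Lst M h n := by
    have h1 : ∃ n, Rk M h n := by
      obtain ⟨V, hV, g, hg⟩ := hH h hh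
      exact ⟨V.ncard, V, hV, rfl, g, hg⟩
    exact ⟨Nat.find h1, Nat.find_spec h1, fun m hm => Nat.find_min h1 hm⟩
  obtain ⟨Y, hY, b, l, hbl, hl, n, hn, hθ, hc⟩ := Lst_cmp2 hm
  have hpure : th M (h ^ n) = 1 := by
    rw [map_pow, hbl, map_mul, map_mul, map_inv, conj_pow, ← map_pow, hθ]
    group
  have hcon : ∀ x ∈ Subgroup.closure (M.simple '' Y),
      (w₀ * th M b) * x * (w₀ * th M b)⁻¹ ∈ Subgroup.closure (M.simple '' V) := by
    apply conj_closure
    intro s hs
    obtain ⟨t, hst⟩ := exists_cmp hY hs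
    have h1 := hcore (h ^ n) (H.pow_mem hh n) hpure s t (th M b)⁻¹ hst.2.2.1 (hc s t hst)
    rw [inv_inv] at h1
    exact h1
  refine ⟨?_, ?_, Y, b, l, hbl, hl, hcon⟩
  · have h2 : w₀ * th M h * w₀⁻¹ = (w₀ * th M b) * th M l * (w₀ * th M b)⁻¹ := by
      rw [hbl]
      simp only [map_mul, map_inv]
      group
    rw [h2]
    exact hcon _ (th_mem hl)
  · rw [hbl]
    exact final2 w₀ (fun v hv => hred ⟨v, hv⟩) hl hcon

omit [Fintype B] in
/-- In an even Coxeter group conjugate simple reflections are equal. -/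
theorem even_conj (hM : EvM M) {i j : B} {d : M.Group} (h : M.simple i * d = d * M.simple j) :
    i = j := by
  classical
  by_contra hij
  let f : B → Multiplicative (ZMod 2) := fun k => if k = i then Multiplicative.ofAdd 1 else 1
  have hsq : ∀ x : Multiplicative (ZMod 2), x * x = 1 := by decide
  have hf : M.IsLiftable f := by
    intro a b
    by_cases hab : a = b
    · subst hab
      rw [M.diagonal, pow_one, hsq]
    · obtain ⟨k, hk⟩ := hM a b hab
      rw [hk, pow_add, ← mul_pow, hsq, one_pow]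
  have h1 := congrArg (M.toCoxeterSystem.lift ⟨f, hf⟩) h
  rw [map_mul, map_mul] at h1
  have h2 : ∀ k, M.toCoxeterSystem.lift ⟨f, hf⟩ (M.simple k) = f k := fun k =>
    M.toCoxeterSystem.lift_apply_simple hf k
  rw [h2, h2, mul_comm] at h1
  have h3 := mul_left_cancel h1
  have h4 : f i = Multiplicative.ofAdd 1 := if_pos rfl
  have h5 : f j = 1 := if_neg (fun h => hij h.symm)
  rw [h4, h5] at h3
  exact absurd h3 (by decide)

/-- The even case: the retraction killing the generators outside of `V`. -/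
theorem even_rt (hM : EvM M) {V Y : Set B} {w₀ : M.Group} {b l : Art M}
    (hl : l ∈ Subgroup.closure (ag M '' Y))
    (hcon : ∀ x ∈ Subgroup.closure (M.simple '' Y),
      (w₀ * th M b) * x * (w₀ * th M b)⁻¹ ∈ Subgroup.closure (M.simple '' V)) :
    ∃ g, rt hM V (b * l * b⁻¹) = g * (b * l * b⁻¹) * g⁻¹ := by
  obtain ⟨u, -, d, y, -, -, -, -, j, -, hj⟩ := dbl _ hcon
  have hYV : Y ⊆ V := by
    intro v hv
    have h1 := even_conj hM (hj ⟨v, hv⟩)
    have h2 : ((j ⟨v, hv⟩ : V) : B) = v := h1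
    rw [← h2]
    exact (j ⟨v, hv⟩).2
  have h3 : rt hM V l = l := rt_fix hM (Subgroup.closure_mono (Set.image_mono hYV) hl)
  refine ⟨rt hM V b * b⁻¹, ?_⟩
  rw [map_mul, map_mul, map_inv, h3]
  group

end Pool.Agent.LRed
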