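import Pool.Agent.EvA.Tr
import Pool.Agent.EvA.Free
import Pool.Agent.ArtSph.Struct

/-!
Dihedral Artin groups acting on the chambers of the arrangement of `m` lines, with cocycles.
-/

set_option autoImplicit false

namespace Pool.Agent.LRed

open Pool.Agent.ArtSph Pool.Agent.FBuild

/-- The chambers of the arrangement of `m` lines: `(false, i)` is the chamber `2 i` and `(true, i)`
the chamber `2 i + 1` (modulo `2 m`). -/
abbrev Ch (m : ℕ) : Type := Bool × ZMod m

/-- The next chamber. -/
def up {m : ℕ} (p : Ch m) : Ch m := if p.1 then (false, p.2 + 1) else (true, p.2)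

/-- The chamber before. -/
def dn {m : ℕ} (p : Ch m) : Ch m := if p.1 then (false, p.2) else (true, p.2 - 1)

/-- The wall between `p` and `up p`. -/
def wl {m : ℕ} (p : Ch m) : ZMod m := if p.1 then 2 * p.2 + 1 else 2 * p.2

section ch
variable {m : ℕ}

@[simp] theorem up_dn (p : Ch m) : up (dn p) = p := by
  rcases p with ⟨b, i⟩; cases b <;> simp [up, dn]

@[simp] theorem dn_up (p : Ch m) : dn (up p) = p := by
  rcases p with ⟨b, i⟩; cases b <;> simp [up, dn]

theorem up_fst (p : Ch m) : (up p).1 = !p.1 := by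
  rcases p with ⟨b, i⟩; cases b <;> simp [up]

theorem dn_fst (p : Ch m) : (dn p).1 = !p.1 := by
  rcases p with ⟨b, i⟩; cases b <;> simp [dn]

theorem wl_up (p : Ch m) : wl (up p) = wl p + 1 := by
  rcases p with ⟨b, i⟩; cases b <;> simp [up, wl]; ring

theorem wl_dn (p : Ch m) : wl (dn p) = wl p - 1 := by
  have h := wl_up (dn p)
  rw [up_dn] at h
  rw [h]; ring

-- BEGIN upm
private theorem upm_two (p : Ch m) : up (up p) = (p.1, p.2 + 1) := by
  rcases p with ⟨b, i⟩; cases b <;> simp [up]

private theorem upm_iter (n : ℕ) (p : Ch m) : up^[2 * n] p = (p.1, p.2 + (n : ZMod m)) := by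
  induction n generalizing p with
  | zero => simp
  | succ n ih =>
    rw [show 2 * (n + 1) = 2 * n + 1 + 1 by ring, Function.iterate_succ_apply,
      Function.iterate_succ_apply, ih, upm_two]
    push_cast
    ext
    · rfl
    · change p.2 + 1 + (n : ZMod m) = p.2 + ((n : ZMod m) + 1)
      ring

private theorem upm_inv (n : ℕ) (p : Ch m) : dn^[n] (up^[n] p) = p :=
  Function.LeftInverse.iterate (f := up) (g := dn) dn_up n p

/-- ROW upm. `up^[2] (b, i) = (b, i + 1)`, so `up^[2 * m] = id`; and `dn` is the inverse of `up`. -/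
theorem up_two_m (p : Ch m) : up^[2 * m] p = p ∧ dn^[2 * m] p = p ∧ up^[m] p = dn^[m] p := by
  have h1 : up^[2 * m] p = p := by
    rw [upm_iter, ZMod.natCast_self, add_zero]
  have h2 : up^[m] (up^[m] p) = p := by
    rw [← Function.iterate_add_apply, ← two_mul]
    exact h1
  refine ⟨h1, ?_, ?_⟩
  · have h3 := upm_inv (2 * m) p
    rwa [h1] at h3
  · have h3 := upm_inv m (up^[m] p)
    rw [h2] at h3
    exact h3.symm
-- END upm

end ch

section steps
variable {m : ℕ} {Γ : Type} [Group Γ] (β δ : ZMod m → Γ)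

/-- The step of the generator `g`: up from the chambers of type `g`, down from the others. -/
def stp (g : Bool) : Equiv.Perm (Γ × Ch m) where
  toFun x := if x.2.1 = g then (β (wl x.2) * x.1, up x.2) else (δ (wl (dn x.2)) * x.1, dn x.2)
  invFun x := if x.2.1 = g then ((δ (wl x.2))⁻¹ * x.1, up x.2)
    else ((β (wl (dn x.2)))⁻¹ * x.1, dn x.2)
  left_inv := by
    rintro ⟨γ, p⟩
    by_cases h : p.1 = g
    · have h1 : ¬ (up p).1 = g := by rw [up_fst, h]; simp
      simp [h, h1]
    · have h1 : (dn p).1 = g := by rw [dn_fst]; revert h; cases p.1 <;> cases g <;> simp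
      simp [h, h1]
  right_inv := by
    rintro ⟨γ, p⟩
    by_cases h : p.1 = g
    · have h1 : ¬ (up p).1 = g := by rw [up_fst, h]; simp
      simp [h, h1]
    · have h1 : (dn p).1 = g := by rw [dn_fst]; revert h; cases p.1 <;> cases g <;> simp
      simp [h, h1]

theorem stp_apply (g : Bool) (γ : Γ) (p : Ch m) : stp β δ g (γ, p) =
    if p.1 = g then (β (wl p) * γ, up p) else (δ (wl (dn p)) * γ, dn p) := rfl

/-- The product `β (j + n - 1) ⋯ β (j + 1) β j`. -/
def pr (j : ZMod m) : ℕ → Γ
  | 0 => 1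
  | n + 1 => β (j + n) * pr j n

/-- The product `δ (j - n) ⋯ δ (j - 2) δ (j - 1)`. -/
def prd (j : ZMod m) : ℕ → Γ
  | 0 => 1
  | n + 1 => δ (j - 1 - n) * prd j n

-- BEGIN alu
private theorem alu_wl (n : ℕ) (p : Ch m) : wl (up^[n] p) = wl p + n := by
  induction n with
  | zero => simp
  | succ n ih =>
    rw [Function.iterate_succ_apply', wl_up, ih]
    push_cast
    ring

private theorem alu_fst (n : ℕ) (p : Ch m) : (up^[n] p).1 = if Even n then p.1 else !p.1 := by
  induction n with
  | zero => simp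
  | succ n ih =>
    rw [Function.iterate_succ_apply', up_fst, ih]
    by_cases h : Even n
    · rw [if_pos h, if_neg (by rw [Nat.even_add_one]; simpa using h)]
    · rw [if_neg h, if_pos (by rw [Nat.even_add_one]; exact h)]
      simp

/-- ROW alu. Induction on `n` (generalizing `c`): `altM (stp c) (stp !c) (n + 1) = stp c * altM (stp !c)
(stp c) n`, and the type of `up^[n] p` is `c`; `wl (up^[n] p) = wl p + n`. -/
theorem alt_up (n : ℕ) (c : Bool) (γ : Γ) (p : Ch m) (hp : p.1 = (if Even n then !c else c)) :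
    (altM (stp β δ c) (stp β δ (!c)) n) (γ, p) = (pr β (wl p) n * γ, up^[n] p) := by
  induction n generalizing c with
  | zero => simp [altM, pr]
  | succ n ih =>
    have hp' : p.1 = (if Even n then !(!c) else !c) := by
      by_cases h : Even n
      · rw [if_neg (by rw [Nat.even_add_one]; simpa using h)] at hp
        rw [if_pos h, hp]
        simp
      · rw [if_pos (by rw [Nat.even_add_one]; exact h)] at hp
        rw [if_neg h, hp]
    have h1 := ih (!c) hp'
    rw [Bool.not_not] at h1
    have h2 : (up^[n] p).1 = c := by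
      rw [alu_fst]
      by_cases h : Even n
      · rw [if_pos h, hp', if_pos h]
        simp
      · rw [if_neg h, hp', if_neg h]
        simp
    show (stp β δ c * altM (stp β δ (!c)) (stp β δ c) n) (γ, p) = _
    rw [Equiv.Perm.mul_apply, h1, stp_apply, if_pos h2, alu_wl, Function.iterate_succ_apply']
    show _ = (β (wl p + n) * pr β (wl p) n * γ, _)
    rw [mul_assoc]
-- END alu

-- BEGIN ald
private theorem ald_fst (n : ℕ) (p : Ch m) :
    (dn^[n] p).1 = if Even n then p.1 else !p.1 := by
  induction n with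
  | zero => simp
  | succ n ih =>
    rw [Function.iterate_succ_apply', dn_fst, ih]
    by_cases h : Even n
    · have h1 : ¬ Even (n + 1) := by
        rw [Nat.even_add_one]
        exact fun h2 => h2 h
      rw [if_pos h, if_neg h1]
    · have h1 : Even (n + 1) := by
        rw [Nat.even_add_one]
        exact h
      rw [if_neg h, if_pos h1, Bool.not_not]

private theorem ald_wl (n : ℕ) (p : Ch m) : wl (dn^[n] p) = wl p - n := by
  induction n with
  | zero => simp
  | succ n ih =>
    rw [Function.iterate_succ_apply', wl_dn, ih]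
    push_cast
    ring

/-- ROW ald. The same down. -/
theorem alt_dn (n : ℕ) (c : Bool) (γ : Γ) (p : Ch m) (hp : p.1 = (if Even n then c else !c)) :
    (altM (stp β δ c) (stp β δ (!c)) n) (γ, p) = (prd δ (wl p) n * γ, dn^[n] p) := by
  induction n generalizing c with
  | zero => simp [altM, prd]
  | succ n ih =>
    have hp' : p.1 = (if Even n then !c else !(!c)) := by
      rw [hp]
      by_cases h : Even n
      · have h1 : ¬ Even (n + 1) := by
          rw [Nat.even_add_one]
          exact fun h2 => h2 h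
        rw [if_pos h, if_neg h1]
      · have h1 : Even (n + 1) := by
          rw [Nat.even_add_one]
          exact h
        rw [if_neg h, if_pos h1, Bool.not_not]
    have h2 := ih (!c) hp'
    rw [Bool.not_not] at h2
    have h3 : (altM (stp β δ c) (stp β δ (!c)) (n + 1)) (γ, p) =
        stp β δ c ((altM (stp β δ (!c)) (stp β δ c) n) (γ, p)) := rfl
    have h4 : ¬ (dn^[n] p).1 = c := by
      rw [ald_fst, hp']
      by_cases h : Even n
      · rw [if_pos h, if_pos h]
        simp
      · rw [if_neg h, if_neg h, Bool.not_not]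
        simp
    rw [h3, h2, stp_apply, if_neg h4, wl_dn, ald_wl, Function.iterate_succ_apply']
    have h5 : wl p - (n : ZMod m) - 1 = wl p - 1 - n := by ring
    rw [h5]
    simp only [prd, mul_assoc]
-- END ald

-- BEGIN brd
/-- ROW brd. The braid relation: at `(γ, p)` one side is `alt_up` and the other one `alt_dn`; by `up_two_m`. -/
theorem stp_braid (h : ∀ j, pr β j m = prd δ j m) :
    altM (stp β δ false) (stp β δ true) m = altM (stp β δ true) (stp β δ false) m := by
  apply Equiv.ext
  rintro ⟨γ, p⟩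
  have hm := (up_two_m p).2.2
  by_cases hp : p.1 = (if Even m then true else false)
  · have h1 := alt_up β δ m false γ p (by simpa using hp)
    have h2 := alt_dn β δ m true γ p (by simpa using hp)
    simp only [Bool.not_false, Bool.not_true] at h1 h2
    rw [h1, h2, h, hm]
  · have hq : p.1 = (if Even m then false else true) := by
      by_cases he : Even m
      · simp only [he, if_true] at hp ⊢
        simpa using hp
      · simp only [he, if_false] at hp ⊢
        simpa using hp
    have h1 := alt_up β δ m true γ p (by simpa using hq)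
    have h2 := alt_dn β δ m false γ p (by simpa using hq)
    simp only [Bool.not_false, Bool.not_true] at h1 h2
    rw [h1, h2, h, hm]
-- END brd

end steps

/-- The label. -/
abbrev lab (N : CoxeterMatrix Bool) : ℕ := N false true

section act
variable {N : CoxeterMatrix Bool} {Γ : Type} [Group Γ] (β δ : ZMod (lab N) → Γ)
  (h : ∀ j, pr β j (lab N) = prd δ j (lab N))

/-- The action of the dihedral Artin group. -/
def act : Art N →* Equiv.Perm (Γ × Ch (lab N)) :=
  artLift (stp β δ) (by
    intro i j _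
    have h2 := stp_braid β δ h
    have h3 : N true false = lab N := N.symmetric _ _
    rcases i <;> rcases j
    · rfl
    · exact h2
    · rw [h3]; exact h2.symm
    · rfl)

theorem act_ag (g : Bool) : act β δ h (ag N g) = stp β δ g := artLift_ag _ _ g

/-- The cocycle. -/
def KK (z : Art N) (p : Ch (lab N)) : Γ := (act β δ h z (1, p)).1

/-- The action on the chambers. -/
def posf (z : Art N) (p : Ch (lab N)) : Ch (lab N) :=
  (act (Γ := Unit) (fun _ => ()) (fun _ => ()) (fun _ => rfl) z ((), p)).2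

-- BEGIN acq
private theorem acq_unit (z : Art N) (p : Ch (lab N)) :
    act (Γ := Unit) (fun _ => ()) (fun _ => ()) (fun _ => rfl) z ((), p) = ((), posf z p) := rfl

private theorem acq_back (z : Art N) (p : Ch (lab N)) : posf z (posf z⁻¹ p) = p := by
  have h1 : act (Γ := Unit) (fun _ => ()) (fun _ => ()) (fun _ => rfl) (z * z⁻¹) ((), p) =
      ((), p) := by
    rw [mul_inv_cancel, map_one]; rfl
  rw [map_mul, Equiv.Perm.mul_apply, acq_unit, acq_unit] at h1
  exact (Prod.ext_iff.mp h1).2

/-- ROW acq. `art_induction`; for the inverse apply the statement for `z` to `posf z⁻¹ p`. -/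
theorem act_eq (z : Art N) (γ : Γ) (p : Ch (lab N)) :
    act β δ h z (γ, p) = (KK β δ h z p * γ, posf z p) := by
  unfold KK
  induction z using art_induction generalizing γ p with
  | h1 =>
    rw [map_one]
    refine Prod.ext ?_ ?_
    · simp
    · show p = posf (1 : Art N) p
      unfold posf
      rw [map_one]; rfl
  | hg g =>
    have hp : posf (ag N g) p = if p.1 = g then up p else dn p := by
      unfold posf
      rw [act_ag, stp_apply]
      split_ifs <;> rfl
    rw [act_ag, stp_apply, stp_apply, hp]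
    split_ifs <;> simp
  | hm a b ha hb =>
    have hp : posf (a * b) p = posf a (posf b p) := by
      unfold posf
      rw [map_mul, Equiv.Perm.mul_apply]
    rw [map_mul, Equiv.Perm.mul_apply, Equiv.Perm.mul_apply, hb γ p, hb 1 p, ha _ (posf b p),
      ha ((act β δ h b (1, p)).1 * 1) (posf b p), hp]
    simp [mul_assoc]
  | hi a ha =>
    have key : ∀ γ' : Γ, act β δ h a⁻¹ (γ', p) =
        ((act β δ h a (1, posf a⁻¹ p)).1⁻¹ * γ', posf a⁻¹ p) := by
      intro γ'
      have h1 := ha ((act β δ h a (1, posf a⁻¹ p)).1⁻¹ * γ') (posf a⁻¹ p)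
      rw [acq_back, mul_inv_cancel_left] at h1
      rw [← h1, ← Equiv.Perm.mul_apply, ← map_mul, inv_mul_cancel, map_one]
      rfl
    rw [key γ, key 1]
    simp
-- END acq

theorem posf_mul (z z' : Art N) (p : Ch (lab N)) : posf (z * z') p = posf z (posf z' p) := by
  unfold posf
  rw [map_mul, Equiv.Perm.mul_apply]

theorem posf_one (p : Ch (lab N)) : posf (1 : Art N) p = p := by
  unfold posf
  rw [map_one]; rfl

theorem KK_mul (z z' : Art N) (p : Ch (lab N)) :
    KK β δ h (z * z') p = KK β δ h z (posf z' p) * KK β δ h z' p := by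
  have h1 := act_eq β δ h z' 1 p
  have h2 := act_eq β δ h z (KK β δ h z' p * 1) (posf z' p)
  have h3 : (act β δ h (z * z') (1, p)).1 = (act β δ h z (act β δ h z' (1, p))).1 := by
    rw [map_mul, Equiv.Perm.mul_apply]
  unfold KK at *
  rw [h3, h1, h2, mul_one]

theorem KK_one (p : Ch (lab N)) : KK β δ h 1 p = 1 := by
  unfold KK
  rw [map_one]; rfl

theorem KK_inv (z : Art N) (p : Ch (lab N)) :
    KK β δ h z⁻¹ p = (KK β δ h z (posf z⁻¹ p))⁻¹ := by
  have h1 := KK_mul β δ h z z⁻¹ p
  rw [mul_inv_cancel, KK_one] at h1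
  exact (inv_eq_of_mul_eq_one_right h1.symm).symm

-- BEGIN pps
private theorem pps_sq {m : ℕ} (g : Bool) (x : Unit × Ch m) :
    stp (fun _ : ZMod m => ()) (fun _ => ()) g (stp (fun _ : ZMod m => ()) (fun _ => ()) g x) =
      x := by
  rcases x with ⟨γ, p⟩
  rw [stp_apply (fun _ : ZMod m => ()) (fun _ => ()) g γ p]
  by_cases h : p.1 = g
  · have h1 : ¬ (up p).1 = g := by
      rw [up_fst, h]
      simp
    rw [if_pos h, stp_apply, if_neg h1]
    exact Prod.ext (Subsingleton.elim _ _) (dn_up p)
  · have h1 : (dn p).1 = g := by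
      rw [dn_fst]
      revert h
      cases p.1 <;> cases g <;> simp
    rw [if_neg h, stp_apply, if_pos h1]
    exact Prod.ext (Subsingleton.elim _ _) (up_dn p)

private theorem pps_two {m : ℕ} (c : Bool) :
    (stp (fun _ : ZMod m => ()) (fun _ => ()) c *
      stp (fun _ : ZMod m => ()) (fun _ => ()) (!c)) ^ m = 1 := by
  rw [← altM_even]
  apply Equiv.ext
  rintro ⟨γ, p⟩
  rw [Equiv.Perm.one_apply]
  by_cases h : p.1 = c
  · have h1 := alt_dn (fun _ : ZMod m => ()) (fun _ => ()) (2 * m) c γ p (by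
      rw [if_pos (even_two_mul m), h])
    rw [h1]
    exact Prod.ext (Subsingleton.elim _ _) (up_two_m p).2.1
  · have h2 : p.1 = !c := by
      revert h
      cases p.1 <;> cases c <;> simp
    have h1 := alt_up (fun _ : ZMod m => ()) (fun _ => ()) (2 * m) c γ p (by
      rw [if_pos (even_two_mul m), h2])
    rw [h1]
    exact Prod.ext (Subsingleton.elim _ _) (up_two_m p).1

private theorem pps_rel (N : CoxeterMatrix Bool) (i j : Bool) :
    (stp (fun _ : ZMod (lab N) => ()) (fun _ => ()) i *
      stp (fun _ : ZMod (lab N) => ()) (fun _ => ()) j) ^ N i j = 1 := by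
  by_cases h : i = j
  · subst h
    have h1 : N i i = 1 := N.diagonal i
    rw [h1, pow_one]
    apply Equiv.ext
    intro x
    rw [Equiv.Perm.mul_apply, Equiv.Perm.one_apply]
    exact pps_sq i x
  · have h2 : j = !i := by
      revert h
      cases i <;> cases j <;> simp
    subst h2
    have h3 : N i (!i) = lab N := by
      cases i
      · rfl
      · exact N.symmetric _ _
    rw [h3]
    exact pps_two i

/-- ROW pps. Pure elements fix the chambers: the permutations `stp` for `Γ = Unit` satisfy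
`(stp g * stp g') ^ N g g' = 1` (`altM_even`, `alt_up`, `alt_dn`, `up_two_m`), so the action factors through
`N.Group` (`N.toCoxeterSystem.lift`, compare `theta`, `th`). -/
theorem posf_pure (z : Art N) (hz : th N z = 1) (p : Ch (lab N)) : posf z p = p := by
  let A : N.Group →* Equiv.Perm (Unit × Ch (lab N)) :=
    N.toCoxeterSystem.lift ⟨fun g => stp (fun _ : ZMod (lab N) => ()) (fun _ => ()) g,
      fun i j => pps_rel N i j⟩
  have hA : ∀ g, A (N.toCoxeterSystem.simple g) =
      stp (fun _ : ZMod (lab N) => ()) (fun _ => ()) g := fun g =>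
    N.toCoxeterSystem.lift_apply_simple (fun i j => pps_rel N i j) g
  have key : ∀ z : Art N, A (th N z) =
      act (Γ := Unit) (fun _ : ZMod (lab N) => ()) (fun _ => ()) (fun _ => rfl) z := by
    intro z
    induction z using art_induction with
    | h1 => rw [map_one, map_one, map_one]
    | hg i => rw [theta_ag, hA, act_ag]
    | hm a b ha hb => rw [map_mul, map_mul, map_mul, ha, hb]
    | hi a ha => rw [map_inv, map_inv, map_inv, ha]
  have h1 := key z
  rw [hz, map_one] at h1
  unfold posf
  rw [← h1]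
  rfl
-- END pps

/-- The wall which `g` crosses at `q`. -/
def jw {m : ℕ} (g : Bool) (q : Ch m) : ZMod m := if q.1 = g then wl q else wl (dn q)

-- BEGIN ksq
private theorem ksq_posf (g : Bool) (p : Ch (lab N)) :
    posf (ag N g) p = if p.1 = g then up p else dn p := by
  unfold posf
  rw [act_ag, stp_apply]
  split <;> rfl

private theorem ksq_KK (g : Bool) (p : Ch (lab N)) :
    KK β δ h (ag N g) p = if p.1 = g then β (wl p) else δ (wl (dn p)) := by
  unfold KK
  rw [act_ag, stp_apply]
  split <;> simp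

private theorem ksq_pow (z : Art N) (q : Ch (lab N)) (c : Γ) (h1 : posf z q = q)
    (h2 : KK β δ h z q = c) (k : ℤ) : posf (z ^ k) q = q ∧ KK β δ h (z ^ k) q = c ^ k := by
  have hn : ∀ n : ℕ, posf (z ^ n) q = q ∧ KK β δ h (z ^ n) q = c ^ n := by
    intro n
    induction n with
    | zero => exact ⟨by rw [pow_zero, posf_one], by rw [pow_zero, pow_zero, KK_one]⟩
    | succ n ih =>
      refine ⟨?_, ?_⟩
      · rw [pow_succ', posf_mul, ih.1, h1]
      · rw [pow_succ', KK_mul, ih.1, ih.2, h2, ← pow_succ']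
  cases k with
  | ofNat n =>
    rw [Int.ofNat_eq_natCast, zpow_natCast, zpow_natCast]
    exact hn n
  | negSucc n =>
    have h3 : posf (z ^ (n + 1))⁻¹ q = q := by
      have h4 := posf_mul (z ^ (n + 1))⁻¹ (z ^ (n + 1)) q
      rw [inv_mul_cancel, posf_one, (hn (n + 1)).1] at h4
      exact h4.symm
    rw [zpow_negSucc, zpow_negSucc]
    refine ⟨h3, ?_⟩
    rw [KK_inv, h3, (hn (n + 1)).2]

/-- ROW ksq. First `k = 1` (two steps), then powers (`KK_mul`, `KK_inv`). -/
theorem KK_sq (hc : ∀ j, β j * δ j = δ j * β j) (g : Bool) (q : Ch (lab N)) (k : ℤ) :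
    posf (ag N g ^ (2 * k)) q = q ∧
      KK β δ h (ag N g ^ (2 * k)) q = (β (jw g q) * δ (jw g q)) ^ k := by
  rw [zpow_mul, zpow_two]
  refine ksq_pow β δ h _ q _ ?_ ?_ k
  · rw [posf_mul, ksq_posf, ksq_posf]
    by_cases hg : q.1 = g
    · have h1 : ¬ (up q).1 = g := by rw [up_fst, hg]; simp
      rw [if_pos hg, if_neg h1, dn_up]
    · have h1 : (dn q).1 = g := by
        rw [dn_fst]
        revert hg
        cases q.1 <;> cases g <;> simp
      rw [if_neg hg, if_pos h1, up_dn]
  · rw [KK_mul, ksq_posf, ksq_KK, ksq_KK]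
    unfold jw
    by_cases hg : q.1 = g
    · have h1 : ¬ (up q).1 = g := by rw [up_fst, hg]; simp
      rw [if_pos hg, if_pos hg, if_pos hg, if_neg h1, dn_up, hc]
    · have h1 : (dn q).1 = g := by
        rw [dn_fst]
        revert hg
        cases q.1 <;> cases g <;> simp
      rw [if_neg hg, if_neg hg, if_neg hg, if_pos h1]
-- END ksq

-- BEGIN evn
/-- ROW evn. An odd power of a generator moves every chamber (`KK_sq` and one step, `up_fst`, `dn_fst`). -/
theorem even_of_fix (g : Bool) (n : ℤ) (q : Ch (lab N)) (hq : posf (ag N g ^ n) q = q) :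
    ∃ k : ℤ, n = 2 * k := by
  rcases Int.even_or_odd' n with ⟨k, hk | hk⟩
  · exact ⟨k, hk⟩
  · exfalso
    have h1 := (KK_sq (N := N) (Γ := Unit) (fun _ => ()) (fun _ => ()) (fun _ => rfl)
      (fun _ => rfl) g q k).1
    have h2 : posf (ag N g ^ n) q = posf (ag N g) q := by
      rw [hk, add_comm, zpow_add, zpow_one, posf_mul, h1]
    rw [h2] at hq
    have h3 : (posf (ag N g) q).1 = !q.1 := by
      unfold posf
      rw [act_ag, stp_apply]
      split_ifs
      · exact up_fst q
      · exact dn_fst q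
    rw [hq] at h3
    cases hb : q.1 <;> simp [hb] at h3
-- END evn

end act

section instances

variable (m : ℕ)

/-- Crossing the wall `a` counts one. -/
def ind (a j : ZMod m) : Multiplicative ℤ := if j = a then Multiplicative.ofAdd 1 else 1

-- BEGIN pin
private theorem pin_pr (β : ZMod m → Multiplicative ℤ) (j : ZMod m) (n : ℕ) :
    pr β j n = ∏ k ∈ Finset.range n, β (j + k) := by
  induction n with
  | zero => rfl
  | succ n ih =>
    rw [Finset.prod_range_succ_comm, ← ih]
    rfl

private theorem pin_prd (β : ZMod m → Multiplicative ℤ) (j : ZMod m) (n : ℕ) :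
    prd β j n = ∏ k ∈ Finset.range n, β (j - 1 - k) := by
  induction n with
  | zero => rfl
  | succ n ih =>
    rw [Finset.prod_range_succ_comm, ← ih]
    rfl

private theorem pin_one [NeZero m] (a c : ZMod m) (g : ℕ → ZMod m)
    (hg : ∀ k : ℕ, g k = a ↔ (k : ZMod m) = c) :
    ∏ k ∈ Finset.range m, ind m a (g k) = Multiplicative.ofAdd 1 := by
  rw [Finset.prod_eq_single c.val]
  · unfold ind
    rw [if_pos ((hg c.val).2 (ZMod.natCast_zmod_val c))]
  · intro b hb hne
    unfold ind
    rw [if_neg]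
    intro h
    apply hne
    rw [← (hg b).1 h, ZMod.val_natCast_of_lt (Finset.mem_range.1 hb)]
  · intro h
    exact absurd (Finset.mem_range.2 (ZMod.val_lt c)) h

/-- ROW pin. Each wall is crossed once: the products run over all of `ZMod m` (`Finset.prod` over
`Finset.range m`, bijection `k ↦ j + k`, resp. `k ↦ j - 1 - k`, with `ZMod m`). -/
theorem pr_ind [NeZero m] (a j : ZMod m) :
    pr (ind m a) j m = Multiplicative.ofAdd 1 ∧ prd (ind m a) j m = Multiplicative.ofAdd 1 := by
  constructor
  · rw [pin_pr]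
    refine pin_one m a (a - j) _ fun k => ?_
    constructor
    · intro h
      rw [← h]
      ring
    · intro h
      rw [h]
      ring
  · rw [pin_prd]
    refine pin_one m a (j - 1 - a) _ fun k => ?_
    constructor
    · intro h
      rw [← h]
      ring
    · intro h
      rw [h]
      ring
-- END pin

/-- The values of the free cocycle; the wall `j` with `j + a = -1` is dropped. -/
noncomputable def bet (a j : ZMod m) : FreeGroup (ZMod (m - 1)) :=
  if (j + a).val < m - 1 then FreeGroup.of (((j + a).val : ℕ) : ZMod (m - 1))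
  else (pr (fun i : ZMod m => FreeGroup.of ((i.val : ℕ) : ZMod (m - 1))) 0 (m - 1))⁻¹

-- BEGIN rot
/-- shifting the start: `β j` in front -/
private theorem rot_succ {Γ : Type} [Group Γ] {m : ℕ} (β : ZMod m → Γ) (j : ZMod m) (n : ℕ) :
    pr β j (n + 1) = pr β (j + 1) n * β j := by
  induction n with
  | zero => simp [pr]
  | succ n ih =>
    rw [pr, ih, pr, ← mul_assoc]
    congr 3
    push_cast
    ring

/-- ROW rot. `pr β (j + 1) m = β j * pr β j m * (β j)⁻¹` as `j + m = j`; then induction on the distance from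
`j₀`. -/
theorem pr_rot {Γ : Type} [Group Γ] [NeZero m] (β : ZMod m → Γ) (j₀ : ZMod m) (z : Γ)
    (hz : ∀ j, z * β j = β j * z) (h : pr β j₀ m = z) (j : ZMod m) : pr β j m = z := by
  have step : ∀ j, pr β j m = z → pr β (j + 1) m = z := by
    intro j hj
    have h1 := rot_succ β j m
    have h2 : pr β j (m + 1) = β (j + (m : ZMod m)) * pr β j m := rfl
    rw [h1, hj, ZMod.natCast_self, add_zero, ← hz j] at h2
    exact mul_right_cancel h2
  have hn : ∀ n : ℕ, pr β (j₀ + (n : ZMod m)) m = z := by
    intro n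
    induction n with
    | zero => simpa using h
    | succ n ih =>
      have h3 := step _ ih
      rw [show j₀ + ((n + 1 : ℕ) : ZMod m) = j₀ + (n : ZMod m) + 1 by push_cast; ring]
      exact h3
  have h4 := hn (j - j₀).val
  rw [ZMod.natCast_zmod_val, add_sub_cancel] at h4
  exact h4
-- END rot

-- BEGIN bre
private theorem bre_prd {Γ : Type} [Group Γ] (j : ZMod m) (n : ℕ) :
    prd (fun _ => (1 : Γ)) j n = 1 := by
  induction n with
  | zero => rfl
  | succ n ih =>
    have h : prd (fun _ => (1 : Γ)) j (n + 1) = 1 * prd (fun _ => (1 : Γ)) j n := rfl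
    rw [h, ih, one_mul]

private theorem bre_pr [NeZero m] (a : ZMod m) (n : ℕ) (hn : n ≤ m - 1) :
    pr (bet m a) (-a) n =
      pr (fun i : ZMod m => FreeGroup.of ((i.val : ℕ) : ZMod (m - 1))) 0 n := by
  induction n with
  | zero => rfl
  | succ n ih =>
    have h1 : pr (bet m a) (-a) (n + 1) = bet m a (-a + n) * pr (bet m a) (-a) n := rfl
    have h2 : pr (fun i : ZMod m => FreeGroup.of ((i.val : ℕ) : ZMod (m - 1))) 0 (n + 1) =
        FreeGroup.of (((0 + (n : ZMod m)).val : ℕ) : ZMod (m - 1)) *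
          pr (fun i : ZMod m => FreeGroup.of ((i.val : ℕ) : ZMod (m - 1))) 0 n := rfl
    have h3 : (n : ZMod m).val = n := ZMod.val_natCast_of_lt (by omega)
    have h4 : -a + (n : ZMod m) + a = (n : ZMod m) := by ring
    have h5 : bet m a (-a + n) = FreeGroup.of ((n : ℕ) : ZMod (m - 1)) := by
      unfold bet
      rw [h4, h3, if_pos (by omega)]
    rw [h1, h2, ih (by omega), h5, zero_add, h3]

/-- ROW bre. By `pr_rot` with `z = 1`, `j₀ = -a`: `pr (bet a) (-a) m = bet (-a + (m - 1)) * pr (bet a) (-a) (m - 1)`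
and `pr (bet a) (-a) n = pr (fun i => of i.val) 0 n` for `n ≤ m - 1`. `prd` of the constant `1` is `1`. -/
theorem bet_rel [NeZero m] (a j : ZMod m) : pr (bet m a) j m = prd (fun _ => 1) j m := by
  rw [bre_prd m j m]
  refine pr_rot m (bet m a) (-a) 1 (fun j => by rw [one_mul, mul_one]) ?_ j
  have hm : 0 < m := Nat.pos_of_ne_zero (NeZero.ne m)
  have h0 : pr (bet m a) (-a) m = pr (bet m a) (-a) ((m - 1) + 1) :=
    congrArg (pr (bet m a) (-a)) (by omega)
  have h1 : pr (bet m a) (-a) ((m - 1) + 1) =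
      bet m a (-a + ((m - 1 : ℕ) : ZMod m)) * pr (bet m a) (-a) (m - 1) := rfl
  have h3 : ((m - 1 : ℕ) : ZMod m).val = m - 1 := ZMod.val_natCast_of_lt (by omega)
  have h4 : -a + ((m - 1 : ℕ) : ZMod m) + a = ((m - 1 : ℕ) : ZMod m) := by ring
  have h5 : bet m a (-a + ((m - 1 : ℕ) : ZMod m)) =
      (pr (fun i : ZMod m => FreeGroup.of ((i.val : ℕ) : ZMod (m - 1))) 0 (m - 1))⁻¹ := by
    unfold bet
    rw [h4, h3, if_neg (by omega)]
  rw [h0, h1, h5, bre_pr m a (m - 1) le_rfl, inv_mul_cancel]
-- END bre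

end instances

section lifts

variable (N : CoxeterMatrix Bool)

/-- The lifts of the chambers. -/
noncomputable def ell : ℕ → Art N
  | 0 => 1
  | n + 1 => (ag N n.bodd)⁻¹ * ell n

/-- The loops around the walls. -/
noncomputable def Bn (n : ℕ) : Art N := (ell N n)⁻¹ * ag N n.bodd ^ 2 * ell N n

/-- The Garside element. -/
noncomputable def dl : Art N := altM (ag N false) (ag N true) (lab N)

/-- The full twist. -/
noncomputable def z2 : Art N := dl N * dl N

-- BEGIN dlc
private theorem dlc_alt (h0 : lab N ≠ 0) (c : Bool) :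
    altM (ag N c) (ag N (!c)) (lab N) = dl N := by
  have h3 : N true false = lab N := N.symmetric _ _
  rcases c
  · rfl
  · have h1 := art_braid (M := N) true false (by rw [h3]; exact h0)
    rw [h3] at h1
    exact h1

/-- ROW dlc. `u Δ = Δ u'`: both alternating words of length `lab N` are `Δ` (`art_braid`); write
`u_n (u_(n+1) ⋯ u_(n+m)) = (u_n ⋯ u_(n+m-1)) u_(n+m)` (`altM`, `altM_add` with `k = 1`). -/
theorem dl_comm (h0 : lab N ≠ 0) (n : ℕ) :
    ag N n.bodd * dl N = dl N * ag N (n + lab N).bodd := by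
  set c : Bool := n.bodd with hc
  have h1 : ag N c * dl N = altM (ag N c) (ag N (!c)) (lab N + 1) := by
    rw [altM]
    congr 1
    have h2 := dlc_alt N h0 (!c)
    rw [Bool.not_not] at h2
    exact h2.symm
  rw [h1, altM_add, dlc_alt N h0 c]
  congr 1
  rw [Nat.bodd_add, ← hc]
  by_cases he : Even (lab N)
  · have h4 : (lab N).bodd = false := by
      rw [Nat.even_iff] at he
      have := Nat.mod_two_of_bodd (lab N)
      rw [he] at this
      cases h5 : (lab N).bodd
      · rfl
      · rw [h5] at this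
        simp at this
    rw [if_pos he, h4, Bool.xor_false]
    simp [altM]
  · have h4 : (lab N).bodd = true := by
      rw [Nat.even_iff] at he
      have := Nat.mod_two_of_bodd (lab N)
      cases h5 : (lab N).bodd
      · rw [h5] at this
        simp at this
        omega
      · rfl
    rw [if_neg he, h4, Bool.xor_true]
    simp [altM]
-- END dlc

-- BEGIN z2c
/-- ROW z2c. The full twist is central: `dl_comm` twice on generators, then `art_induction`. -/
theorem z2_comm (h0 : lab N ≠ 0) (a : Art N) : z2 N * a = a * z2 N := by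
  have key : ∀ n : ℕ, ag N n.bodd * (dl N * dl N) = dl N * dl N * ag N n.bodd := by
    intro n
    have h1 := dl_comm N h0 n
    have h2 := dl_comm N h0 (n + lab N)
    have h3 : (n + lab N + lab N).bodd = n.bodd := by
      simp [Nat.bodd_add]
    rw [h3] at h2
    rw [← mul_assoc, h1, mul_assoc, h2, mul_assoc]
  unfold z2
  induction a using art_induction with
  | h1 => simp
  | hg i =>
    cases i
    · exact (key 0).symm
    · exact (key 1).symm
  | hm a b ha hb => rw [← mul_assoc, ha, mul_assoc, hb, mul_assoc]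
  | hi a ha => exact (Commute.inv_right (show Commute (dl N * dl N) a from ha)).eq
-- END z2c

-- BEGIN ela
private theorem ela_bodd (n k : ℕ) : (n + k).bodd = if Even k then n.bodd else !n.bodd := by
  by_cases hk : Even k
  · rw [if_pos hk]
    obtain ⟨j, rfl⟩ := hk
    simp [Nat.bodd_add]
  · rw [if_neg hk]
    obtain ⟨j, rfl⟩ := Nat.not_even_iff_odd.1 hk
    simp [Nat.bodd_add, Nat.bodd_mul, show Nat.bodd 2 = false from rfl]

private theorem ela_aux (n k : ℕ) :
    ell N (n + k) = (altM (ag N n.bodd) (ag N (!n.bodd)) k)⁻¹ * ell N n := by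
  induction k with
  | zero => simp [altM]
  | succ k ih =>
    have h1 : ell N (n + (k + 1)) = (ag N (n + k).bodd)⁻¹ * ell N (n + k) := rfl
    have h2 : altM (ag N n.bodd) (ag N (!n.bodd)) (k + 1) =
        altM (ag N n.bodd) (ag N (!n.bodd)) k * ag N (n + k).bodd := by
      rw [altM_add, ela_bodd]
      by_cases hk : Even k
      · simp [hk, altM]
      · simp [hk, altM]
    rw [h1, ih, h2, mul_inv_rev, mul_assoc]

/-- ROW ela. `ell (n + k) = (altM u_n u_(n+1) k)⁻¹ * ell n` by induction on `k`; for `k = lab N` the word is `Δ`. -/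
theorem ell_add (h0 : lab N ≠ 0) (n : ℕ) : ell N (n + lab N) = (dl N)⁻¹ * ell N n := by
  rw [ela_aux]
  have h : altM (ag N n.bodd) (ag N (!n.bodd)) (lab N) = dl N := by
    cases n.bodd
    · rfl
    · exact (art_braid N false true h0).symm
  rw [h]
-- END ela

/-- The loops, indexed by the walls. -/
noncomputable def Bz (j : ZMod (lab N)) : Art N := Bn N j.val

-- BEGIN bzc
private theorem bzc_step (h0 : lab N ≠ 0) (n : ℕ) : Bn N (n + lab N) = Bn N n := by
  have h1 := dl_comm N h0 n
  have h2 : ag N (n + lab N).bodd = (dl N)⁻¹ * (ag N n.bodd * dl N) := by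
    rw [h1, inv_mul_cancel_left]
  unfold Bn
  rw [ell_add N h0, h2, pow_two, pow_two]
  simp only [mul_assoc, mul_inv_rev, inv_inv, mul_inv_cancel_left]

private theorem bzc_mul (h0 : lab N ≠ 0) (n k : ℕ) : Bn N (n + lab N * k) = Bn N n := by
  induction k with
  | zero => simp
  | succ k ih =>
    rw [show n + lab N * (k + 1) = (n + lab N * k) + lab N by ring, bzc_step N h0, ih]

/-- ROW bzc. `Bn (n + lab N) = Bn n` by `ell_add` and `dl_comm`; `n = n % m + m * (n / m)`, `ZMod.val_natCast`. -/
theorem Bz_cast (h0 : lab N ≠ 0) (n : ℕ) : Bz N (n : ZMod (lab N)) = Bn N n := by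
  unfold Bz
  rw [ZMod.val_natCast]
  have h1 := bzc_mul N h0 (n % lab N) (n / lab N)
  rw [Nat.mod_add_div] at h1
  exact h1.symm
-- END bzc

-- BEGIN bzp
private theorem bzp_Bn (n : ℕ) : Bn N n = (ell N (n + 1))⁻¹ * ag N n.bodd * ell N n := by
  unfold Bn
  show _ = ((ag N n.bodd)⁻¹ * ell N n)⁻¹ * ag N n.bodd * ell N n
  rw [mul_inv_rev, inv_inv, sq]
  simp only [mul_assoc]

/-- The words `u_(n + k - 1) ⋯ u_n`. -/
private noncomputable def bzp_w (n : ℕ) : ℕ → Art N
  | 0 => 1
  | k + 1 => ag N (n + k).bodd * bzp_w n k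

private theorem bzp_alt (n k : ℕ) :
    bzp_w N n k = altM (ag N (n + k + 1).bodd) (ag N (n + k).bodd) k := by
  induction k with
  | zero => rfl
  | succ k ih =>
    show ag N (n + k).bodd * bzp_w N n k = _
    rw [ih]
    have h1 : (n + (k + 1) + 1).bodd = (n + k).bodd := by
      rw [show n + (k + 1) + 1 = n + k + 1 + 1 by ring, Nat.bodd_succ, Nat.bodd_succ, Bool.not_not]
    rw [h1]
    rfl

private theorem bzp_pr (h0 : lab N ≠ 0) (n k : ℕ) :
    pr (Bz N) ((n : ℕ) : ZMod (lab N)) k = (ell N (n + k))⁻¹ * bzp_w N n k * ell N n := by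
  induction k with
  | zero =>
    show (1 : Art N) = (ell N n)⁻¹ * 1 * ell N n
    rw [mul_one, inv_mul_cancel]
  | succ k ih =>
    show Bz N (((n : ℕ) : ZMod (lab N)) + ((k : ℕ) : ZMod (lab N))) *
      pr (Bz N) ((n : ℕ) : ZMod (lab N)) k = _
    rw [ih, ← Nat.cast_add, Bz_cast N h0, bzp_Bn]
    show _ = (ell N (n + k + 1))⁻¹ * (ag N (n + k).bodd * bzp_w N n k) * ell N n
    simp only [mul_assoc, mul_inv_cancel_left]

/-- ROW bzp. `Bn n = (ell (n + 1))⁻¹ * u_n * ell n`, so for `j = n` the product telescopes: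
`pr Bz n k = (ell (n + k))⁻¹ * (u_(n+k-1) ⋯ u_n) * ell n`; for `k = lab N` the word is `Δ` (both alternating words
are), and `ell_add`, `z2_comm`. -/
theorem Bz_prod (h0 : lab N ≠ 0) (j : ZMod (lab N)) : pr (Bz N) j (lab N) = z2 N := by
  have : NeZero (lab N) := ⟨h0⟩
  have hj : ((j.val : ℕ) : ZMod (lab N)) = j := ZMod.natCast_zmod_val j
  obtain ⟨n, hn⟩ : ∃ n, n = j.val := ⟨_, rfl⟩
  rw [← hj, ← hn, bzp_pr N h0 n (lab N), ell_add N h0]
  have hw : bzp_w N n (lab N) = dl N := by
    rw [bzp_alt, Nat.bodd_succ]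
    have h1 := art_braid (M := N) false true h0
    cases (n + lab N).bodd
    · exact h1.symm
    · rfl
  have hz := z2_comm N h0 (ell N n)
  rw [hw, mul_inv_rev, inv_inv, mul_assoc (ell N n)⁻¹, mul_assoc (ell N n)⁻¹]
  show (ell N n)⁻¹ * (z2 N * ell N n) = z2 N
  rw [hz, inv_mul_cancel_left]
-- END bzp

/-- Back from the free group. -/
noncomputable def hat (a : ZMod (lab N)) : FreeGroup (ZMod (lab N - 1)) →* Art N :=
  FreeGroup.lift (fun i => Bz N (((i.val : ℕ) : ZMod (lab N)) - a))

-- BEGIN htb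
private theorem htb_succ {m : ℕ} {Γ : Type} [Group Γ] (β : ZMod m → Γ) (j : ZMod m) (n k : ℕ)
    (h : n = k + 1) : pr β j n = β (j + ((k : ℕ) : ZMod m)) * pr β j k := by
  subst h
  rfl

private theorem htb_of (a : ZMod (lab N)) (n : ℕ) (hn : n < lab N - 1) :
    hat N a (FreeGroup.of ((n : ℕ) : ZMod (lab N - 1))) = Bz N (((n : ℕ) : ZMod (lab N)) - a) := by
  have h1 : (((n : ℕ) : ZMod (lab N - 1))).val = n := ZMod.val_natCast_of_lt hn
  unfold hat
  rw [FreeGroup.lift_apply_of, h1]

private theorem htb_pr (a : ZMod (lab N)) (n : ℕ) (hn : n ≤ lab N - 1) :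
    hat N a (pr (fun i : ZMod (lab N) => FreeGroup.of ((i.val : ℕ) : ZMod (lab N - 1))) 0 n) =
      pr (Bz N) (-a) n := by
  induction n with
  | zero => exact map_one _
  | succ n ih =>
    show hat N a (FreeGroup.of ((((0 : ZMod (lab N)) + ((n : ℕ) : ZMod (lab N))).val : ℕ) :
        ZMod (lab N - 1)) *
      pr (fun i : ZMod (lab N) => FreeGroup.of ((i.val : ℕ) : ZMod (lab N - 1))) 0 n) =
        Bz N (-a + ((n : ℕ) : ZMod (lab N))) * pr (Bz N) (-a) n
    rw [map_mul, ih (by omega), zero_add, ZMod.val_natCast_of_lt (by omega : n < lab N),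
      htb_of N a n (by omega), neg_add_eq_sub]

/-- ROW htb. If `(j + a).val < m - 1` take `l = 0`; otherwise `j + a = m - 1`,
`hat (pr (of) 0 (m - 1)) = pr (Bz N) (-a) (m - 1)` and `Bz N j * pr (Bz N) (-a) (m - 1) = z2 N` (`Bz_prod` with `j = -a`);
take `l = 1`. -/
theorem hat_bet (h2 : 2 ≤ lab N) (a j : ZMod (lab N)) :
    ∃ l : ℤ, Bz N j = hat N a (bet (lab N) a j) * z2 N ^ l := by
  have h0 : lab N ≠ 0 := by omega
  have : NeZero (lab N) := ⟨h0⟩
  have hja : (((j + a).val : ℕ) : ZMod (lab N)) = j + a := ZMod.natCast_zmod_val _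
  by_cases hlt : (j + a).val < lab N - 1
  · refine ⟨0, ?_⟩
    unfold bet
    rw [if_pos hlt, htb_of N a _ hlt, hja, add_sub_cancel_right, zpow_zero, mul_one]
  · refine ⟨1, ?_⟩
    have hval : (j + a).val = lab N - 1 := by
      have h1 := ZMod.val_lt (j + a)
      omega
    have hj : j = -a + (((lab N - 1 : ℕ) : ℕ) : ZMod (lab N)) := by
      rw [← hval, hja]
      ring
    have h3 := Bz_prod N h0 (-a)
    have h4 : pr (Bz N) (-a) (lab N) =
        Bz N (-a + (((lab N - 1 : ℕ) : ℕ) : ZMod (lab N))) * pr (Bz N) (-a) (lab N - 1) :=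
      htb_succ (Bz N) (-a) (lab N) (lab N - 1) (by omega)
    rw [h4, ← hj] at h3
    unfold bet
    rw [if_neg hlt, map_inv, htb_pr N a (lab N - 1) le_rfl, zpow_one, ← z2_comm N h0, ← h3,
      mul_inv_cancel_right]
-- END htb

/-- The number of a chamber. -/
def num {m : ℕ} (p : Ch m) : ℕ := 2 * p.2.val + (if p.1 then 1 else 0)

theorem num_bodd {m : ℕ} (p : Ch m) : (num p).bodd = p.1 := by
  unfold num
  rcases p with ⟨b, i⟩
  cases b <;> simp

-- BEGIN nuw
/-- ROW nuw. -/
theorem num_wl {m : ℕ} [NeZero m] (p : Ch m) : ((num p : ℕ) : ZMod m) = wl p := by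
  rcases p with ⟨b, i⟩
  unfold num wl
  cases b <;> simp
-- END nuw

-- BEGIN nup
/-- ROW nup. `num (up p) = num p + 1`, or `num p + 1 = 2 * lab N` and `num (up p) = 0` (`ell_add` twice). -/
theorem num_up (h0 : lab N ≠ 0) (p : Ch (lab N)) :
    ∃ l : ℤ, ell N (num p + 1) = ell N (num (up p)) * z2 N ^ l := by
  have : NeZero (lab N) := ⟨h0⟩
  obtain ⟨b, i⟩ := p
  cases b
  · refine ⟨0, ?_⟩
    rw [zpow_zero, mul_one]
    rfl
  · have hv : (i + 1).val = (i.val + 1) % lab N := by
      rw [ZMod.val_add, ZMod.val_one_eq_one_mod, Nat.add_mod_mod]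
    have h1 : num ((true, i) : Ch (lab N)) + 1 = 2 * i.val + 1 + 1 := rfl
    have h2 : num (up ((true, i) : Ch (lab N))) = 2 * (i + 1).val + 0 := rfl
    have hlt : i.val < lab N := ZMod.val_lt i
    rcases Nat.lt_or_ge (i.val + 1) (lab N) with h | h
    · refine ⟨0, ?_⟩
      rw [zpow_zero, mul_one, h1, h2, hv, Nat.mod_eq_of_lt h]
      rfl
    · have h3 : i.val + 1 = lab N := by omega
      refine ⟨-1, ?_⟩
      have h4 : 2 * i.val + 1 + 1 = 0 + lab N + lab N := by omega
      rw [h1, h2, hv, h3, Nat.mod_self, h4, ell_add N h0, ell_add N h0]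
      show (dl N)⁻¹ * ((dl N)⁻¹ * (1 : Art N)) = (1 : Art N) * z2 N ^ (-1 : ℤ)
      rw [mul_one, one_mul, zpow_neg_one, z2, mul_inv_rev]
-- END nup

-- BEGIN sec
private theorem sec_posf_ag {N : CoxeterMatrix Bool} (g : Bool) (p : Ch (lab N)) :
    posf (ag N g) p = if p.1 = g then up p else dn p := by
  unfold posf
  rw [act_ag, stp_apply]
  split_ifs <;> rfl

private theorem sec_KK_ag {N : CoxeterMatrix Bool} {Γ : Type} [Group Γ] (β δ : ZMod (lab N) → Γ)
    (h : ∀ j, pr β j (lab N) = prd δ j (lab N)) (g : Bool) (p : Ch (lab N)) :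
    KK β δ h (ag N g) p = if p.1 = g then β (wl p) else δ (wl (dn p)) := by
  unfold KK
  rw [act_ag, stp_apply]
  split_ifs <;> simp

private theorem sec_comm {N : CoxeterMatrix Bool} (h0 : lab N ≠ 0) (l : ℤ) (a : Art N) :
    z2 N ^ l * a = a * z2 N ^ l :=
  (Commute.zpow_left (show Commute (z2 N) a from z2_comm N h0 a) l).eq

/-- ROW sec. The section: `art_induction`. Generator `g`, `p` of type `g` (`posf = up p`, `KK = bet (wl p)`): with
`n = num p`, `ag N g * ell n = ell (n + 1) * Bn n`, `Bn n = Bz (wl p)` (`Bz_cast`, `num_wl`), `hat_bet`, `num_up`. `p` of the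
other type (`posf = dn p =: q`, `KK = 1`): `ag N g * ell (num q + 1) = ell (num q)` and `num_up` for `q`. The powers of `z2`
are central (`z2_comm`). -/
theorem sect (h2 : 2 ≤ lab N) [NeZero (lab N)] (a : ZMod (lab N)) (z : Art N) (p : Ch (lab N)) :
    ∃ l : ℤ, z * ell N (num p) = ell N (num (posf z p)) *
      hat N a (KK (bet (lab N) a) (fun _ => 1) (bet_rel (lab N) a) z p) * z2 N ^ l := by
  have h0 : lab N ≠ 0 := by omega
  induction z using art_induction generalizing p with
  | h1 =>
    refine ⟨0, ?_⟩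
    rw [posf_one, KK_one, map_one]; simp
  | hg g =>
    by_cases hp : p.1 = g
    · rw [sec_posf_ag, sec_KK_ag, if_pos hp, if_pos hp]
      obtain ⟨l1, hl1⟩ := hat_bet N h2 a (wl p)
      obtain ⟨l2, hl2⟩ := num_up N h0 p
      refine ⟨l2 + l1, ?_⟩
      have h3 : ag N g * ell N (num p) = ell N (num p + 1) * Bn N (num p) := by
        unfold Bn
        rw [ell, num_bodd, hp]
        group
      have h4 : Bn N (num p) = Bz N (wl p) := by
        rw [← num_wl p, Bz_cast N h0]
      rw [h3, h4, hl1, hl2, zpow_add, mul_assoc (ell N (num (up p))), ← mul_assoc (z2 N ^ l2),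
        sec_comm h0]
      simp only [mul_assoc]
    · rw [sec_posf_ag, sec_KK_ag, if_neg hp, if_neg hp, map_one, mul_one]
      obtain ⟨l, hl⟩ := num_up N h0 (dn p)
      rw [up_dn] at hl
      refine ⟨-l, ?_⟩
      have h3 : (dn p).1 = g := by rw [dn_fst]; revert hp; cases p.1 <;> cases g <;> simp
      have h4 : ell N (num (dn p) + 1) = (ag N g)⁻¹ * ell N (num (dn p)) := by
        rw [ell, num_bodd, h3]
      rw [h4] at hl
      have h5 : ell N (num p) = (ag N g)⁻¹ * ell N (num (dn p)) * z2 N ^ (-l) := by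
        rw [hl, zpow_neg, mul_inv_cancel_right]
      rw [h5]
      group
  | hm z z' ih ih' =>
    obtain ⟨l', hl'⟩ := ih' p
    obtain ⟨l, hl⟩ := ih (posf z' p)
    refine ⟨l + l', ?_⟩
    rw [posf_mul, KK_mul, map_mul, mul_assoc, hl', ← mul_assoc, ← mul_assoc, hl, zpow_add,
      mul_assoc (ell N (num (posf z (posf z' p))) * _) (z2 N ^ l), sec_comm h0]
    simp only [mul_assoc]
  | hi z ih =>
    obtain ⟨l, hl⟩ := ih (posf z⁻¹ p)
    refine ⟨-l, ?_⟩
    have h3 : posf z (posf z⁻¹ p) = p := by rw [← posf_mul, mul_inv_cancel, posf_one]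
    rw [h3] at hl
    rw [KK_inv, map_inv, mul_assoc, ← sec_comm h0, zpow_neg, inv_mul_eq_iff_eq_mul, ← mul_assoc,
      hl]
    group
-- END sec

-- BEGIN kz2
private theorem kz2_dl [NeZero (lab N)]
    (h : ∀ a j, pr (ind (lab N) a) j (lab N) = prd (ind (lab N) a) j (lab N))
    (a : ZMod (lab N)) (p : Ch (lab N)) :
    KK (ind (lab N) a) (ind (lab N) a) (h a) (dl N) p = Multiplicative.ofAdd 1 := by
  unfold KK dl
  rw [altM_hom, act_ag, act_ag]
  by_cases hp : p.1 = (if Even (lab N) then !false else false)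
  · have h1 := alt_up (ind (lab N) a) (ind (lab N) a) (lab N) false 1 p hp
    rw [show (!false) = true from rfl] at h1
    rw [h1, mul_one]
    exact (pr_ind (lab N) a (wl p)).1
  · have hp' : p.1 = (if Even (lab N) then false else !false) := by
      revert hp
      by_cases he : Even (lab N)
      · rw [if_pos he, if_pos he]
        cases p.1 <;> simp
      · rw [if_neg he, if_neg he]
        cases p.1 <;> simp
    have h1 := alt_dn (ind (lab N) a) (ind (lab N) a) (lab N) false 1 p hp'
    rw [show (!false) = true from rfl] at h1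
    rw [h1, mul_one]
    exact (pr_ind (lab N) a (wl p)).2

/-- ROW kz2. The full twist crosses every wall twice: `act` of `dl N` at `(1, p)` is `alt_up` or `alt_dn` (`altM_hom`,
`act_ag`), value `ofAdd 1` by `pr_ind`; `KK_mul`. -/
theorem KK_z2 [NeZero (lab N)] (h : ∀ a j, pr (ind (lab N) a) j (lab N) = prd (ind (lab N) a) j (lab N))
    (a : ZMod (lab N)) (p : Ch (lab N)) :
    KK (ind (lab N) a) (ind (lab N) a) (h a) (z2 N) p = Multiplicative.ofAdd 2 := by
  unfold z2
  rw [KK_mul, kz2_dl, kz2_dl]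
  rfl
-- END kz2

end lifts

end Pool.Agent.LRed
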