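import Pool.Agent.LRed.Dif
import Pool.Agent.EvA.Dih

/-!
Dihedral Artin groups are torsion free.
-/

set_option autoImplicit false

namespace Pool.Agent.LRed

open Pool.Agent.ArtSph Pool.Agent.FBuild Pool.Agent.EvA

-- BEGIN ftf
/-- ROW ftf. Free groups are torsion free (Mathlib may have it as an instance `IsMulTorsionFree`; otherwise by reduced
words). -/
theorem free_tf {α : Type} (w : FreeGroup α) (n : ℕ) (hn : 0 < n) (h : w ^ n = 1) : w = 1 :=
  (pow_eq_one_iff_left (by omega)).1 h
-- END ftf

-- BEGIN sdt
/-- ROW sdt. A semidirect product of a free group and `ℤ` is torsion free: the right coordinate of `z ^ n` is the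
`n`-th power, so `z = inl w` and `w ^ n = 1` (`free_tf`). -/
theorem sd_tf {α : Type} (φ : Multiplicative ℤ →* MulAut (FreeGroup α))
    (z : FreeGroup α ⋊[φ] Multiplicative ℤ) (n : ℕ) (hn : 0 < n) (h : z ^ n = 1) : z = 1 := by
  have h1 : z.right ^ n = 1 := by
    have h2 := congrArg (SemidirectProduct.rightHom : FreeGroup α ⋊[φ] Multiplicative ℤ →* Multiplicative ℤ) h
    rw [map_pow, map_one] at h2
    exact h2
  have h3 : z.right = 1 := by
    have h4 := congrArg Multiplicative.toAdd h1
    rw [toAdd_pow, toAdd_one, nsmul_eq_mul, mul_eq_zero] at h4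
    rcases h4 with h4 | h4
    · exact absurd h4 (by exact_mod_cast hn.ne')
    · exact Multiplicative.toAdd.injective (h4.trans toAdd_one.symm)
  have h5 : z = SemidirectProduct.inl z.left := by
    ext
    · rw [SemidirectProduct.left_inl]
    · rw [SemidirectProduct.right_inl, h3]
  rw [h5, ← map_pow] at h
  have h6 : z.left ^ n = 1 := SemidirectProduct.inl_injective (h.trans (map_one _).symm)
  rw [h5, free_tf z.left n hn h6, map_one]
-- END sdt

-- BEGIN tfe
/-- ROW tfe. Even label: `EvA.al` with `s = false`, `t = true` is injective, as `be_al` gives `be (al z) = rt {s, t} z = z`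
(`rt_fix`, the closure of all generators is everything), and `sd_tf`. -/
theorem even_tf {N : CoxeterMatrix Bool} (k : ℕ) (hk : lab N = 2 * k) (h0 : k ≠ 0) (z : Art N) (n : ℕ)
    (hn : 0 < n) (h : z ^ n = 1) : z = 1 := by
  haveI : NeZero k := ⟨h0⟩
  have hM : EvM N := by
    intro i j hij
    have h3 : N true false = lab N := N.symmetric _ _
    have h2 : N false true = lab N := rfl
    rcases i <;> rcases j
    · exact absurd rfl hij
    · rw [h2, hk]; exact even_two_mul k
    · rw [h3, hk]; exact even_two_mul k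
    · exact absurd rfl hij
  have hst : (false : Bool) ≠ true := by decide
  obtain ⟨be, h3, h4⟩ := exists_be (M := N) false true k hk
  have hid : ∀ y : Art N, be (al hM false true hst k hk y) = y := by
    intro y
    rw [be_al hM false true hst k hk be h3 h4 y]
    apply rt_fix
    induction y using art_induction with
    | h1 => exact Subgroup.one_mem _
    | hg i => exact Subgroup.subset_closure ⟨i, by cases i <;> simp, rfl⟩
    | hm a b ha hb => exact Subgroup.mul_mem _ ha hb
    | hi a ha => exact Subgroup.inv_mem _ ha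
  have h1 : al hM false true hst k hk z = 1 := by
    apply sd_tf _ _ n hn
    rw [← map_pow, h, map_one]
  rw [← hid z, h1, map_one]
-- END tfe

section odd

variable (q : ℕ)

/-- The basis elements, `1` from `2 q` on. -/
def aa (i : ℕ) : FreeGroup (Fin (2 * q)) := if h : i < 2 * q then FreeGroup.of ⟨i, h⟩ else 1

/-- `a_0 a_2 ⋯ a_(2 q - 2)`. -/
def ev : FreeGroup (Fin (2 * q)) := ((List.range q).map (fun j => aa q (2 * j))).prod

/-- `a_1 a_3 ⋯ a_(2 q - 1)`. -/
def od : FreeGroup (Fin (2 * q)) := ((List.range q).map (fun j => aa q (2 * j + 1))).prod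

/-- The shift `a_i ↦ a_(i+1)`, `a_(2 q - 1) ↦ ev⁻¹ od`. -/
def phi : FreeGroup (Fin (2 * q)) →* FreeGroup (Fin (2 * q)) :=
  FreeGroup.lift (fun i => if i.val + 1 < 2 * q then aa q (i.val + 1) else (ev q)⁻¹ * od q)

/-- The shift back `a_i ↦ a_(i-1)`, `a_0 ↦ ev od⁻¹`. -/
def psi : FreeGroup (Fin (2 * q)) →* FreeGroup (Fin (2 * q)) :=
  FreeGroup.lift (fun i => if i.val = 0 then ev q * (od q)⁻¹ else aa q (i.val - 1))

-- BEGIN pps1
private theorem pps1_aa {i : ℕ} (h : i + 1 < 2 * q) : phi q (aa q i) = aa q (i + 1) := by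
  have h' : i < 2 * q := by omega
  have h1 : aa q i = FreeGroup.of ⟨i, h'⟩ := by unfold aa; rw [dif_pos h']
  rw [h1]
  unfold phi
  rw [FreeGroup.lift_apply_of, if_pos h]

private theorem pps1_last (h : 0 < q) : phi q (aa q (2 * q - 1)) = (ev q)⁻¹ * od q := by
  have h' : 2 * q - 1 < 2 * q := by omega
  have h1 : aa q (2 * q - 1) = FreeGroup.of ⟨2 * q - 1, h'⟩ := by unfold aa; rw [dif_pos h']
  rw [h1]
  unfold phi
  rw [FreeGroup.lift_apply_of, if_neg (by simp only; omega)]

private theorem pps1_ev : phi q (ev q) = od q := by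
  unfold od ev
  rw [map_list_prod, List.map_map]
  refine congrArg List.prod (List.map_congr_left fun j hj => ?_)
  rw [List.mem_range] at hj
  exact pps1_aa q (by omega)

private theorem pps1_od (h : 0 < q) : phi q (od q) = (aa q 0)⁻¹ * od q := by
  obtain ⟨p, hp⟩ : ∃ p, q = p + 1 := ⟨q - 1, by omega⟩
  have h1 : ev q = aa q 0 * ((List.range p).map (fun j => aa q (2 * (j + 1)))).prod := by
    have h2 : List.range q = 0 :: (List.range p).map Nat.succ := by
      rw [hp, List.range_succ_eq_map]
    unfold ev
    rw [h2, List.map_cons, List.prod_cons, List.map_map]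
    rfl
  have h3 : od q = ((List.range p).map (fun j => aa q (2 * j + 1))).prod * aa q (2 * q - 1) := by
    have h2 : List.range q = List.range p ++ [p] := by
      rw [hp, List.range_succ]
    have h4 : 2 * p + 1 = 2 * q - 1 := by omega
    unfold od
    rw [h2, List.map_append, List.prod_append, List.map_cons, List.map_nil, List.prod_singleton,
      h4]
  have h5 : phi q ((List.range p).map (fun j => aa q (2 * j + 1))).prod =
      ((List.range p).map (fun j => aa q (2 * (j + 1)))).prod := by
    rw [map_list_prod, List.map_map]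
    refine congrArg List.prod (List.map_congr_left fun j hj => ?_)
    rw [List.mem_range] at hj
    exact pps1_aa q (i := 2 * j + 1) (by omega)
  have h6 : phi q (od q) = ((List.range p).map (fun j => aa q (2 * (j + 1)))).prod *
      ((ev q)⁻¹ * od q) := by
    conv_lhs => rw [h3]
    rw [map_mul, h5, pps1_last q h]
  rw [h6]
  generalize ((List.range p).map (fun j => aa q (2 * (j + 1)))).prod = P at h1
  rw [h1]
  group

/-- ROW pps1. `phi ev = od`, `phi od = a_0⁻¹ od` (the last factor `a_(2 q - 1)` goes to `ev⁻¹ od`, the others give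
`a_2 a_4 ⋯ a_(2 q - 2) = a_0⁻¹ ev`), so `phi (ev od⁻¹) = a_0`. -/
theorem phi_psi (w : FreeGroup (Fin (2 * q))) : phi q (psi q w) = w := by
  have h : (phi q).comp (psi q) = MonoidHom.id _ := by
    refine FreeGroup.ext_hom _ _ fun i => ?_
    rw [MonoidHom.comp_apply, MonoidHom.id_apply]
    have hi := i.isLt
    have h1 : psi q (FreeGroup.of i) =
        if i.val = 0 then ev q * (od q)⁻¹ else aa q (i.val - 1) := by
      unfold psi
      rw [FreeGroup.lift_apply_of]
    rw [h1]
    split_ifs with h2
    · have hq : 0 < q := by omega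
      rw [map_mul, map_inv, pps1_ev, pps1_od q hq, mul_inv_rev, inv_inv, mul_inv_cancel_left]
      unfold aa
      rw [dif_pos (by omega)]
      congr 1
      exact Fin.ext h2.symm
    · rw [pps1_aa q (by omega)]
      have h3 : i.val - 1 + 1 = i.val := by omega
      rw [h3]
      unfold aa
      rw [dif_pos hi]
  exact congrArg (fun f : FreeGroup (Fin (2 * q)) →* FreeGroup (Fin (2 * q)) => f w) h
-- END pps1

-- BEGIN pps2
theorem pps2_aa {i : ℕ} (h : i + 1 < 2 * q) : psi q (aa q (i + 1)) = aa q i := by
  have h' : i < 2 * q := by omega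
  unfold psi aa
  rw [dif_pos h, dif_pos h', FreeGroup.lift_apply_of]
  simp only [Nat.add_eq_zero_iff, one_ne_zero, and_false, if_false, Nat.add_sub_cancel]
  rw [dif_pos h']

theorem pps2_zero (h : 0 < 2 * q) : psi q (aa q 0) = ev q * (od q)⁻¹ := by
  unfold psi aa
  rw [dif_pos h, FreeGroup.lift_apply_of]
  simp only [if_true]

theorem pps2_od : psi q (od q) = ev q := by
  unfold od ev
  rw [map_list_prod, List.map_map]
  refine congrArg List.prod (List.map_congr_left fun j hj => ?_)
  rw [List.mem_range] at hj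
  exact pps2_aa q (by omega)

theorem pps2_ev (h : 0 < q) : psi q (ev q) = ev q * (aa q (2 * q - 1))⁻¹ := by
  obtain ⟨p, hp⟩ : ∃ p, q = p + 1 := ⟨q - 1, by omega⟩
  have h1 : ev q = aa q 0 * ((List.range p).map (fun j => aa q (2 * (j + 1)))).prod := by
    have h2 : List.range q = 0 :: (List.range p).map Nat.succ := by
      rw [hp, List.range_succ_eq_map]
    unfold ev
    rw [h2, List.map_cons, List.prod_cons, List.map_map]
    rfl
  have h3 : od q = ((List.range p).map (fun j => aa q (2 * j + 1))).prod * aa q (2 * q - 1) := by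
    have h2 : List.range q = List.range p ++ [p] := by
      rw [hp, List.range_succ]
    have h4 : 2 * p + 1 = 2 * q - 1 := by omega
    unfold od
    rw [h2, List.map_append, List.prod_append, List.map_cons, List.map_nil, List.prod_singleton,
      h4]
  have h5 : psi q ((List.range p).map (fun j => aa q (2 * (j + 1)))).prod =
      ((List.range p).map (fun j => aa q (2 * j + 1))).prod := by
    rw [map_list_prod, List.map_map]
    refine congrArg List.prod (List.map_congr_left fun j hj => ?_)
    rw [List.mem_range] at hj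
    exact pps2_aa q (i := 2 * j + 1) (by omega)
  have h6 : psi q (ev q) = ev q * (od q)⁻¹ *
      ((List.range p).map (fun j => aa q (2 * j + 1))).prod := by
    conv_lhs => rw [h1]
    rw [map_mul, pps2_zero q (by omega), h5]
  rw [h6]
  conv_lhs => rw [h3]
  rw [mul_inv_rev, mul_assoc, mul_assoc, inv_mul_cancel, mul_one]

/-- ROW pps2. `psi od = ev`, `psi ev = ev a_(2 q - 1)⁻¹` (the first factor `a_0` goes to `ev od⁻¹`, the others give
`a_1 a_3 ⋯ a_(2 q - 3) = od a_(2 q - 1)⁻¹`), so `psi (ev⁻¹ od) = a_(2 q - 1)`. -/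
theorem psi_phi (w : FreeGroup (Fin (2 * q))) : psi q (phi q w) = w := by
  have h : (psi q).comp (phi q) = MonoidHom.id _ := by
    refine FreeGroup.ext_hom _ _ fun i => ?_
    rw [MonoidHom.comp_apply, MonoidHom.id_apply]
    have hi := i.isLt
    have h1 : phi q (FreeGroup.of i) =
        if i.val + 1 < 2 * q then aa q (i.val + 1) else (ev q)⁻¹ * od q := by
      unfold phi
      rw [FreeGroup.lift_apply_of]
    rw [h1]
    split_ifs with h2
    · rw [pps2_aa q h2]
      unfold aa
      rw [dif_pos hi]
    · have hq : 0 < q := by omega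
      rw [map_mul, map_inv, pps2_ev q hq, pps2_od, mul_inv_rev, inv_inv, mul_assoc,
        inv_mul_cancel, mul_one]
      have h3 : 2 * q - 1 = i.val := by omega
      unfold aa
      rw [dif_pos (by omega)]
      congr 1
      exact Fin.ext h3
  exact DFunLike.congr_fun h w
-- END pps2

/-- The automorphism. -/
def ph : MulAut (FreeGroup (Fin (2 * q))) where
  toFun := phi q
  invFun := psi q
  left_inv := psi_phi q
  right_inv := phi_psi q
  map_mul' := map_mul _

/-- The action of `ℤ`. -/
def pha : Multiplicative ℤ →* MulAut (FreeGroup (Fin (2 * q))) := zpowersHom _ (ph q)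

/-- `F ⋊ ℤ`. -/
abbrev GO : Type := FreeGroup (Fin (2 * q)) ⋊[pha q] Multiplicative ℤ

/-- The generator of `ℤ`. -/
def co : GO q := SemidirectProduct.inr (Multiplicative.ofAdd 1)

-- BEGIN cow
/-- ROW cow. `SemidirectProduct.inl_aut`. -/
theorem co_conj (w : FreeGroup (Fin (2 * q))) :
    co q * SemidirectProduct.inl w * (co q)⁻¹ = SemidirectProduct.inl (phi q w) := by
  have h1 : pha q (Multiplicative.ofAdd 1) = ph q := by
    simp [pha]
  have h2 : pha q (Multiplicative.ofAdd 1) w = phi q w := by
    rw [h1]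
    rfl
  rw [co, ← h2, SemidirectProduct.inl_aut]
  simp
-- END cow

-- BEGIN alo
private theorem alo_phi1 (i : ℕ) (h : i + 1 < 2 * q) : phi q (aa q i) = aa q (i + 1) := by
  have h0 : i < 2 * q := by omega
  have e : aa q i = FreeGroup.of ⟨i, h0⟩ := by unfold aa; rw [dif_pos h0]
  rw [e, phi, FreeGroup.lift_apply_of]
  exact if_pos h

private theorem alo_phi2 (i : ℕ) (h : i + 1 = 2 * q) : phi q (aa q i) = (ev q)⁻¹ * od q := by
  have h0 : i < 2 * q := by omega
  have e : aa q i = FreeGroup.of ⟨i, h0⟩ := by unfold aa; rw [dif_pos h0]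
  rw [e, phi, FreeGroup.lift_apply_of]
  exact if_neg (fun hh => absurd hh (by show ¬ (i + 1 < 2 * q); omega))

private theorem alo_it (i n : ℕ) (h : i + n < 2 * q) : (phi q)^[n] (aa q i) = aa q (i + n) := by
  induction n with
  | zero => rfl
  | succ n ih =>
    rw [Function.iterate_succ_apply', ih (by omega), alo_phi1 q (i + n) (by omega)]
    rfl

private theorem alo_c (w : FreeGroup (Fin (2 * q))) :
    co q * SemidirectProduct.inl w = SemidirectProduct.inl (phi q w) * co q := by
  rw [← co_conj, inv_mul_cancel_right]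

private theorem alo_cpow (n : ℕ) (w : FreeGroup (Fin (2 * q))) :
    co q ^ n * SemidirectProduct.inl w = SemidirectProduct.inl ((phi q)^[n] w) * co q ^ n := by
  induction n with
  | zero => simp
  | succ n ih =>
    rw [pow_succ', mul_assoc, ih, ← mul_assoc, alo_c, mul_assoc, ← pow_succ',
      Function.iterate_succ_apply']

private theorem alo_pw (s k : ℕ) (h : s + 2 * k ≤ 2 * q + 1) :
    ((SemidirectProduct.inl (aa q s) : GO q) * co q ^ 2) ^ k =
      SemidirectProduct.inl (((List.range k).map (fun j => aa q (2 * j + s))).prod) *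
        co q ^ (2 * k) := by
  induction k with
  | zero => simp
  | succ k ih =>
    rw [pow_succ, ih (by omega), List.range_succ, List.map_append, List.prod_append]
    have e1 : co q ^ (2 * k) * ((SemidirectProduct.inl (aa q s) : GO q) * co q ^ 2) =
        SemidirectProduct.inl (aa q (2 * k + s)) * co q ^ (2 * (k + 1)) := by
      rw [← mul_assoc, alo_cpow, alo_it q s (2 * k) (by omega), mul_assoc, ← pow_add,
        Nat.add_comm s (2 * k)]
      rfl
    rw [mul_assoc, e1, ← mul_assoc, ← map_mul]
    simp

/-- ROW alo. The braid relation for `σ = c`, `τ = a_0 c` (`altM_odd`): with `A = inl a_0`, `c A c = inl a_1 c ^ 2`, so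
`(c (A c)) ^ q c = inl (a_1 a_3 ⋯ a_(2 q - 1)) c ^ (2 q + 1)` and `((A c) c) ^ q (A c) = inl (ev * phi^(2 q) a_0) c ^ (2 q + 1)`,
`phi^(2 q) a_0 = ev⁻¹ od`. -/
theorem alo_rel (hq : 0 < q) : altM (co q) (SemidirectProduct.inl (aa q 0) * co q) (2 * q + 1) =
    altM (SemidirectProduct.inl (aa q 0) * co q) (co q) (2 * q + 1) := by
  rw [altM_odd, altM_odd]
  have e1 : co q * ((SemidirectProduct.inl (aa q 0) : GO q) * co q) =
      SemidirectProduct.inl (aa q 1) * co q ^ 2 := by
    rw [← mul_assoc, alo_c, alo_phi1 q 0 (by omega), mul_assoc, ← sq]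
  have e2 : ((SemidirectProduct.inl (aa q 0) : GO q) * co q) * co q =
      SemidirectProduct.inl (aa q 0) * co q ^ 2 := by
    rw [mul_assoc, ← sq]
  rw [e1, e2, alo_pw q 1 q (by omega), alo_pw q 0 q (by omega)]
  have e3 : (((List.range q).map (fun j => aa q (2 * j + 1))).prod) = od q := rfl
  have e4 : (((List.range q).map (fun j => aa q (2 * j + 0))).prod) = ev q := rfl
  have e5 : (phi q)^[2 * q] (aa q 0) = (ev q)⁻¹ * od q := by
    have h0 : (phi q)^[2 * q] (aa q 0) = (phi q)^[(2 * q - 1) + 1] (aa q 0) :=
      congrArg (fun k => (phi q)^[k] (aa q 0)) (by omega)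
    rw [h0, Function.iterate_succ_apply', alo_it q 0 (2 * q - 1) (by omega),
      alo_phi2 q (0 + (2 * q - 1)) (by omega)]
  rw [e3, e4, mul_assoc (SemidirectProduct.inl (ev q)), ← mul_assoc (co q ^ (2 * q)), alo_cpow, e5,
    mul_assoc (SemidirectProduct.inl ((ev q)⁻¹ * od q)), ← mul_assoc (SemidirectProduct.inl (ev q)),
    ← map_mul, mul_inv_cancel_left, mul_assoc]
-- END alo

end odd

/-- The homomorphism for an odd label. -/
def alo {N : CoxeterMatrix Bool} (q : ℕ) (hq : 0 < q) (hk : lab N = 2 * q + 1) : Art N →* GO q :=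
  artLift (fun g => if g then SemidirectProduct.inl (aa q 0) * co q else co q) (by
    intro i j _
    have h2 := alo_rel q hq
    have h3 : N true false = lab N := N.symmetric _ _
    rcases i <;> rcases j
    · rfl
    · simp only [Bool.false_eq_true, if_true, if_false]
      rw [show N false true = 2 * q + 1 from hk]; exact h2
    · simp only [Bool.false_eq_true, if_true, if_false]
      rw [h3, hk]; exact h2.symm
    · rfl)

theorem alo_f {N : CoxeterMatrix Bool} (q : ℕ) (hq : 0 < q) (hk : lab N = 2 * q + 1) :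
    alo q hq hk (ag N false) = co q := by
  rw [alo, artLift_ag]; simp

theorem alo_t {N : CoxeterMatrix Bool} (q : ℕ) (hq : 0 < q) (hk : lab N = 2 * q + 1) :
    alo q hq hk (ag N true) = SemidirectProduct.inl (aa q 0) * co q := by
  rw [alo, artLift_ag]; simp

-- BEGIN bao
/-- the image of `a_i` -/
private def bao_u {H : Type} [Group H] (s t : H) (i : ℕ) : H := s ^ i * (t * s⁻¹) * (s ^ i)⁻¹

private theorem bao_u_succ {H : Type} [Group H] (s t : H) (i : ℕ) :
    s * bao_u s t i * s⁻¹ = bao_u s t (i + 1) := by
  unfold bao_u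
  rw [pow_succ']
  group

/-- the homomorphism on the free group -/
private noncomputable def bao_fn {H : Type} [Group H] (q : ℕ) (s t : H) : FreeGroup (Fin (2 * q)) →* H :=
  FreeGroup.lift (fun i => bao_u s t i.val)

private theorem bao_aa {H : Type} [Group H] (q : ℕ) (s t : H) (i : ℕ) (h : i < 2 * q) :
    bao_fn q s t (aa q i) = bao_u s t i := by
  unfold bao_fn aa
  rw [dif_pos h, FreeGroup.lift_apply_of]

private theorem bao_ev {H : Type} [Group H] (q : ℕ) (s t : H) (n : ℕ) (hn : n ≤ q) :
    bao_fn q s t (((List.range n).map (fun j => aa q (2 * j))).prod) =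
      (t * s) ^ n * (s ^ (2 * n))⁻¹ := by
  induction n with
  | zero => simp
  | succ n ih =>
    rw [List.range_succ, List.map_append, List.prod_append, map_mul, ih (by omega), List.map_singleton,
      List.prod_singleton, bao_aa q s t _ (by omega)]
    unfold bao_u
    rw [pow_succ (t * s), show 2 * (n + 1) = 2 * n + 1 + 1 by ring, pow_succ' s (2 * n + 1), pow_succ' s (2 * n)]
    group

private theorem bao_od {H : Type} [Group H] (q : ℕ) (s t : H) (n : ℕ) (hn : n ≤ q) :
    bao_fn q s t (((List.range n).map (fun j => aa q (2 * j + 1))).prod) =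
      (s * t) ^ n * (s ^ (2 * n))⁻¹ := by
  induction n with
  | zero => simp
  | succ n ih =>
    rw [List.range_succ, List.map_append, List.prod_append, map_mul, ih (by omega), List.map_singleton,
      List.prod_singleton, bao_aa q s t _ (by omega)]
    unfold bao_u
    rw [pow_succ (s * t), show 2 * (n + 1) = 2 * n + 1 + 1 by ring, pow_succ' s (2 * n + 1), pow_succ' s (2 * n)]
    group

private theorem bao_phi {H : Type} [Group H] (q : ℕ) (s t : H)
    (hr : (s * t) ^ q * s = (t * s) ^ q * t) (w : FreeGroup (Fin (2 * q))) :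
    bao_fn q s t (phi q w) = s * bao_fn q s t w * s⁻¹ := by
  have h1 : (bao_fn q s t).comp (phi q) = (MulAut.conj s).toMonoidHom.comp (bao_fn q s t) := by
    apply FreeGroup.ext_hom
    intro i
    show bao_fn q s t (phi q (FreeGroup.of i)) = s * bao_fn q s t (FreeGroup.of i) * s⁻¹
    have h2 : bao_fn q s t (FreeGroup.of i) = bao_u s t i.val := by
      unfold bao_fn
      rw [FreeGroup.lift_apply_of]
    rw [h2, bao_u_succ]
    unfold phi
    rw [FreeGroup.lift_apply_of]
    by_cases hi : i.val + 1 < 2 * q
    · rw [if_pos hi, bao_aa q s t _ hi]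
    · have hi2 : i.val + 1 = 2 * q := by
        have h3 := i.isLt
        omega
      rw [if_neg hi, map_mul, map_inv, hi2]
      have he : bao_fn q s t (ev q) = (t * s) ^ q * (s ^ (2 * q))⁻¹ := bao_ev q s t q le_rfl
      have ho : bao_fn q s t (od q) = (s * t) ^ q * (s ^ (2 * q))⁻¹ := bao_od q s t q le_rfl
      rw [he, ho, inv_mul_eq_iff_eq_mul]
      unfold bao_u
      have h4 : (s * t) ^ q = (t * s) ^ q * t * s⁻¹ := by
        rw [← hr, mul_inv_cancel_right]
      rw [h4]
      group
  exact DFunLike.congr_fun h1 w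

private theorem bao_pow {H : Type} [Group H] (q : ℕ) (s t : H)
    (hr : (s * t) ^ q * s = (t * s) ^ q * t) (n : ℤ) :
    ∀ w : FreeGroup (Fin (2 * q)), bao_fn q s t ((ph q ^ n) w) = s ^ n * bao_fn q s t w * (s ^ n)⁻¹ := by
  have h1 : ∀ w : FreeGroup (Fin (2 * q)), bao_fn q s t (ph q w) = s * bao_fn q s t w * s⁻¹ :=
    fun w => bao_phi q s t hr w
  induction n using Int.induction_on with
  | zero =>
    intro w
    rw [zpow_zero, zpow_zero, one_mul, inv_one, mul_one]
    rfl
  | succ n ih =>
    intro w
    rw [zpow_add_one, MulAut.mul_apply, ih, h1, zpow_add_one]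
    group
  | pred n ih =>
    intro w
    have h2 : bao_fn q s t ((ph q)⁻¹ w) = s⁻¹ * bao_fn q s t w * s := by
      have h3 := h1 ((ph q)⁻¹ w)
      rw [MulAut.apply_inv_self] at h3
      rw [h3]
      group
    rw [zpow_sub_one, MulAut.mul_apply, ih, h2, zpow_sub_one]
    group

/-- ROW bao. The way back: `SemidirectProduct.lift` with `a_i ↦ σ ^ i τ σ ^ (-i-1)` and `c ↦ σ`. The compatibility is checked on
the basis; for `a_(2 q - 1)` it is `(σ τ) ^ q σ = (τ σ) ^ q τ` in the form
`(image of od) = (image of ev) * σ ^ (2 q) τ σ ^ (-2 q - 1)`. -/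
theorem exists_bao {N : CoxeterMatrix Bool} (q : ℕ) (hq : 0 < q) (hk : lab N = 2 * q + 1) :
    ∃ b : GO q →* Art N, b (co q) = ag N false ∧
      b (SemidirectProduct.inl (aa q 0)) = ag N true * (ag N false)⁻¹ := by
  have hr : (ag N false * ag N true) ^ q * ag N false = (ag N true * ag N false) ^ q * ag N true := by
    have h1 := art_braid (M := N) false true (by
      show lab N ≠ 0
      omega)
    rw [show N false true = 2 * q + 1 from hk, altM_odd, altM_odd] at h1
    exact h1
  have hcomp : ∀ g : Multiplicative ℤ, (bao_fn q (ag N false) (ag N true)).comp (pha q g).toMonoidHom =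
      (MulAut.conj (zpowersHom (Art N) (ag N false) g)).toMonoidHom.comp
        (bao_fn q (ag N false) (ag N true)) := by
    intro g
    apply MonoidHom.ext
    intro w
    exact bao_pow q (ag N false) (ag N true) hr (Multiplicative.toAdd g) w
  refine ⟨SemidirectProduct.lift (bao_fn q (ag N false) (ag N true)) (zpowersHom (Art N) (ag N false)) hcomp,
    ?_, ?_⟩
  · unfold co
    rw [SemidirectProduct.lift_inr, zpowersHom_apply, toAdd_ofAdd, zpow_one]
  · rw [SemidirectProduct.lift_inl, bao_aa q _ _ 0 (by omega)]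
    unfold bao_u
    rw [pow_zero, one_mul, inv_one, mul_one]
-- END bao

/-- Dihedral Artin groups are torsion free. -/
theorem dih_tf {N : CoxeterMatrix Bool} (h3 : 3 ≤ lab N) (z : Art N) (n : ℕ) (hn : 0 < n)
    (h : z ^ n = 1) : z = 1 := by
  obtain ⟨q, hq⟩ := (lab N).even_or_odd'
  rcases hq with hq | hq
  · exact even_tf q hq (by omega) z n hn h
  · have hq0 : 0 < q := by omega
    obtain ⟨b, hb1, hb2⟩ := exists_bao q hq0 hq
    have hid : ∀ z : Art N, b (alo q hq0 hq z) = z := by
      intro z
      induction z using art_induction with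
      | h1 => rw [map_one, map_one]
      | hg i =>
        cases i
        · rw [alo_f, hb1]
        · rw [alo_t, map_mul, hb1, hb2, inv_mul_cancel_right]
      | hm a b ha hb => rw [map_mul, map_mul, ha, hb]
      | hi a ha => rw [map_inv, map_inv, ha]
    have h1 : alo q hq0 hq z = 1 := by
      apply sd_tf _ _ n hn
      rw [← map_pow, h, map_one]
    rw [← hid z, h1, map_one]

end Pool.Agent.LRed
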