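import Pool.Agent.LRed.Main
import Pool.Agent.LRed.Cen

/-!
The retraction on elements which are not pure.
-/

set_option autoImplicit false

namespace Pool.Agent.LRed

open CoxeterSystem Pool.Agent.ArtSph Pool.Agent.FBuild Pool.Agent.EvA

variable {B : Type} [Fintype B] {M : CoxeterMatrix B}

-- BEGIN psp
/-- ROW psp. `coc_mul`, `coc_self` at `1`, then `coc u l₂ = coc 1 l₂ = 1` for `u = theta (artMap a) ∈ Wt` (`coc_left`,
`theta_artMap_mem`) and `l₂` without letters of `t` (compare the row `cmp`: `coc_conj` with `d = 1`, `V = Y \ Set.range t`, where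
`DIdx` is empty). -/
theorem pc_split {C : Type} (t : C → B) (ht : Function.Injective t) {Z : Set B}
    (hZ : ∀ c, t c ∉ Z) (a : Art (pullM M t ht)) {l₂ : Art M}
    (hl : l₂ ∈ Subgroup.closure (ag M '' Z)) :
    pc M t ht 1 (artMap t (pull_lab M t ht) a * l₂) = a := by
  set cs := M.toCoxeterSystem with hcs
  have hd : IsRed cs t 1 := fun c => one_asc cs _
  have hdV : ∀ v ∈ Z, Asc cs (1 : M.Group)⁻¹ v := fun v _ => by
    rw [inv_one]
    exact one_asc cs _
  have hsub : Function.Injective (Subtype.val : DIdx cs t Z 1 → C) := Subtype.val_injective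
  have hmem : ∀ v ∈ Z, cs.simple v ∈ Subgroup.closure (cs.simple '' Z) :=
    fun v hv => Subgroup.subset_closure ⟨v, hv, rfl⟩
  have hemp : IsEmpty (DIdx cs t Z 1) := by
    refine ⟨fun e => ?_⟩
    obtain ⟨c, v, hv, he⟩ := e
    rw [mul_one, one_mul] at he
    have h1 : t c = v := simple_inj cs he
    exact hZ c (by rw [h1]; exact hv)
  have ht1 : Function.Injective (dmap cs t Z 1) := fun e => hemp.elim e
  have hlab : ∀ e e', (pullM M (dmap cs t Z 1) ht1) e e' = (pullM M t ht) e.1 e'.1 :=
    fun e => hemp.elim e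
  have key := coc_conj (cs := cs) (N := pullM M t ht) (N' := pullM M (dmap cs t Z 1) ht1)
    (j := (Subtype.val : DIdx cs t Z 1 → C)) (d := 1) ht hsub (pull_lab M t ht) ht1
    (pull_lab M _ ht1) hlab hd (fun e => dmap_eq e) (Subgroup.closure (cs.simple '' Z))
    (fun e => hmem _ (dmap_mem e)) (dout hd hdV) Z hmem hl (y := 1) (one_mem _)
  have hone : ∀ b : Art (pullM M (dmap cs t Z 1) ht1), b = 1 := by
    intro b
    induction b using art_induction with
    | h1 => rfl
    | hg i => exact hemp.elim i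
    | hm a b ha hb => rw [ha, hb, one_mul]
    | hi a ha => rw [ha, inv_one]
  rw [hone (coc cs ht1 (pull_lab M _ ht1) 1 l₂), map_one, mul_one] at key
  unfold pc
  rw [coc_mul, coc_self _ _ _ (Subgroup.one_mem _), one_mul]
  have h4 : coc cs ht (pull_lab M t ht) (theta cs (artMap t (pull_lab M t ht) a) * 1) l₂ =
      coc cs ht (pull_lab M t ht) 1 l₂ :=
    coc_left cs ht (pull_lab M t ht) (theta_artMap_mem cs (pull_lab M t ht) a) 1 l₂
  rw [mul_one] at h4
  rw [h4, key, mul_one]
-- END psp

/-- The retraction of a power. -/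
theorem pc_pow {C : Type} (t : C → B) (ht : Function.Injective t) {Y : Set B}
    (hY : ∀ c, t c ∈ Y) (hcomm : ∀ c, ∀ y ∈ Y, y ∉ Set.range t → M (t c) y = 2) {l : Art M}
    (hl : l ∈ Subgroup.closure (ag M '' Y)) (n : ℕ) :
    pc M t ht 1 (l ^ n) = pc M t ht 1 l ^ n := by
  obtain ⟨l₂, h1, h2, h3⟩ := comp_split t ht hY hcomm hl
  have h4 : l ^ n = artMap t (pull_lab M t ht) (pc M t ht 1 l ^ n) * l₂ ^ n := by
    have h5 : Commute (artMap t (pull_lab M t ht) (pc M t ht 1 l)) l₂ := h3 _
    rw [map_pow, ← h5.mul_pow, ← h2]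
  rw [h4]
  exact pc_split t ht (Z := Y \ Set.range t) (fun c hc => hc.2 ⟨c, rfl⟩) _
    (Subgroup.pow_mem _ h1 n)

-- BEGIN utf
/-- ROW utf. As the row `unf`. -/
theorem unit_tf {N : CoxeterMatrix Unit} (x : Art N) (n : ℕ) (hn : 0 < n) (h : x ^ n = 1) : x = 1 := by
  have hz : ∃ k : ℤ, x = ag N () ^ k := by
    clear h
    induction x using art_induction with
    | h1 => exact ⟨0, (zpow_zero _).symm⟩
    | hg i => exact ⟨1, (zpow_one _).symm⟩
    | hm a b ha hb =>
      obtain ⟨k, rfl⟩ := ha
      obtain ⟨l, rfl⟩ := hb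
      exact ⟨k + l, (zpow_add _ _ _).symm⟩
    | hi a ha =>
      obtain ⟨k, rfl⟩ := ha
      exact ⟨-k, (zpow_neg _ _).symm⟩
  have h0 : ∀ k : ℤ, ag N () ^ k = 1 → k = 0 := by
    intro k hk
    by_contra hne
    obtain ⟨m, rfl | rfl⟩ := Int.eq_nat_or_neg k
    · rw [zpow_natCast] at hk
      exact pow_ne (M := N) () m (by omega) hk
    · rw [zpow_neg, inv_eq_one, zpow_natCast] at hk
      exact pow_ne (M := N) () m (by omega) hk
  obtain ⟨k, rfl⟩ := hz
  have h1 : k * (n : ℤ) = 0 := by
    apply h0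
    rw [zpow_mul, zpow_natCast]
    exact h
  have h2 : k = 0 := by
    rcases mul_eq_zero.mp h1 with h3 | h3
    · exact h3
    · exact absurd h3 (by omega)
  rw [h2, zpow_zero]
-- END utf

omit [Fintype B] in
theorem mem_Wt_val {V : Set B} {u : M.Group} :
    u ∈ Wt M.toCoxeterSystem (Subtype.val : V → B) ↔ u ∈ Subgroup.closure (M.simple '' V) := by
  have h1 : (Set.range fun c : V => M.toCoxeterSystem.simple c) = M.simple '' V := by
    ext x
    constructor
    · rintro ⟨c, rfl⟩
      exact ⟨c, c.2, rfl⟩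
    · rintro ⟨c, hc, rfl⟩
      exact ⟨⟨c, hc⟩, rfl⟩
  unfold Wt
  rw [h1]

omit [Fintype B] in
/-- The inclusions of the Artin and of the Coxeter groups commute with the natural maps. -/
theorem th_artMap {V : Set B} (x : Art (pullM M (Subtype.val : V → B) Subtype.val_injective)) :
    th M (artMap (Subtype.val : V → B) (pull_lab M _ Subtype.val_injective) x) =
      incl M.toCoxeterSystem (pull_lab M (Subtype.val : V → B) Subtype.val_injective)
        (th (pullM M (Subtype.val : V → B) Subtype.val_injective) x) := by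
  induction x using art_induction with
  | h1 => simp only [map_one]
  | hg i =>
    rw [artMap_ag]
    have h1 : th M (ag M (i : B)) = M.simple i := theta_ag _ _
    have h2 : th (pullM M (Subtype.val : V → B) Subtype.val_injective)
        (ag (pullM M (Subtype.val : V → B) Subtype.val_injective) i) =
        (pullM M (Subtype.val : V → B) Subtype.val_injective).simple i := theta_ag _ _
    rw [h1, h2]
    exact (incl_simple (cs := M.toCoxeterSystem)
      (pull_lab M (Subtype.val : V → B) Subtype.val_injective) i).symm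
  | hm a b ha hb => simp only [map_mul, ha, hb]
  | hi a ha => simp only [map_inv, ha]

-- BEGIN fn2
private theorem fn2_lift {Y : Set B} {l : Art M} (hl : l ∈ Subgroup.closure (ag M '' Y)) :
    ∃ l₁ : Art (pullM M (Subtype.val : Y → B) Subtype.val_injective),
      artMap (Subtype.val : Y → B) (pull_lab M _ Subtype.val_injective) l₁ = l := by
  induction hl using Subgroup.closure_induction with
  | mem x hx =>
    obtain ⟨v, hv, rfl⟩ := hx
    exact ⟨ag _ ⟨v, hv⟩, artMap_ag _ _ _⟩
  | one => exact ⟨1, map_one _⟩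
  | mul x y _ _ hx hy =>
    obtain ⟨x₁, hx₁⟩ := hx
    obtain ⟨y₁, hy₁⟩ := hy
    exact ⟨x₁ * y₁, by rw [map_mul, hx₁, hy₁]⟩
  | inv x _ hx =>
    obtain ⟨x₁, hx₁⟩ := hx
    exact ⟨x₁⁻¹, by rw [map_inv, hx₁]⟩

private theorem fn2_Wt {V : Set B} {u : M.Group} (hu : u ∈ Subgroup.closure (M.simple '' V)) :
    u ∈ Wt M.toCoxeterSystem (Subtype.val : V → B) := by
  have h1 : (Set.range fun c : V => M.toCoxeterSystem.simple c) = M.simple '' V := by
    ext x
    constructor
    · rintro ⟨c, rfl⟩
      exact ⟨c, c.2, rfl⟩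
    · rintro ⟨c, hc, rfl⟩
      exact ⟨⟨c, hc⟩, rfl⟩
  unfold Wt
  rw [h1]
  exact hu

/-- The retraction of `b * l * b⁻¹` is conjugate to `b * l * b⁻¹` (typed by helper39 for pure `l`). By `dbl` for
`g = w₀ * th M b`; `pc (b * l * b⁻¹) = pc b * pc (w₀ * th b) l * (pc b)⁻¹` by `coc_mul`, `coc_inv`, `coc_left`;
`pc (u * (d * y)) l = pc (d * y) l = artMap j l₁` (`coc_left`, `coc_conj`, `coc_self`), and this is `L d * l * (L d)⁻¹` for the
positive lift `L` of `exists_lift`. -/
theorem final2 {V Y : Set B} (w₀ : M.Group) (hw : ∀ v ∈ V, Asc M.toCoxeterSystem w₀ v) {b l : Art M}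
    (hl : l ∈ Subgroup.closure (ag M '' Y))
    (h : ∀ x ∈ Subgroup.closure (M.simple '' Y),
      (w₀ * th M b) * x * (w₀ * th M b)⁻¹ ∈ Subgroup.closure (M.simple '' V)) :
    ∃ e : Art M, th M e = w₀ ∧
      artMap (Subtype.val : V → B) (pull_lab M _ Subtype.val_injective)
      (pc M (Subtype.val : V → B) Subtype.val_injective w₀ (b * l * b⁻¹)) =
        e * (b * l * b⁻¹) * e⁻¹ := by
  classical
  obtain ⟨u, hu, d, y, hy, hg, hdV, hdY, j, hj, hjs⟩ := dbl (w₀ * th M b) h
  obtain ⟨L, hL0, hL1, hL2⟩ := exists_lift (M := M)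
  obtain ⟨l₁, hl₁⟩ := fn2_lift hl
  set cs := M.toCoxeterSystem with hcs
  have heq : ∀ e : Y, cs.simple ((j e : V) : B) * d = d * cs.simple (e : B) := hjs
  have hlab : ∀ e e', (pullM M (Subtype.val : Y → B) Subtype.val_injective) e e' =
      (pullM M (Subtype.val : V → B) Subtype.val_injective) (j e) (j e') :=
    fun e e' => (label_conj (cs := cs) (t := (Subtype.val : V → B))
      (N := pullM M (Subtype.val : V → B) Subtype.val_injective) (j := j) (t' := (Subtype.val : Y → B))
      (pull_lab M _ Subtype.val_injective) heq e e').symm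
  have hd : IsRed cs (Subtype.val : V → B) d := fun c => hdV c c.2
  have hout : ∀ c : V, c ∉ Set.range j → ∀ y ∈ Subgroup.closure (cs.simple '' Y),
      Asc cs (d * y) (c : B) := by
    intro c hc y hy
    by_contra hcon
    obtain ⟨v, hv, h1⟩ := double_coset (cs := cs) (hdV c c.2) hdY hy hcon
    apply hc
    refine ⟨⟨v, hv⟩, ?_⟩
    apply Subtype.ext
    apply simple_inj cs
    exact mul_right_cancel ((heq ⟨v, hv⟩).trans h1.symm)
  have key := coc_conj (cs := cs) (N := pullM M (Subtype.val : V → B) Subtype.val_injective)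
    (N' := pullM M (Subtype.val : Y → B) Subtype.val_injective) (j := j) (d := d)
    (t := (Subtype.val : V → B)) (t' := (Subtype.val : Y → B))
    Subtype.val_injective hj (pull_lab M _ Subtype.val_injective) Subtype.val_injective
    (pull_lab M _ Subtype.val_injective) hlab hd heq (Subgroup.closure (cs.simple '' Y))
    (fun e => Subgroup.subset_closure ⟨e, e.2, rfl⟩) hout Y
    (fun v hv => Subgroup.subset_closure ⟨v, hv, rfl⟩) hl hy
  have hself : coc cs (N := pullM M (Subtype.val : Y → B) Subtype.val_injective)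
      Subtype.val_injective (pull_lab M _ Subtype.val_injective) y l = l₁ := by
    rw [← hl₁]
    exact coc_self cs _ _ (fn2_Wt hy) l₁
  have hpc : pc M (Subtype.val : V → B) Subtype.val_injective (w₀ * th M b) l =
      artMap j hlab l₁ := by
    rw [hg]
    unfold pc
    rw [coc_left cs _ _ (fn2_Wt hu), key, hself]
  have hconj : ∀ a : Art (pullM M (Subtype.val : Y → B) Subtype.val_injective),
      artMap (Subtype.val : V → B) (pull_lab M _ Subtype.val_injective) (artMap j hlab a) * L d =
        L d * artMap (Subtype.val : Y → B) (pull_lab M _ Subtype.val_injective) a := by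
    intro a
    induction a using art_induction with
    | h1 => rw [map_one, map_one, map_one, one_mul, mul_one]
    | hg i =>
      rw [artMap_ag, artMap_ag, artMap_ag, ← hL1 d _ (hdV _ (j i).2), ← hL2 d _ (hdY _ i.2), hjs i]
    | hm a a' ha ha' =>
      rw [map_mul, map_mul, map_mul, mul_assoc, ha', ← mul_assoc, ha, mul_assoc]
    | hi a ha =>
      rw [map_inv, map_inv, map_inv, inv_mul_eq_iff_eq_mul, ← mul_assoc, ha, mul_inv_cancel_right]
  have h2 : artMap (Subtype.val : V → B) (pull_lab M _ Subtype.val_injective) (artMap j hlab l₁) =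
      L d * l * (L d)⁻¹ := by
    rw [← hl₁, ← hconj l₁, mul_inv_cancel_right]
  -- the image of the conjugating element
  have hdy : ∀ x ∈ Subgroup.closure (M.simple '' Y), d * x * d⁻¹ ∈
      Subgroup.closure (M.simple '' V) := by
    apply conj_closure
    intro s hs
    have h3 : d * M.simple s * d⁻¹ = M.simple ((j ⟨s, hs⟩ : V) : B) := by
      have h4 : M.simple ((j ⟨s, hs⟩ : V) : B) * d = d * M.simple s := hjs ⟨s, hs⟩
      rw [← h4, mul_inv_cancel_right]
    rw [h3]
    exact Subgroup.subset_closure ⟨_, (j ⟨s, hs⟩).2, rfl⟩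
  have hr0 : IsRed cs (Subtype.val : V → B) w₀ := fun c => hw c c.2
  have hred : red cs (Subtype.val : V → B) (w₀ * theta cs b) = d := by
    have h3 : w₀ * theta cs b = (u * (d * y * d⁻¹)) * d := by
      have h4 : w₀ * theta cs b = u * (d * y) := hg
      rw [h4]; group
    rw [h3]
    exact red_eq (N := pullM M (Subtype.val : V → B) Subtype.val_injective)
      (pull_lab M _ Subtype.val_injective)
      ((Wt cs _).mul_mem (mem_Wt_val.2 hu) (mem_Wt_val.2 (hdy y hy))) hd
  have hthb : th M (artMap (Subtype.val : V → B) (pull_lab M _ Subtype.val_injective)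
      (pc M (Subtype.val : V → B) Subtype.val_injective w₀ b)) = w₀ * th M b * d⁻¹ := by
    rw [th_artMap]
    have h3 := coc_theta (cs := cs) (N := pullM M (Subtype.val : V → B)
      Subtype.val_injective) Subtype.val_injective (pull_lab M _ Subtype.val_injective) w₀ b
    rw [hred, red_of_isRed (N := pullM M (Subtype.val : V → B) Subtype.val_injective)
      (pull_lab M _ Subtype.val_injective) hr0] at h3
    exact h3
  refine ⟨artMap (Subtype.val : V → B) (pull_lab M _ Subtype.val_injective)
    (pc M (Subtype.val : V → B) Subtype.val_injective w₀ b) * L d * b⁻¹, ?_, ?_⟩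
  · rw [map_mul, map_mul, map_inv, hthb, hL0]
    group
  have hsplit : pc M (Subtype.val : V → B) Subtype.val_injective w₀ (b * l * b⁻¹) =
      pc M (Subtype.val : V → B) Subtype.val_injective w₀ b *
        pc M (Subtype.val : V → B) Subtype.val_injective (w₀ * th M b) l *
        (pc M (Subtype.val : V → B) Subtype.val_injective w₀ b)⁻¹ := by
    unfold pc
    rw [coc_mul, coc_mul, coc_inv]
    have h3 : w₀ * theta M.toCoxeterSystem (b * l) * (theta M.toCoxeterSystem b)⁻¹ =
        ((w₀ * th M b) * th M l * (w₀ * th M b)⁻¹) * w₀ := by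
      rw [map_mul]; group
    rw [h3, coc_left _ _ _ (fn2_Wt (h _ (th_mem hl)))]
  rw [hsplit, hpc, map_mul, map_mul, map_inv, h2]
  group
-- END fn2

-- BEGIN pcl
/-- ROW pcl. `coc_mul`: `pc w₀ (z * z') = pc w₀ z * pc (w₀ * th z) z'`, `w₀ * th z = v * w₀` with `v = w₀ * th z * w₀⁻¹ ∈ W_V`
(`Wt` of the inclusion of `V` is the closure of `M.simple '' V`), `coc_left`. -/
theorem pc_mul_of {V : Set B} (w₀ : M.Group) (z z' : Art M)
    (h : w₀ * th M z * w₀⁻¹ ∈ Subgroup.closure (M.simple '' V)) :
    pc M (Subtype.val : V → B) Subtype.val_injective w₀ (z * z') =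
      pc M (Subtype.val : V → B) Subtype.val_injective w₀ z *
        pc M (Subtype.val : V → B) Subtype.val_injective w₀ z' := by
  have hs : M.simple '' V =
      Set.range (fun c : V => M.toCoxeterSystem.simple ((Subtype.val : V → B) c)) := by
    ext y
    constructor
    · rintro ⟨b, hb, rfl⟩
      exact ⟨⟨b, hb⟩, by rw [CoxeterMatrix.toCoxeterSystem_simple]⟩
    · rintro ⟨c, rfl⟩
      exact ⟨c.1, c.2, by simp only [CoxeterMatrix.toCoxeterSystem_simple]⟩
  have hw : w₀ * th M z * w₀⁻¹ ∈ Wt M.toCoxeterSystem (Subtype.val : V → B) := by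
    unfold Wt
    rw [← hs]
    exact h
  have e : w₀ * theta M.toCoxeterSystem z = (w₀ * th M z * w₀⁻¹) * w₀ := by
    rw [inv_mul_cancel_right]
  unfold pc
  rw [coc_mul, e, coc_left _ _ _ hw]
-- END pcl

end Pool.Agent.LRed
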