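import Pool.Agent.ArtSph.Fin
import Pool.Agent.ArtSph.Norm
import Pool.Agent.FBP.Mats
import Pool.Agent.LRed.Dif

/-!
Supports of the retractions, lifts of minimal double coset representatives.
-/

set_option autoImplicit false

namespace Pool.Agent.LRed

open CoxeterSystem Pool.Agent.ArtSph Pool.Agent.FBuild Pool.Agent.EvA Polynomial

section incl

variable {B W C : Type} [Group W] {M : CoxeterMatrix B} {cs : CoxeterSystem M W} {t : C → B}
  {N : CoxeterMatrix C}

-- BEGIN inj
/-- ROW inj. If `incl x = 1`, `x = wordProd ω`: as in the proof of `red_uniq` (`game_comap` with the all-one vector,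
`incl_wordProd`, `eq_one_of_pos`). -/
theorem incl_inj (hN : ∀ c c', N c c' = M (t c) (t c')) : Function.Injective (incl cs hN) := by
  rw [injective_iff_map_eq_one]
  intro x hx
  obtain ⟨ω, rfl⟩ := N.toCoxeterSystem.wordProd_surjective x
  have h1 := game_comap cs N.toCoxeterSystem t hN ω (fun _ => (1 : ℝ))
  rw [incl_wordProd] at hx
  rw [hx] at h1
  apply eq_one_of_pos N.toCoxeterSystem (fun _ => (1 : ℝ)) (fun _ => one_pos)
  intro c
  rw [← congrFun h1 c, map_one]
  exact one_pos
-- END inj

-- BEGIN cth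
/-- ROW cth. `art_induction` on `a`. Generator `s`: if `s_(t c) * red w = red w * s` for some `c` then `step = ag c`
(`step_eq`) and `red (w s) = red w` (`red_dec`, `red_eq`); otherwise `step = 1` (`step_eq_one`) and `red w * s` is reduced by
`deodhar`, so `red (w s) = red w * s`. -/
theorem coc_theta [Fintype B] (ht : Function.Injective t) (hN : ∀ c c', N c c' = M (t c) (t c')) (w : W)
    (a : Art M) : incl cs hN (theta N.toCoxeterSystem (coc cs ht hN w a)) =
      red cs t w * theta cs a * (red cs t (w * theta cs a))⁻¹ := by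
  induction a using art_induction generalizing w with
  | h1 => rw [coc_one, map_one, map_one, map_one, mul_one, mul_one, mul_inv_cancel]
  | hg s =>
    rw [coc_ag, theta_ag]
    obtain ⟨u, hu, hw⟩ := red_dec cs t w
    by_cases h : ∃ c, cs.simple (t c) * red cs t w = red cs t w * cs.simple s
    · obtain ⟨c, hc⟩ := h
      rw [step_eq ht hc, theta_ag]
      have h1 : incl cs hN (N.toCoxeterSystem.simple c) = cs.simple (t c) := incl_simple hN c
      have h2 : red cs t (w * cs.simple s) = red cs t w := by
        have h3 : w * cs.simple s = (u * cs.simple (t c)) * red cs t w := by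
          rw [mul_assoc, hc, ← mul_assoc, ← hw]
        rw [h3]
        exact red_eq hN ((Wt cs t).mul_mem hu (simple_mem_Wt cs t c)) (red_isRed cs t w)
      rw [h1, h2, ← hc, mul_inv_cancel_right]
    · push Not at h
      rw [step_eq_one h, map_one, map_one]
      have h2 : red cs t (w * cs.simple s) = red cs t w * cs.simple s := by
        have h3 : w * cs.simple s = u * (red cs t w * cs.simple s) := by
          rw [← mul_assoc, ← hw]
        rw [h3]
        refine red_eq hN hu (fun c => ?_)
        by_contra hc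
        exact h c (deodhar cs (red_isRed cs t w c) hc)
      rw [h2, mul_inv_cancel]
  | hm a b ha hb =>
    rw [coc_mul, map_mul, map_mul, ha, hb, map_mul, ← mul_assoc w]
    group
  | hi a ha =>
    rw [coc_inv, map_inv, map_inv, ha, map_inv, inv_mul_cancel_right]
    group
-- END cth

end incl

variable {B : Type} [Fintype B] {M : CoxeterMatrix B}

/-- The retractions of pure elements are pure. -/
theorem pc_pure {C : Type} (t : C → B) (ht : Function.Injective t) (w : M.Group) {h : Art M}
    (hh : th M h = 1) : th (pullM M t ht) (pc M t ht w h) = 1 := by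
  apply incl_inj (cs := M.toCoxeterSystem) (pull_lab M t ht)
  rw [map_one]
  have h1 := coc_theta (cs := M.toCoxeterSystem) ht (pull_lab M t ht) w h
  have h2 : theta M.toCoxeterSystem h = 1 := hh
  rw [h2, mul_one, mul_one, mul_inv_cancel] at h1
  exact h1

/-- The retractions are homomorphisms on the pure group. -/
theorem pc_pow_mul {C : Type} (t : C → B) (ht : Function.Injective t) (w : M.Group) {x : Art M}
    (hx : th M x = 1) (y : Art M) (n : ℕ) :
    pc M t ht w (x ^ n * y) = pc M t ht w x ^ n * pc M t ht w y := by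
  have hxn : ∀ n : ℕ, th M (x ^ n) = 1 := fun n => by rw [map_pow, hx, one_pow]
  have h1 : ∀ n : ℕ, pc M t ht w (x ^ n) = pc M t ht w x ^ n := by
    intro n
    induction n with
    | zero => rw [pow_zero, pow_zero]; exact coc_one _ _ _ _
    | succ n ih =>
      rw [pow_succ, pow_succ, ← ih]
      exact coc_pure_mul _ _ _ _ _ _ (hxn n)
  rw [← h1]
  exact coc_pure_mul _ _ _ _ _ _ (hxn n)

-- BEGIN sup
private theorem sup_range {C D : Type} {N : CoxeterMatrix C} {N' : CoxeterMatrix D} (j : D → C)
    (hj : ∀ e e', N' e e' = N (j e) (j e')) (b : Art N') :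
    artMap j hj b ∈ Subgroup.closure (ag N '' Set.range j) := by
  induction b using art_induction with
  | h1 => rw [map_one]; exact Subgroup.one_mem _
  | hg i => rw [artMap_ag]; exact Subgroup.subset_closure ⟨j i, ⟨i, rfl⟩, rfl⟩
  | hm p q hp hq => rw [map_mul]; exact Subgroup.mul_mem _ hp hq
  | hi p hp => rw [map_inv]; exact Subgroup.inv_mem _ hp

/-- ROW sup. Supports of the retractions: as the first half of the proof of `ArtSph.dich`. -/
theorem supp {C : Type} [Finite C] (t : C → B) (ht : Function.Injective t) (w : M.Group)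
    {V : Set B} {a k : Art M} (hk : k ∈ Subgroup.closure (ag M '' V)) (hθ : th M k = 1) :
    (∀ x ∈ Subgroup.closure (M.simple '' Set.range t),
      (w * th M a)⁻¹ * x * (w * th M a) ∈ Subgroup.closure (M.simple '' V)) ∨
    ∃ D : Set C, D ≠ Set.univ ∧ ∃ (e : Art (pullM M t ht)),
      ∃ b ∈ Subgroup.closure (ag (pullM M t ht) '' D), pc M t ht w (a * k * a⁻¹) = e * b * e⁻¹ := by
  set cs := M.toCoxeterSystem with hcs
  obtain ⟨u, hu, d, y, hy, hw, hd, hdV⟩ := exists_double cs t V (w * th M a)
  have hsub : Function.Injective (Subtype.val : DIdx cs t V d → C) := Subtype.val_injective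
  have hmem : ∀ v ∈ V, cs.simple v ∈ Subgroup.closure (cs.simple '' V) :=
    fun v hv => Subgroup.subset_closure ⟨v, hv, rfl⟩
  by_cases hall : ∀ c : C, ∃ v ∈ V, cs.simple (t c) * d = d * cs.simple v
  · left
    intro x hx
    have hWt : Wt cs t = Subgroup.closure (M.simple '' Set.range t) := by
      unfold Wt
      rw [← Set.range_comp]
      rfl
    have hx' : x ∈ Wt cs t := by rw [hWt]; exact hx
    have hconj : ∀ z ∈ Wt cs t, d⁻¹ * z * d ∈ Subgroup.closure (cs.simple '' V) := by
      intro z hz
      unfold Wt at hz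
      induction hz using Subgroup.closure_induction with
      | mem s hs =>
        obtain ⟨c, rfl⟩ := hs
        obtain ⟨v, hv, he⟩ := hall c
        have h1 : d⁻¹ * cs.simple (t c) * d = cs.simple v := by
          rw [mul_assoc, he, ← mul_assoc, inv_mul_cancel, one_mul]
        show d⁻¹ * cs.simple (t c) * d ∈ _
        rw [h1]
        exact hmem v hv
      | one => rw [mul_one, inv_mul_cancel]; exact Subgroup.one_mem _
      | mul p q _ _ hp hq =>
        have h1 : d⁻¹ * (p * q) * d = (d⁻¹ * p * d) * (d⁻¹ * q * d) := by group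
        rw [h1]
        exact Subgroup.mul_mem _ hp hq
      | inv p _ hp =>
        have h1 : d⁻¹ * p⁻¹ * d = (d⁻¹ * p * d)⁻¹ := by group
        rw [h1]
        exact Subgroup.inv_mem _ hp
    have h2 : u⁻¹ * x * u ∈ Wt cs t :=
      (Wt cs t).mul_mem ((Wt cs t).mul_mem ((Wt cs t).inv_mem hu) hx') hu
    have h3 := hconj _ h2
    have h4 : (w * th M a)⁻¹ * x * (w * th M a) = y⁻¹ * (d⁻¹ * (u⁻¹ * x * u) * d) * y := by
      rw [hw]; group
    rw [h4]
    exact Subgroup.mul_mem _ (Subgroup.mul_mem _ (Subgroup.inv_mem _ hy) h3) hy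
  · right
    have hfB : Function.Injective (dmap cs t V d) :=
      tinj_conj (cs := cs) (t := t) ht hsub (fun e => dmap_eq e)
    have hlab : ∀ e e', (pullM M (dmap cs t V d) hfB) e e' = (pullM M t ht) e.1 e'.1 :=
      fun e e' => (label_conj (cs := cs) (t := t) (N := pullM M t ht) (j := Subtype.val)
        (pull_lab M t ht) (fun e => dmap_eq e) e e').symm
    have key := coc_conj (cs := cs) (N := pullM M t ht) (N' := pullM M (dmap cs t V d) hfB)
      (j := (Subtype.val : DIdx cs t V d → C)) (d := d) ht hsub (pull_lab M t ht) hfB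
      (pull_lab M _ hfB) hlab hd (fun e => dmap_eq e) (Subgroup.closure (cs.simple '' V))
      (fun e => hmem _ (dmap_mem e)) (dout hd hdV) V hmem hk (y := y) hy
    refine ⟨Set.range (Subtype.val : DIdx cs t V d → C), ?_, pc M t ht w a,
      pc M t ht (w * th M a) k, ?_, pc_conj M t ht w a k hθ⟩
    · intro h
      apply hall
      intro c
      obtain ⟨e, rfl⟩ : c ∈ Set.range (Subtype.val : DIdx cs t V d → C) := by
        rw [h]; exact Set.mem_univ c
      exact e.2
    · rw [hw]
      have e1 : pc M t ht (u * (d * y)) k = pc M t ht (d * y) k := coc_left cs ht _ hu _ _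
      rw [e1]
      have e2 : pc M t ht (d * y) k = artMap Subtype.val hlab
          (coc cs hfB (N := pullM M (dmap cs t V d) hfB) (pull_lab M _ hfB) y k) := key
      rw [e2]
      exact sup_range _ _ _
-- END sup

-- BEGIN cmp
/-- ROW cmp. `closure_induction` gives `l = artMap t a₁ * l₂` (the letters commute by `comm_two`-like: `art_braid` for the
label `2`); `pc M t ht 1 (artMap t a₁ * l₂) = a₁ * coc (th ..) l₂` (`coc_mul`, `coc_self`), and `coc u l₂ = coc 1 l₂`
(`coc_left`, `theta_artMap_mem`) `= 1` by `coc_conj` with `d = 1`, `V = Y \ Set.range t`, where `DIdx` is empty (`simple_inj`). -/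
theorem comp_split {C : Type} (t : C → B) (ht : Function.Injective t) {Y : Set B}
    (hY : ∀ c, t c ∈ Y) (hcomm : ∀ c, ∀ y ∈ Y, y ∉ Set.range t → M (t c) y = 2) {l : Art M}
    (hl : l ∈ Subgroup.closure (ag M '' Y)) :
    ∃ l₂ ∈ Subgroup.closure (ag M '' (Y \ Set.range t)),
      l = artMap t (pull_lab M t ht) (pc M t ht 1 l) * l₂ ∧
      ∀ a, artMap t (pull_lab M t ht) a * l₂ = l₂ * artMap t (pull_lab M t ht) a := by
  have hc2 : ∀ c, ∀ y ∈ Y, y ∉ Set.range t → Commute (ag M (t c)) (ag M y) := by
    intro c y hy hyt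
    have h1 := art_braid M (t c) y (by rw [hcomm c y hy hyt]; norm_num)
    rw [hcomm c y hy hyt] at h1
    have h2 : ag M (t c) * ag M y = ag M y * ag M (t c) := by simpa [altM] using h1
    exact h2
  have hc : ∀ l₂ ∈ Subgroup.closure (ag M '' (Y \ Set.range t)), ∀ a : Art (pullM M t ht),
      Commute (artMap t (pull_lab M t ht) a) l₂ := by
    intro l₂ hl₂ a
    induction hl₂ using Subgroup.closure_induction with
    | mem x hx =>
      obtain ⟨y, ⟨hy, hyt⟩, rfl⟩ := hx
      induction a using art_induction with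
      | h1 => rw [map_one]; exact Commute.one_left _
      | hg i => rw [artMap_ag]; exact hc2 i y hy hyt
      | hm a b ha hb => rw [map_mul]; exact ha.mul_left hb
      | hi a ha => rw [map_inv]; exact ha.inv_left
    | one => exact Commute.one_right _
    | mul x z _ _ hx hz => exact hx.mul_right hz
    | inv x _ hx => exact hx.inv_right
  have hdec : ∃ a₁ : Art (pullM M t ht), ∃ l₂ ∈ Subgroup.closure (ag M '' (Y \ Set.range t)),
      l = artMap t (pull_lab M t ht) a₁ * l₂ := by
    induction hl using Subgroup.closure_induction with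
    | mem x hx =>
      obtain ⟨y, hy, rfl⟩ := hx
      by_cases hyt : y ∈ Set.range t
      · obtain ⟨c, rfl⟩ := hyt
        exact ⟨ag _ c, 1, one_mem _, by rw [artMap_ag, mul_one]⟩
      · exact ⟨1, ag M y, Subgroup.subset_closure ⟨y, ⟨hy, hyt⟩, rfl⟩, by rw [map_one, one_mul]⟩
    | one => exact ⟨1, 1, one_mem _, by rw [map_one, one_mul]⟩
    | mul x z _ _ hx hz =>
      obtain ⟨a, l₂, h2, rfl⟩ := hx
      obtain ⟨a', l₂', h2', rfl⟩ := hz
      refine ⟨a * a', l₂ * l₂', mul_mem h2 h2', ?_⟩
      have h3 := (hc l₂ h2 a').eq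
      rw [map_mul, mul_assoc, ← mul_assoc l₂, ← h3]
      simp only [mul_assoc]
    | inv x _ hx =>
      obtain ⟨a, l₂, h2, rfl⟩ := hx
      refine ⟨a⁻¹, l₂⁻¹, inv_mem h2, ?_⟩
      have h3 := (hc l₂ h2 a).eq
      rw [h3, mul_inv_rev, map_inv]
  obtain ⟨a₁, l₂, hl₂, rfl⟩ := hdec
  set cs := M.toCoxeterSystem with hcs
  set V : Set B := Y \ Set.range t with hV
  have hd : IsRed cs t 1 := fun c => one_asc cs _
  have hdV : ∀ v ∈ V, Asc cs (1 : M.Group)⁻¹ v := fun v _ => by
    rw [inv_one]
    exact one_asc cs _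
  have hsub : Function.Injective (Subtype.val : DIdx cs t V 1 → C) := Subtype.val_injective
  have hmem : ∀ v ∈ V, cs.simple v ∈ Subgroup.closure (cs.simple '' V) :=
    fun v hv => Subgroup.subset_closure ⟨v, hv, rfl⟩
  have hemp : IsEmpty (DIdx cs t V 1) := by
    refine ⟨fun e => ?_⟩
    obtain ⟨c, v, hv, he⟩ := e
    rw [mul_one, one_mul] at he
    exact hv.2 ⟨c, simple_inj cs he⟩
  have ht1 : Function.Injective (dmap cs t V 1) := fun e => hemp.elim e
  have hlab : ∀ e e', (pullM M (dmap cs t V 1) ht1) e e' = (pullM M t ht) e.1 e'.1 :=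
    fun e => hemp.elim e
  have key := coc_conj (cs := cs) (N := pullM M t ht) (N' := pullM M (dmap cs t V 1) ht1)
    (j := (Subtype.val : DIdx cs t V 1 → C)) (d := 1) ht hsub (pull_lab M t ht) ht1
    (pull_lab M _ ht1) hlab hd (fun e => dmap_eq e) (Subgroup.closure (cs.simple '' V))
    (fun e => hmem _ (dmap_mem e)) (dout hd hdV) V hmem hl₂ (y := 1) (one_mem _)
  have hone : ∀ b : Art (pullM M (dmap cs t V 1) ht1), b = 1 := by
    intro b
    induction b using art_induction with
    | h1 => rfl
    | hg i => exact hemp.elim i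
    | hm a b ha hb => rw [ha, hb, one_mul]
    | hi a ha => rw [ha, inv_one]
  rw [hone (coc cs ht1 (pull_lab M _ ht1) 1 l₂), map_one, mul_one] at key
  have hp : pc M t ht 1 (artMap t (pull_lab M t ht) a₁ * l₂) = a₁ := by
    unfold pc
    rw [coc_mul, coc_self _ _ _ (Subgroup.one_mem _), one_mul]
    have h4 : coc cs ht (pull_lab M t ht) (theta cs (artMap t (pull_lab M t ht) a₁) * 1) l₂ =
        coc cs ht (pull_lab M t ht) 1 l₂ :=
      coc_left cs ht (pull_lab M t ht) (theta_artMap_mem cs (pull_lab M t ht) a₁) 1 l₂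
    rw [mul_one] at h4
    rw [h4, key, mul_one]
  refine ⟨l₂, hl₂, ?_, fun a => (hc l₂ hl₂ a).eq⟩
  rw [hp]
-- END cmp

-- BEGIN dbl
/-- ROW dbl. `exists_double` with `t = (Subtype.val : V' → B)`: `g = u * (d * y)`. For `v ∈ V`: `x = d * s_v * d⁻¹ ∈ W_V'` (from `h` at
`y⁻¹ * s_v * y`, conjugated by `u⁻¹`), so `d * s_v = x * d` and `d * s_v` is not `V'`-reduced (else `red_uniq`: `x = 1`), and
`deodhar` gives `v'` with `s_v' * d = d * s_v`. Injective by `simple_inj`. -/
theorem dbl {V V' : Set B} (g : M.Group)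
    (h : ∀ x ∈ Subgroup.closure (M.simple '' V), g * x * g⁻¹ ∈ Subgroup.closure (M.simple '' V')) :
    ∃ u ∈ Subgroup.closure (M.simple '' V'), ∃ d : M.Group,
      ∃ y ∈ Subgroup.closure (M.simple '' V), g = u * (d * y) ∧
      (∀ v' ∈ V', Asc M.toCoxeterSystem d v') ∧ (∀ v ∈ V, Asc M.toCoxeterSystem d⁻¹ v) ∧
      ∃ j : V → V', Function.Injective j ∧ ∀ v : V, M.simple (j v) * d = d * M.simple v := by
  have hWt : Wt M.toCoxeterSystem (Subtype.val : V' → B) =
      Subgroup.closure (M.simple '' V') := by
    unfold Wt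
    congr 1
    rw [Set.image_eq_range]
    rfl
  obtain ⟨u, hu, d, y, hy, hg, hd, hdV⟩ :=
    exists_double M.toCoxeterSystem (Subtype.val : V' → B) V g
  have hy' : y ∈ Subgroup.closure (M.simple '' V) := hy
  have hu' : u ∈ Subgroup.closure (M.simple '' V') := by rw [← hWt]; exact hu
  have key : ∀ v : V, ∃ v' : V', M.simple v' * d = d * M.simple v := by
    intro v
    have hsv : M.simple (v : B) ∈ Subgroup.closure (M.simple '' V) :=
      Subgroup.subset_closure ⟨v, v.2, rfl⟩
    have h1 := h (y⁻¹ * M.simple (v : B) * y)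
      (Subgroup.mul_mem _ (Subgroup.mul_mem _ (Subgroup.inv_mem _ hy') hsv) hy')
    have h2 : d * M.simple (v : B) * d⁻¹ ∈ Subgroup.closure (M.simple '' V') := by
      have e : d * M.simple (v : B) * d⁻¹ =
          u⁻¹ * (g * (y⁻¹ * M.simple (v : B) * y) * g⁻¹) * u := by
        rw [hg]
        group
      rw [e]
      exact Subgroup.mul_mem _ (Subgroup.mul_mem _ (Subgroup.inv_mem _ hu') h1) hu'
    have h3 : ¬ IsRed M.toCoxeterSystem (Subtype.val : V' → B)
        ((d * M.simple (v : B) * d⁻¹) * d) := by
      intro h4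
      have h5 := red_uniq (pull_lab M (Subtype.val : V' → B) Subtype.val_injective)
        (by rw [hWt]; exact h2) hd h4
      have h6 : M.simple (v : B) = 1 := by
        have h7 : d * M.simple (v : B) = d := by
          have h8 := congrArg (fun z => z * d) h5
          simp only [inv_mul_cancel_right, one_mul] at h8
          exact h8
        exact mul_eq_left.1 h7
      have h9 := M.toCoxeterSystem.length_simple (v : B)
      have h10 : M.toCoxeterSystem.simple (v : B) = 1 := h6
      rw [h10, M.toCoxeterSystem.length_one] at h9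
      omega
    unfold IsRed at h3
    push Not at h3
    obtain ⟨c, hc⟩ := h3
    rw [inv_mul_cancel_right] at hc
    exact ⟨c, deodhar M.toCoxeterSystem (hd c) hc⟩
  choose j hj using key
  refine ⟨u, hu', d, y, hy', hg, fun v' hv' => hd ⟨v', hv'⟩, hdV, j, ?_, hj⟩
  intro v v' hvv
  have h1 := hj v
  rw [hvv, hj v'] at h1
  have h2 := mul_left_cancel h1
  exact (Subtype.ext (simple_inj M.toCoxeterSystem h2)).symm
-- END dbl

-- BEGIN lft
private theorem lft_prun (ω : List B) (y : Art M) :
    FBP.prun (fun s (y : Art M) => some (y * ag M s)) ω y = some (y * (ω.map (ag M)).prod) := by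
  induction ω generalizing y with
  | nil => simp [FBP.prun]
  | cons s ω ih =>
    rw [FBP.prun, Option.bind_some, ih, List.map_cons, List.prod_cons, mul_assoc]

private theorem lft_th (ω : List B) :
    th M ((ω.map (ag M)).prod) = M.toCoxeterSystem.wordProd ω := by
  induction ω with
  | nil => simp
  | cons s ω ih =>
    rw [List.map_cons, List.prod_cons, map_mul, ih, CoxeterSystem.wordProd_cons, theta_ag]

private theorem lft_key {ω ω' : List B} (h1 : M.toCoxeterSystem.IsReduced ω)
    (h2 : M.toCoxeterSystem.IsReduced ω')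
    (h3 : M.toCoxeterSystem.wordProd ω = M.toCoxeterSystem.wordProd ω') :
    (ω.map (ag M)).prod = (ω'.map (ag M)).prod := by
  have hbr : ∀ s t, s ≠ t → M s t ≠ 0 → ∀ y : Art M,
      FBP.prun (fun s (y : Art M) => some (y * ag M s)) (altL s t (M s t)) y =
        FBP.prun (fun s (y : Art M) => some (y * ag M s)) (altL t s (M s t)) y := by
    intro s t _ h0 y
    rw [lft_prun, lft_prun, FBP.prod_map_altL, FBP.prod_map_altL, art_braid M s t h0]
  have h4 := congrFun (FBP.mats M.toCoxeterSystem
    (fun s (y : Art M) => some (y * ag M s)) hbr _ ω ω' rfl h1 h2 h3) 1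
  rw [lft_prun, lft_prun, one_mul, one_mul] at h4
  exact Option.some.inj h4

/-- ROW lft. The positive lift (Matsumoto): `FBP.mats` for the everywhere defined action
`st s y = some (y * ag M s)` of the letters on `Art M` (the braid condition is `art_braid`, `prun st (altL s t n) y =
some (y * altM (ag s) (ag t) n)`); `L w` = the product of the letters of a reduced word of `w`. -/
theorem exists_lift : ∃ L : M.Group → Art M, (∀ w, th M (L w) = w) ∧
    (∀ w s, Asc M.toCoxeterSystem w s → L (M.simple s * w) = ag M s * L w) ∧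
    (∀ w s, Asc M.toCoxeterSystem w⁻¹ s → L (w * M.simple s) = L w * ag M s) := by
  choose ρ hρ1 hρ2 using M.toCoxeterSystem.exists_isReduced
  refine ⟨fun w => ((ρ w).map (ag M)).prod, fun w => ?_, fun w s hs => ?_, fun w s hs => ?_⟩
  · exact (lft_th (ρ w)).trans (hρ2 w).symm
  · have h1 : M.toCoxeterSystem.IsReduced (s :: ρ w) := by
      rw [isReduced_cons]
      refine ⟨hρ1 w, ?_⟩
      rw [← hρ2 w]
      exact hs
    have h2 : M.toCoxeterSystem.wordProd (ρ (M.simple s * w)) =
        M.toCoxeterSystem.wordProd (s :: ρ w) := by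
      rw [← hρ2, CoxeterSystem.wordProd_cons, ← hρ2 w]
      rfl
    have h3 := lft_key (hρ1 (M.simple s * w)) h1 h2
    rw [List.map_cons, List.prod_cons] at h3
    exact h3
  · have h4 := (asc_inv M.toCoxeterSystem).1 hs
    have h5 := M.toCoxeterSystem.length_mul_simple w s
    have hw : M.toCoxeterSystem.length w = (ρ w).length := by
      have h6 := (hρ1 w).eq
      rw [← hρ2 w] at h6
      exact h6
    have h7 : M.toCoxeterSystem.wordProd (ρ w ++ [s]) = w * M.toCoxeterSystem.simple s := by
      rw [CoxeterSystem.wordProd_append, CoxeterSystem.wordProd_singleton, ← hρ2 w]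
    have h1 : M.toCoxeterSystem.IsReduced (ρ w ++ [s]) := by
      unfold CoxeterSystem.IsReduced
      rw [h7, List.length_append, List.length_singleton]
      omega
    have h2 : M.toCoxeterSystem.wordProd (ρ (w * M.simple s)) =
        M.toCoxeterSystem.wordProd (ρ w ++ [s]) := by
      rw [← hρ2, h7]
      rfl
    have h3 := lft_key (hρ1 (w * M.simple s)) h1 h2
    rw [List.map_append, List.prod_append, List.map_cons, List.map_nil, List.prod_singleton] at h3
    exact h3
-- END lft

-- BEGIN unf
/-- ROW unf. `Art N` for one generator: torsion free cyclic (`art_induction`: every element is a power of `ag N ()`;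
`ArtSph.pow_ne`). -/
theorem unit_fin {N : CoxeterMatrix Unit} (x y : Art N) (h : x ≠ 1 ∨ y ≠ 1) :
    {n : ℕ | x ^ n * y = 1}.Finite := by
  have hz : ∀ a : Art N, ∃ k : ℤ, a = ag N () ^ k := by
    intro a
    induction a using art_induction with
    | h1 => exact ⟨0, (zpow_zero _).symm⟩
    | hg i => exact ⟨1, (zpow_one _).symm⟩
    | hm a b ha hb =>
      obtain ⟨k, rfl⟩ := ha
      obtain ⟨l, rfl⟩ := hb
      exact ⟨k + l, (zpow_add _ _ _).symm⟩
    | hi a ha =>
      obtain ⟨k, rfl⟩ := ha
      exact ⟨-k, (zpow_neg _ _).symm⟩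
  have h0 : ∀ k : ℤ, ag N () ^ k = 1 → k = 0 := by
    intro k hk
    by_contra hne
    obtain ⟨n, rfl | rfl⟩ := Int.eq_nat_or_neg k
    · rw [zpow_natCast] at hk
      exact pow_ne (M := N) () n (by omega) hk
    · rw [zpow_neg, inv_eq_one, zpow_natCast] at hk
      exact pow_ne (M := N) () n (by omega) hk
  obtain ⟨k, rfl⟩ := hz x
  obtain ⟨l, rfl⟩ := hz y
  have key : ∀ n : ℕ, (ag N () ^ k) ^ n * ag N () ^ l = 1 → k * n + l = 0 := by
    intro n hn
    apply h0
    rw [zpow_add, zpow_mul, zpow_natCast]
    exact hn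
  by_cases hk : k = 0
  · subst hk
    rw [zpow_zero] at h
    have hl : ag N () ^ l ≠ 1 := h.resolve_left (fun h' => h' rfl)
    refine Set.finite_empty.subset fun n hn => ?_
    have hn' := key n hn
    rw [zero_mul, zero_add] at hn'
    rw [hn', zpow_zero] at hl
    exact absurd rfl hl
  · refine Set.Subsingleton.finite fun n hn m hm => ?_
    have h1 := key n hn
    have h2 := key m hm
    have h4 : k * (n : ℤ) = k * (m : ℤ) := by linarith
    exact_mod_cast mul_left_cancel₀ hk h4
-- END unf

end Pool.Agent.LRed
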